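import Pool.Agent.Work.MP_69fea5_lc.HK.Fin

/-!
Calculus of non-negative real-valued functions in a family closed under arithmetical operations.
-/

set_option autoImplicit false

open Filter Topology MeasureTheory

namespace Pool.Agent.Work.MP_69fea5_lc.HK

open Encodable

variable {S : Set (Set ℕ)}
variable {α β γ : Type*} [Primcodable α] [Primcodable β] [Primcodable γ]

/-! ### natural arithmetic -/

theorem ArF.sub (hS : Cl S) {f g : α → ℕ} (hf : ArF S f) (hg : ArF S g) :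
    ArF S fun a => f a - g a := ArF.map₂ hS Primrec.nat_sub hf hg

theorem primrec_pow : Primrec₂ ((· ^ ·) : ℕ → ℕ → ℕ) := by
  have h : Primrec fun p : ℕ × ℕ => (Nat.rec 1 (fun _ m => m * p.1) p.2 : ℕ) :=
    Primrec.nat_rec' (f := fun p : ℕ × ℕ => p.2) (g := fun _ => 1)
      (h := fun (p : ℕ × ℕ) (q : ℕ × ℕ) => q.2 * p.1) Primrec.snd (Primrec.const 1)
      (Primrec.nat_mul.comp (Primrec.snd.comp Primrec.snd) (Primrec.fst.comp Primrec.fst)).to₂
  refine h.of_eq fun p => ?_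
  obtain ⟨a, n⟩ := p
  simp only
  induction n with
  | zero => simp
  | succ n ih => rw [pow_succ, ← ih]

theorem ArF.pow (hS : Cl S) {f g : α → ℕ} (hf : ArF S f) (hg : ArF S g) :
    ArF S fun a => f a ^ g a := ArF.map₂ hS primrec_pow hf hg

/-! ### comparison with rational numbers -/

theorem ArR.congr {f g : α → ℝ} (h : ArR S f) (e : ∀ a, g a = f a) : ArR S g := by
  have : g = f := funext e
  rw [this]
  exact h

theorem ArR.sub' (hS : Cl S) {f : α → ℝ} (h : ArR S f) {g : β → α} (hg : ArF S g) :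
    ArR S fun b => f (g b) :=
  Ar.sub hS (R := fun p : α × ℕ × ℕ => (p.2.1 : ℝ) < f p.1 * (p.2.2 + 1)) h
    (f := fun q : β × ℕ × ℕ => (g q.1, q.2))
    ((hg.comp hS (ArF.fst hS)).pair hS (ArF.snd hS))

/-- substitution of a function of the family -/
theorem ArR.sub (hS : Cl S) {f : α → ℝ} (h : ArR S f) {g : β → α} (hg : ArF S g) :
    ArR S fun b => f (g b) := ArR.sub' hS h hg

/-- substitution of a primitive recursive function -/
theorem ArR.comp (hS : Cl S) {f : α → ℝ} (h : ArR S f) {g : β → α} (hg : Primrec g) :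
    ArR S fun b => f (g b) := ArR.sub' hS h (ArF.of_primrec hS hg)

/-- `u / (v + 1) < f g` -/
theorem ArR.lt (hS : Cl S) {f : α → ℝ} (h : ArR S f) {g : β → α} (hg : ArF S g) {u v : β → ℕ}
    (hu : ArF S u) (hv : ArF S v) : Ar S fun b => (u b : ℝ) < f (g b) * (v b + 1) :=
  Ar.sub hS (R := fun p : α × ℕ × ℕ => (p.2.1 : ℝ) < f p.1 * (p.2.2 + 1)) h
    (f := fun b => (g b, u b, v b)) (hg.pair hS (hu.pair hS hv))

/-- rational numbers below `x` determine `p / (q + 1) ≤ x` -/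
theorem le_iff_rat {x : ℝ} (hx : 0 ≤ x) (p q : ℕ) :
    (p : ℝ) ≤ x * (q + 1) ↔ ∀ r s : ℕ, r * (q + 1) < p * (s + 1) → (r : ℝ) < x * (s + 1) := by
  constructor
  · intro h r s hrs
    have h1 : (r : ℝ) * (q + 1) < p * (s + 1) := by exact_mod_cast hrs
    have h2 : (0 : ℝ) < q + 1 := by positivity
    have h3 : (0 : ℝ) < s + 1 := by positivity
    have h4 : (p : ℝ) * (s + 1) ≤ x * (q + 1) * (s + 1) := mul_le_mul_of_nonneg_right h h3.le
    nlinarith
  · intro h
    by_contra hc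
    push Not at hc
    have h2 : (0 : ℝ) < q + 1 := by positivity
    -- choose a rational between
    have h3 : x < p / (q + 1) := by rwa [lt_div_iff₀ h2]
    obtain ⟨t, ht1, ht2⟩ := exists_rat_btwn h3
    have ht0 : 0 ≤ t := by
      have : (0 : ℝ) ≤ t := hx.trans ht1.le
      exact_mod_cast this
    obtain ⟨r, hr⟩ : ∃ r : ℕ, (r : ℤ) = t.num := ⟨t.num.toNat, Int.toNat_of_nonneg (by
      exact Rat.num_nonneg.2 ht0)⟩
    obtain ⟨s, hs⟩ : ∃ s : ℕ, t.den = s + 1 := ⟨t.den - 1, by have := t.pos; omega⟩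
    have h4 : (t : ℝ) = r / (s + 1) := by
      have : (t : ℝ) = (t.num : ℝ) / (t.den : ℝ) := by
        exact_mod_cast (Rat.num_div_den t).symm
      rw [this, hs, ← hr]
      push_cast
      ring
    have h5 : (0 : ℝ) < s + 1 := by positivity
    rw [h4] at ht1 ht2
    rw [div_lt_div_iff₀ h5 h2] at ht2
    have h6 : r * (q + 1) < p * (s + 1) := by exact_mod_cast ht2
    have h7 := h r s h6
    rw [lt_div_iff₀ h5] at ht1
    linarith

/-- `u / (v + 1) ≤ f g` -/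
theorem ArR.le (hS : Cl S) {f : α → ℝ} (h : ArR S f) (h0 : ∀ a, 0 ≤ f a) {g : β → α}
    (hg : ArF S g) {u v : β → ℕ} (hu : ArF S u) (hv : ArF S v) :
    Ar S fun b => (u b : ℝ) ≤ f (g b) * (v b + 1) := by
  refine Ar.congr (R := fun b => ∀ r : ℕ, ∀ s : ℕ, r * (v b + 1) < u b * (s + 1) →
    (r : ℝ) < f (g b) * (s + 1)) ?_ fun b => le_iff_rat (h0 _) _ _
  refine Ar.all hS (R := fun b r => ∀ s : ℕ, r * (v b + 1) < u b * (s + 1) →
    (r : ℝ) < f (g b) * (s + 1)) ?_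
  refine Ar.all hS (R := fun (p : β × ℕ) s => p.2 * (v p.1 + 1) < u p.1 * (s + 1) →
    (p.2 : ℝ) < f (g p.1) * (s + 1)) ?_
  have h1 : ArF S fun q : (β × ℕ) × ℕ => q.1.1 := ArF.of_primrec hS (Primrec.fst.comp Primrec.fst)
  have h2 : ArF S fun q : (β × ℕ) × ℕ => q.1.2 := ArF.of_primrec hS (Primrec.snd.comp Primrec.fst)
  have h3 : ArF S fun q : (β × ℕ) × ℕ => q.2 := ArF.snd hS
  refine Ar.imp hS ?_ ?_
  · exact Ar.lt hS (ArF.mul hS h2 (ArF.succ hS (hv.comp hS h1)))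
      (ArF.mul hS (hu.comp hS h1) (ArF.succ hS h3))
  · exact ArR.lt hS h (hg.comp hS h1) h2 h3

/-- introduction of real-valued functions by rational lower bounds -/
theorem ArR.of_low (hS : Cl S) {F : α → ℝ} {L : α → ℕ → ℕ → Prop}
    (hL : Ar S fun p : α × ℕ × ℕ => L p.1 p.2.1 p.2.2)
    (h1 : ∀ a n q, L a n q → (n : ℝ) ≤ F a * (q + 1))
    (h2 : ∀ a, ∀ ε > 0, 0 < F a → ∃ n q, L a n q ∧ F a * (q + 1) < n + ε * (q + 1)) : ArR S F := by
  refine Ar.congr (R := fun p : α × ℕ × ℕ => ∃ n : ℕ, ∃ q : ℕ, L p.1 n q ∧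
    p.2.1 * (q + 1) < n * (p.2.2 + 1)) ?_ ?_
  · refine Ar.ex hS (R := fun (p : α × ℕ × ℕ) n => ∃ q : ℕ, L p.1 n q ∧
      p.2.1 * (q + 1) < n * (p.2.2 + 1)) ?_
    refine Ar.ex hS (R := fun (p : (α × ℕ × ℕ) × ℕ) q => L p.1.1 p.2 q ∧
      p.1.2.1 * (q + 1) < p.2 * (p.1.2.2 + 1)) ?_
    refine Ar.and hS ?_ ?_
    · exact Ar.comp hS hL (f := fun q : ((α × ℕ × ℕ) × ℕ) × ℕ => (q.1.1.1, q.1.2, q.2))
        ((Primrec.fst.comp (Primrec.fst.comp Primrec.fst)).pair
          ((Primrec.snd.comp Primrec.fst).pair Primrec.snd))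
    · refine Ar.lt hS (ArF.mul hS (ArF.of_primrec hS ?_) (ArF.succ hS (ArF.snd hS)))
        (ArF.mul hS (ArF.of_primrec hS (Primrec.snd.comp Primrec.fst))
          (ArF.succ hS (ArF.of_primrec hS ?_)))
      · exact Primrec.fst.comp (Primrec.snd.comp (Primrec.fst.comp Primrec.fst))
      · exact Primrec.snd.comp (Primrec.snd.comp (Primrec.fst.comp Primrec.fst))
  · rintro ⟨a, r, s⟩
    simp only
    have hs : (0 : ℝ) < s + 1 := by positivity
    constructor
    · intro h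
      have hF : 0 < F a := by
        by_contra hc
        push Not at hc
        have : F a * (s + 1) ≤ 0 := mul_nonpos_of_nonpos_of_nonneg hc hs.le
        have hr : (0 : ℝ) ≤ r := by positivity
        linarith
      -- the gap
      have hgap : 0 < F a - r / (s + 1) := by
        rw [sub_pos, div_lt_iff₀ hs]
        exact h
      obtain ⟨n, q, hLn, hn⟩ := h2 a _ hgap hF
      refine ⟨n, q, hLn, ?_⟩
      have hq : (0 : ℝ) < q + 1 := by positivity
      have h3 : (r : ℝ) / (s + 1) * (q + 1) < n := by nlinarith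
      have h4 : (r : ℝ) * (q + 1) < n * (s + 1) := by
        rw [div_mul_eq_mul_div, div_lt_iff₀ hs] at h3
        exact h3
      exact_mod_cast h4
    · rintro ⟨n, q, hLn, hlt⟩
      have h3 := h1 a n q hLn
      have h4 : (r : ℝ) * (q + 1) < n * (s + 1) := by exact_mod_cast hlt
      have hq : (0 : ℝ) < q + 1 := by positivity
      have h5 : (n : ℝ) * (s + 1) ≤ F a * (q + 1) * (s + 1) := mul_le_mul_of_nonneg_right h3 hs.le
      nlinarith

/-! ### operations -/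

theorem ArR.rat (hS : Cl S) {u v : α → ℕ} (hu : ArF S u) (hv : ArF S v) :
    ArR S fun a => (u a : ℝ) / (v a + 1) := by
  refine Ar.congr (R := fun p : α × ℕ × ℕ => p.2.1 * (v p.1 + 1) < u p.1 * (p.2.2 + 1)) ?_ ?_
  · have h1 : ArF S fun q : α × ℕ × ℕ => q.1 := ArF.fst hS
    refine Ar.lt hS (ArF.mul hS (ArF.of_primrec hS (Primrec.fst.comp Primrec.snd))
      (ArF.succ hS (hv.comp hS h1))) (ArF.mul hS (hu.comp hS h1)
      (ArF.succ hS (ArF.of_primrec hS (Primrec.snd.comp Primrec.snd))))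
  · rintro ⟨a, r, s⟩
    simp only
    have hv : (0 : ℝ) < v a + 1 := by positivity
    rw [div_mul_eq_mul_div, lt_div_iff₀ hv]
    constructor
    · intro h; exact_mod_cast h
    · intro h; exact_mod_cast h

theorem ArR.nat (hS : Cl S) {u : α → ℕ} (hu : ArF S u) : ArR S fun a => (u a : ℝ) :=
  (ArR.rat hS hu (ArF.const hS 0)).congr fun a => by simp

theorem ArR.one (hS : Cl S) : ArR S fun _ : α => (1 : ℝ) :=
  (ArR.nat hS (ArF.const hS 1)).congr fun a => by simp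

theorem ArR.zero (hS : Cl S) : ArR S fun _ : α => (0 : ℝ) :=
  (ArR.nat hS (ArF.const hS 0)).congr fun a => by simp

/-- `(1 / 2) ^ u` -/
theorem ArR.half_pow (hS : Cl S) {u : α → ℕ} (hu : ArF S u) :
    ArR S fun a => (1 / 2 : ℝ) ^ u a := by
  refine (ArR.rat hS (u := fun _ => 1) (v := fun a => 2 ^ u a - 1) (ArF.const hS 1)
    (ArF.sub hS (ArF.pow hS (ArF.const hS 2) hu) (ArF.const hS 1))).congr fun a => ?_
  have : 1 ≤ 2 ^ u a := Nat.one_le_two_pow
  push_cast [Nat.cast_sub this]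
  rw [sub_add_cancel, one_div, inv_pow, one_div]

/-- a lower bound with denominator `q + 1` and small error -/
theorem exists_floor {x : ℝ} (hx : 0 ≤ x) (q : ℕ) : ∃ n : ℕ, (n : ℝ) ≤ x * (q + 1) ∧
    x * (q + 1) < n + 1 := by
  have h : 0 ≤ x * (q + 1) := by positivity
  exact ⟨⌊x * (q + 1)⌋₊, Nat.floor_le h, Nat.lt_floor_add_one _⟩

theorem exists_den {ε : ℝ} (hε : 0 < ε) (c : ℝ) : ∃ q : ℕ, c < ε * (q + 1) := by
  obtain ⟨q, hq⟩ := exists_nat_gt (c / ε)
  refine ⟨q, ?_⟩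
  rw [div_lt_iff₀ hε] at hq
  nlinarith

section ctx

variable (hS : Cl S)
include hS

theorem ArR.add {f g : α → ℝ} (hf : ArR S f) (hg : ArR S g) (f0 : ∀ a, 0 ≤ f a)
    (g0 : ∀ a, 0 ≤ g a) : ArR S fun a => f a + g a := by
  refine ArR.of_low hS (L := fun a N q => ∃ n : ℕ, n ≤ N ∧ (n : ℝ) ≤ f a * (q + 1) ∧
    ((N - n : ℕ) : ℝ) ≤ g a * (q + 1)) ?_ ?_ ?_
  · refine Ar.ex hS (R := fun (p : α × ℕ × ℕ) n => n ≤ p.2.1 ∧ (n : ℝ) ≤ f p.1 * (p.2.2 + 1) ∧
      ((p.2.1 - n : ℕ) : ℝ) ≤ g p.1 * (p.2.2 + 1)) ?_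
    have e1 : ArF S fun q : (α × ℕ × ℕ) × ℕ => q.1.1 :=
      ArF.of_primrec hS (Primrec.fst.comp Primrec.fst)
    have e2 : ArF S fun q : (α × ℕ × ℕ) × ℕ => q.1.2.1 :=
      ArF.of_primrec hS (Primrec.fst.comp (Primrec.snd.comp Primrec.fst))
    have e3 : ArF S fun q : (α × ℕ × ℕ) × ℕ => q.1.2.2 :=
      ArF.of_primrec hS (Primrec.snd.comp (Primrec.snd.comp Primrec.fst))
    have e4 : ArF S fun q : (α × ℕ × ℕ) × ℕ => q.2 := ArF.snd hS
    exact Ar.and hS (Ar.le hS e4 e2) (Ar.and hS (ArR.le hS hf f0 e1 e4 e3)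
      (ArR.le hS hg g0 e1 (ArF.sub hS e2 e4) e3))
  · rintro a N q ⟨n, hn, h1, h2⟩
    have h3 : ((N - n : ℕ) : ℝ) = N - n := by push_cast [Nat.cast_sub hn]; ring
    rw [h3] at h2
    linarith
  · intro a ε hε _
    obtain ⟨q, hq⟩ := exists_den hε 2
    obtain ⟨n, hn1, hn2⟩ := exists_floor (f0 a) q
    obtain ⟨m, hm1, hm2⟩ := exists_floor (g0 a) q
    refine ⟨n + m, q, ⟨n, by omega, hn1, ?_⟩, ?_⟩
    · simpa using hm1
    · push_cast
      linarith

theorem ArR.mul {f g : α → ℝ} (hf : ArR S f) (hg : ArR S g) (f0 : ∀ a, 0 ≤ f a)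
    (g0 : ∀ a, 0 ≤ g a) : ArR S fun a => f a * g a := by
  refine ArR.of_low hS (L := fun a N Q => ∃ n m q : ℕ, n * m = N ∧ Q + 1 = (q + 1) * (q + 1) ∧
    (n : ℝ) ≤ f a * (q + 1) ∧ (m : ℝ) ≤ g a * (q + 1)) ?_ ?_ ?_
  · refine Ar.congr (R := fun p : α × ℕ × ℕ => ∃ t : ℕ × ℕ × ℕ, t.1 * t.2.1 = p.2.1 ∧
      p.2.2 + 1 = (t.2.2 + 1) * (t.2.2 + 1) ∧ (t.1 : ℝ) ≤ f p.1 * (t.2.2 + 1) ∧
      (t.2.1 : ℝ) ≤ g p.1 * (t.2.2 + 1)) ?_ ?_
    · refine Ar.ex hS (R := fun (p : α × ℕ × ℕ) (t : ℕ × ℕ × ℕ) => t.1 * t.2.1 = p.2.1 ∧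
        p.2.2 + 1 = (t.2.2 + 1) * (t.2.2 + 1) ∧ (t.1 : ℝ) ≤ f p.1 * (t.2.2 + 1) ∧
        (t.2.1 : ℝ) ≤ g p.1 * (t.2.2 + 1)) ?_
      have e1 : ArF S fun q : (α × ℕ × ℕ) × ℕ × ℕ × ℕ => q.1.1 :=
        ArF.of_primrec hS (Primrec.fst.comp Primrec.fst)
      have e2 : ArF S fun q : (α × ℕ × ℕ) × ℕ × ℕ × ℕ => q.1.2.1 :=
        ArF.of_primrec hS (Primrec.fst.comp (Primrec.snd.comp Primrec.fst))
      have e3 : ArF S fun q : (α × ℕ × ℕ) × ℕ × ℕ × ℕ => q.1.2.2 :=
        ArF.of_primrec hS (Primrec.snd.comp (Primrec.snd.comp Primrec.fst))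
      have t1 : ArF S fun q : (α × ℕ × ℕ) × ℕ × ℕ × ℕ => q.2.1 :=
        ArF.of_primrec hS (Primrec.fst.comp Primrec.snd)
      have t2 : ArF S fun q : (α × ℕ × ℕ) × ℕ × ℕ × ℕ => q.2.2.1 :=
        ArF.of_primrec hS (Primrec.fst.comp (Primrec.snd.comp Primrec.snd))
      have t3 : ArF S fun q : (α × ℕ × ℕ) × ℕ × ℕ × ℕ => q.2.2.2 :=
        ArF.of_primrec hS (Primrec.snd.comp (Primrec.snd.comp Primrec.snd))
      exact Ar.and hS (Ar.eq hS (ArF.mul hS t1 t2) e2) (Ar.and hS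
        (Ar.eq hS (ArF.succ hS e3) (ArF.mul hS (ArF.succ hS t3) (ArF.succ hS t3)))
        (Ar.and hS (ArR.le hS hf f0 e1 t1 t3) (ArR.le hS hg g0 e1 t2 t3)))
    · rintro ⟨a, N, Q⟩
      constructor
      · rintro ⟨n, m, q, h⟩
        exact ⟨(n, m, q), h⟩
      · rintro ⟨⟨n, m, q⟩, h⟩
        exact ⟨n, m, q, h⟩
  · rintro a N Q ⟨n, m, q, rfl, hQ, h1, h2⟩
    have hQ' : (Q : ℝ) + 1 = (q + 1) * (q + 1) := by exact_mod_cast hQ
    rw [hQ']
    push_cast
    have hn : (0 : ℝ) ≤ n := by positivity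
    have hm : (0 : ℝ) ≤ m := by positivity
    have hq : (0 : ℝ) < q + 1 := by positivity
    have h3 : (n : ℝ) * m ≤ (f a * (q + 1)) * (g a * (q + 1)) := mul_le_mul h1 h2 hm
      (mul_nonneg (f0 a) hq.le)
    nlinarith
  · intro a ε hε _
    obtain ⟨q, hq⟩ := exists_den hε (f a + g a + 2)
    obtain ⟨n, hn1, hn2⟩ := exists_floor (f0 a) q
    obtain ⟨m, hm1, hm2⟩ := exists_floor (g0 a) q
    refine ⟨n * m, (q + 1) * (q + 1) - 1, ⟨n, m, q, rfl, ?_, hn1, hm1⟩, ?_⟩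
    · have : 1 ≤ (q + 1) * (q + 1) := Nat.one_le_iff_ne_zero.2 (by positivity)
      omega
    · have h1 : (((q + 1) * (q + 1) - 1 : ℕ) : ℝ) + 1 = ((q : ℝ) + 1) * (q + 1) := by
        have : 1 ≤ (q + 1) * (q + 1) := Nat.one_le_iff_ne_zero.2 (by positivity)
        push_cast [Nat.cast_sub this]
        ring
      rw [h1]
      push_cast
      have hqp : (0 : ℝ) < q + 1 := by positivity
      have hq1 : (1 : ℝ) ≤ q + 1 := by
        have : (0 : ℝ) ≤ q := by positivity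
        linarith
      have hf := f0 a
      have hg := g0 a
      have hn : (0 : ℝ) ≤ n := by positivity
      have hm : (0 : ℝ) ≤ m := by positivity
      set x := f a * ((q : ℝ) + 1) with hx
      set y := g a * ((q : ℝ) + 1) with hy
      have hx0 : 0 ≤ x := by positivity
      have hy0 : 0 ≤ y := by positivity
      -- x y < n m + x + y + 1
      have h2 : x * y ≤ n * m + x + y + 1 := by
        nlinarith [mul_nonneg hx0 hy0, mul_nonneg (sub_nonneg.2 hn1) (sub_nonneg.2 hm1)]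
      have h3 : x + y + 1 < ε * ((q + 1) * (q + 1)) := by
        have h4 : x + y + 1 ≤ (f a + g a + 2) * (q + 1) - 0 := by
          rw [hx, hy]
          nlinarith
        have h5 : (f a + g a + 2) * ((q : ℝ) + 1) < ε * (q + 1) * (q + 1) :=
          mul_lt_mul_of_pos_right hq hqp
        nlinarith
      have h6 : f a * g a * (((q : ℝ) + 1) * (q + 1)) = x * y := by rw [hx, hy]; ring
      rw [h6]
      linarith

theorem ArR.tsub {f g : α → ℝ} (hf : ArR S f) (hg : ArR S g) (f0 : ∀ a, 0 ≤ f a)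
    (g0 : ∀ a, 0 ≤ g a) : ArR S fun a => max (f a - g a) 0 := by
  refine ArR.of_low hS (L := fun a N q => N = 0 ∨ ∃ m : ℕ, ¬ ((m : ℝ) < g a * (q + 1)) ∧
    ((N + m : ℕ) : ℝ) ≤ f a * (q + 1)) ?_ ?_ ?_
  · refine Ar.or hS (Ar.eq hS (ArF.of_primrec hS (Primrec.fst.comp Primrec.snd))
      (ArF.const hS 0)) ?_
    refine Ar.ex hS (R := fun (p : α × ℕ × ℕ) (m : ℕ) => ¬ ((m : ℝ) < g p.1 * (p.2.2 + 1)) ∧
      ((p.2.1 + m : ℕ) : ℝ) ≤ f p.1 * (p.2.2 + 1)) ?_
    have e1 : ArF S fun q : (α × ℕ × ℕ) × ℕ => q.1.1 :=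
      ArF.of_primrec hS (Primrec.fst.comp Primrec.fst)
    have e2 : ArF S fun q : (α × ℕ × ℕ) × ℕ => q.1.2.1 :=
      ArF.of_primrec hS (Primrec.fst.comp (Primrec.snd.comp Primrec.fst))
    have e3 : ArF S fun q : (α × ℕ × ℕ) × ℕ => q.1.2.2 :=
      ArF.of_primrec hS (Primrec.snd.comp (Primrec.snd.comp Primrec.fst))
    have e4 : ArF S fun q : (α × ℕ × ℕ) × ℕ => q.2 := ArF.snd hS
    exact Ar.and hS (Ar.not hS (ArR.lt hS hg e1 e4 e3))
      (ArR.le hS hf f0 e1 (ArF.add hS e2 e4) e3)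
  · rintro a N q (rfl | ⟨m, h1, h2⟩)
    · have : 0 ≤ max (f a - g a) 0 * ((q : ℝ) + 1) := by positivity
      simpa using this
    · push Not at h1
      push_cast at h2
      have h3 : (f a - g a) * ((q : ℝ) + 1) ≤ max (f a - g a) 0 * (q + 1) :=
        mul_le_mul_of_nonneg_right (le_max_left _ _) (by positivity)
      nlinarith
  · intro a ε hε hpos
    have hfg : 0 < f a - g a := by
      rcases lt_max_iff.1 hpos with h | h
      · exact h
      · exact absurd h (lt_irrefl _)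
    rw [max_eq_left hfg.le]
    obtain ⟨q, hq⟩ := exists_den hε 2
    obtain ⟨n, hn1, hn2⟩ := exists_floor (f0 a) q
    obtain ⟨m, hm1, hm2⟩ := exists_floor (g0 a) q
    rcases Nat.lt_or_ge n (m + 1) with hlt | hge
    · refine ⟨0, q, Or.inl rfl, ?_⟩
      have : (n : ℝ) ≤ m := by exact_mod_cast Nat.lt_succ_iff.1 hlt
      push_cast
      nlinarith
    · refine ⟨n - (m + 1), q, Or.inr ⟨m + 1, ?_, ?_⟩, ?_⟩
      · push_cast
        linarith
      · have : n - (m + 1) + (m + 1) = n := by omega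
        rw [this]
        exact hn1
      · push_cast [Nat.cast_sub hge]
        nlinarith

/-- suprema -/
theorem ArR.iSup [Nonempty β] {f : α → β → ℝ} (hf : ArR S fun p : α × β => f p.1 p.2)
    (f0 : ∀ a b, 0 ≤ f a b) (hb : ∀ a, BddAbove (Set.range (f a))) :
    ArR S fun a => ⨆ b, f a b := by
  refine ArR.of_low hS (L := fun a N q => ∃ b, (N : ℝ) ≤ f a b * (q + 1)) ?_ ?_ ?_
  · refine Ar.ex hS (R := fun (p : α × ℕ × ℕ) b => (p.2.1 : ℝ) ≤ f p.1 b * (p.2.2 + 1)) ?_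
    exact ArR.le hS hf (fun p => f0 _ _) (g := fun q : (α × ℕ × ℕ) × β => (q.1.1, q.2))
      (ArF.of_primrec hS ((Primrec.fst.comp Primrec.fst).pair Primrec.snd))
      (ArF.of_primrec hS (Primrec.fst.comp (Primrec.snd.comp Primrec.fst)))
      (ArF.of_primrec hS (Primrec.snd.comp (Primrec.snd.comp Primrec.fst)))
  · rintro a N q ⟨b, h⟩
    have h1 : f a b * ((q : ℝ) + 1) ≤ (⨆ b, f a b) * (q + 1) :=
      mul_le_mul_of_nonneg_right (le_ciSup (hb a) b) (by positivity)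
    linarith
  · intro a ε hε _
    obtain ⟨b, hb'⟩ := exists_lt_of_lt_ciSup (show (⨆ b, f a b) - ε / 2 < ⨆ b, f a b by linarith)
    obtain ⟨q, hq⟩ := exists_den (half_pos hε) 2
    obtain ⟨n, hn1, hn2⟩ := exists_floor (f0 a b) q
    refine ⟨n, q, ⟨b, hn1⟩, ?_⟩
    have hqp : (0 : ℝ) < q + 1 := by positivity
    nlinarith

/-- infima -/
theorem ArR.iInf [Nonempty β] {f : α → β → ℝ} (hf : ArR S fun p : α × β => f p.1 p.2)
    (f0 : ∀ a b, 0 ≤ f a b) : ArR S fun a => ⨅ b, f a b := by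
  have hb : ∀ a, BddBelow (Set.range (f a)) := fun a => ⟨0, by rintro _ ⟨b, rfl⟩; exact f0 a b⟩
  refine ArR.of_low hS (L := fun a N q => ∀ b, (N : ℝ) ≤ f a b * (q + 1)) ?_ ?_ ?_
  · refine Ar.all hS (R := fun (p : α × ℕ × ℕ) b => (p.2.1 : ℝ) ≤ f p.1 b * (p.2.2 + 1)) ?_
    exact ArR.le hS hf (fun p => f0 _ _) (g := fun q : (α × ℕ × ℕ) × β => (q.1.1, q.2))
      (ArF.of_primrec hS ((Primrec.fst.comp Primrec.fst).pair Primrec.snd))
      (ArF.of_primrec hS (Primrec.fst.comp (Primrec.snd.comp Primrec.fst)))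
      (ArF.of_primrec hS (Primrec.snd.comp (Primrec.snd.comp Primrec.fst)))
  · intro a N q h
    have hqp : (0 : ℝ) < q + 1 := by positivity
    rw [← div_le_iff₀ hqp]
    exact le_ciInf fun b => by rw [div_le_iff₀ hqp]; exact h b
  · intro a ε hε _
    obtain ⟨q, hq⟩ := exists_den hε 2
    have h0 : 0 ≤ ⨅ b, f a b := le_ciInf fun b => f0 a b
    obtain ⟨n, hn1, hn2⟩ := exists_floor h0 q
    refine ⟨n, q, fun b => hn1.trans (mul_le_mul_of_nonneg_right (ciInf_le (hb a) b)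
      (by positivity)), ?_⟩
    linarith

/-- limits along the ultrafilter -/
theorem ArR.lim {U : Ultrafilter ℕ} (hU : DU S U) {f : α → ℕ → ℝ}
    (hf : ArR S fun p : α × ℕ => f p.1 p.2) (f0 : ∀ a n, 0 ≤ f a n) {F : α → ℝ}
    (hF : ∀ a, Tendsto (f a) (U : Filter ℕ) (𝓝 (F a))) : ArR S F := by
  refine ArR.of_low hS (L := fun a N q => ∀ᶠ n in (U : Filter ℕ), (N : ℝ) ≤ f a n * (q + 1))
    ?_ ?_ ?_
  · refine Ar.ev hU (R := fun (p : α × ℕ × ℕ) n => (p.2.1 : ℝ) ≤ f p.1 n * (p.2.2 + 1)) ?_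
    exact ArR.le hS hf (fun p => f0 _ _) (g := fun q : (α × ℕ × ℕ) × ℕ => (q.1.1, q.2))
      (ArF.of_primrec hS ((Primrec.fst.comp Primrec.fst).pair Primrec.snd))
      (ArF.of_primrec hS (Primrec.fst.comp (Primrec.snd.comp Primrec.fst)))
      (ArF.of_primrec hS (Primrec.snd.comp (Primrec.snd.comp Primrec.fst)))
  · intro a N q h
    exact ge_of_tendsto ((hF a).mul_const _) h
  · intro a ε hε _
    have h0 : 0 ≤ F a := ge_of_tendsto (hF a) (Eventually.of_forall fun n => f0 a n)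
    obtain ⟨q, hq⟩ := exists_den hε 2
    obtain ⟨n, hn1, hn2⟩ := exists_floor h0 q
    refine ⟨n - 1, q, ?_, ?_⟩
    · rcases Nat.eq_zero_or_pos n with rfl | hn
      · refine Eventually.of_forall fun i => ?_
        have : 0 ≤ f a i * ((q : ℝ) + 1) := mul_nonneg (f0 a i) (by positivity)
        simpa using this
      · have hlt : ((n - 1 : ℕ) : ℝ) < F a * (q + 1) := by
          push_cast [Nat.cast_sub hn]
          linarith
        exact (((hF a).mul_const _).eventually (lt_mem_nhds hlt)).mono fun i hi => hi.le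
    · have : (n : ℝ) ≤ ((n - 1 : ℕ) : ℝ) + 1 := by
        have : n ≤ n - 1 + 1 := by omega
        exact_mod_cast this
      linarith

/-- finite sums -/
theorem ArR.sum {f : α → ℕ → ℝ} (hf : ArR S fun p : α × ℕ => f p.1 p.2)
    (f0 : ∀ a n, 0 ≤ f a n) {g : α → ℕ} (hg : ArF S g) :
    ArR S fun a => ∑ i ∈ Finset.range (g a), f a i := by
  refine ArR.of_low hS (L := fun a N q => ∃ l : List ℕ, l.length = g a ∧
    l.foldr (fun x y => x + y) 0 = N ∧ ∀ i < g a, ((l.getD i 0 : ℕ) : ℝ) ≤ f a i * (q + 1)) ?_ ?_ ?_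
  · refine Ar.ex hS (R := fun (p : α × ℕ × ℕ) (l : List ℕ) => l.length = g p.1 ∧
      l.foldr (fun x y => x + y) 0 = p.2.1 ∧
      ∀ i < g p.1, ((l.getD i 0 : ℕ) : ℝ) ≤ f p.1 i * (p.2.2 + 1)) ?_
    have e1 : ArF S fun q : (α × ℕ × ℕ) × List ℕ => q.1.1 :=
      ArF.of_primrec hS (Primrec.fst.comp Primrec.fst)
    refine Ar.and hS (Ar.eq hS (ArF.of_primrec hS (Primrec.list_length.comp Primrec.snd))
      (hg.comp hS e1)) (Ar.and hS ?_ ?_)
    · refine Ar.eq hS (ArF.of_primrec hS ?_)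
        (ArF.of_primrec hS (Primrec.fst.comp (Primrec.snd.comp Primrec.fst)))
      exact Primrec.list_foldr (f := fun q : (α × ℕ × ℕ) × List ℕ => q.2) (g := fun _ => 0)
        (h := fun (_ : (α × ℕ × ℕ) × List ℕ) (q : ℕ × ℕ) => q.1 + q.2) Primrec.snd
        (Primrec.const 0) (Primrec.nat_add.comp (Primrec.fst.comp Primrec.snd)
          (Primrec.snd.comp Primrec.snd)).to₂
    · refine Ar.ball hS (R := fun (q : (α × ℕ × ℕ) × List ℕ) i =>
        ((q.2.getD i 0 : ℕ) : ℝ) ≤ f q.1.1 i * (q.1.2.2 + 1)) ?_ (hg.comp hS e1)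
      exact ArR.le hS hf (fun p => f0 _ _)
        (g := fun q : ((α × ℕ × ℕ) × List ℕ) × ℕ => (q.1.1.1, q.2))
        (ArF.of_primrec hS ((Primrec.fst.comp (Primrec.fst.comp Primrec.fst)).pair Primrec.snd))
        (ArF.of_primrec hS ((Primrec.list_getD 0).comp (Primrec.snd.comp Primrec.fst) Primrec.snd))
        (ArF.of_primrec hS
          (Primrec.snd.comp (Primrec.snd.comp (Primrec.fst.comp Primrec.fst))))
  · rintro a N q ⟨l, hl, rfl, h⟩
    have h1 : ((l.foldr (fun x y => x + y) 0 : ℕ) : ℝ) =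
        ∑ i ∈ Finset.range (g a), ((l.getD i 0 : ℕ) : ℝ) := by
      rw [← hl]
      clear h hl
      induction l with
      | nil => simp
      | cons x l ih =>
        rw [List.length_cons, Finset.sum_range_succ']
        simp only [List.foldr_cons, List.getD_cons_succ, List.getD_cons_zero]
        push_cast
        rw [ih]
        ring
    rw [h1, Finset.sum_mul]
    exact Finset.sum_le_sum fun i hi => h i (Finset.mem_range.1 hi)
  · intro a ε hε _
    obtain ⟨q, hq⟩ := exists_den hε (g a)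
    choose n hn1 hn2 using fun i => exists_floor (f0 a i) q
    refine ⟨_, q, ⟨(List.range (g a)).map n, by simp, rfl, fun i hi => ?_⟩, ?_⟩
    · rw [List.getD_eq_getElem?_getD, List.getElem?_map, List.getElem?_range hi]
      exact hn1 i
    · have h1 : ∀ m : ℕ, ((((List.range m).map n).foldr (fun x y => x + y) 0 : ℕ) : ℝ) =
          ∑ i ∈ Finset.range m, (n i : ℝ) := by
        intro m
        have h2 : ∀ l : List ℕ, l.foldr (fun x y => x + y) 0 = l.sum := by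
          intro l
          induction l with
          | nil => rfl
          | cons x l ih => simp [ih]
        rw [h2]
        induction m with
        | zero => simp
        | succ m ih =>
          rw [List.range_succ, List.map_append, List.sum_append, Finset.sum_range_succ, ← ih]
          simp
      rw [h1, Finset.sum_mul]
      have h3 : ∑ i ∈ Finset.range (g a), f a i * ((q : ℝ) + 1) ≤
          ∑ i ∈ Finset.range (g a), ((n i : ℝ) + 1) :=
        Finset.sum_le_sum fun i _ => (hn2 i).le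
      rw [Finset.sum_add_distrib] at h3
      simp only [Finset.sum_const, Finset.card_range, nsmul_eq_mul, mul_one] at h3
      linarith

/-- infinite sums -/
theorem ArR.tsum {f : α → ℕ → ℝ} (hf : ArR S fun p : α × ℕ => f p.1 p.2)
    (f0 : ∀ a n, 0 ≤ f a n) (hs : ∀ a, Summable (f a)) : ArR S fun a => ∑' i, f a i := by
  have h1 : ArR S fun a => ⨆ n : ℕ, ∑ i ∈ Finset.range n, f a i := by
    refine ArR.iSup hS (f := fun a n => ∑ i ∈ Finset.range n, f a i) ?_ ?_ ?_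
    · exact ArR.sum hS (f := fun (p : α × ℕ) i => f p.1 i)
        (ArR.sub' hS hf (g := fun q : (α × ℕ) × ℕ => (q.1.1, q.2))
          (ArF.of_primrec hS ((Primrec.fst.comp Primrec.fst).pair Primrec.snd)))
        (fun p i => f0 _ _) (ArF.snd hS)
    · exact fun a n => Finset.sum_nonneg fun i _ => f0 a i
    · intro a
      refine ⟨∑' i, f a i, ?_⟩
      rintro _ ⟨n, rfl⟩
      exact (hs a).sum_le_tsum _ fun i _ => f0 a i
  refine h1.congr fun a => ?_
  have h2 : Tendsto (fun n => ∑ i ∈ Finset.range n, f a i) atTop (𝓝 (∑' i, f a i)) :=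
    (hs a).hasSum.tendsto_sum_nat
  have hmono : Monotone fun n => ∑ i ∈ Finset.range n, f a i := by
    intro m n hmn
    exact Finset.sum_le_sum_of_subset_of_nonneg (Finset.range_subset_range.2 hmn)
      fun i _ _ => f0 a i
  exact (tendsto_nhds_unique (tendsto_atTop_ciSup hmono
    ⟨∑' i, f a i, by rintro _ ⟨n, rfl⟩; exact (hs a).sum_le_tsum _ fun i _ => f0 a i⟩) h2).symm

theorem ArR.min {f g : α → ℝ} (hf : ArR S f) (hg : ArR S g) :
    ArR S fun a => min (f a) (g a) :=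
  (Ar.and hS hf hg).congr fun p => by
    have h : (0 : ℝ) < p.2.2 + 1 := by positivity
    rw [min_mul_of_nonneg _ _ h.le, lt_min_iff]

theorem ArR.max {f g : α → ℝ} (hf : ArR S f) (hg : ArR S g) :
    ArR S fun a => max (f a) (g a) :=
  (Ar.or hS hf hg).congr fun p => by
    have h : (0 : ℝ) < p.2.2 + 1 := by positivity
    rw [max_mul_of_nonneg _ _ h.le, lt_max_iff]

/-- definition by cases -/
theorem ArR.ite {P : α → Prop} [DecidablePred P] (hP : Ar S P) {f g : α → ℝ} (hf : ArR S f)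
    (hg : ArR S g) : ArR S fun a => if P a then f a else g a :=
  (Ar.or hS (Ar.and hS (Ar.comp hS hP Primrec.fst) hf)
    (Ar.and hS (Ar.not hS (Ar.comp hS hP (Primrec.fst (α := α) (β := ℕ × ℕ)))) hg)).congr
    fun p => by by_cases h : P p.1 <;> simp [h]

theorem ArR.ind {P : α → Prop} [DecidablePred P] (hP : Ar S P) :
    ArR S fun a => if P a then (1 : ℝ) else 0 := ArR.ite hS hP (ArR.one hS) (ArR.zero hS)

/-! ### comparisons -/

omit hS in
/-- rational numbers between -/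
theorem lt_iff_rat {x y : ℝ} (hx : 0 ≤ x) : x < y ↔ ∃ t : ℕ × ℕ,
    ¬ ((t.1 : ℝ) < x * (t.2 + 1)) ∧ (t.1 : ℝ) < y * (t.2 + 1) := by
  constructor
  · intro h
    obtain ⟨q, hq⟩ := exists_den (sub_pos.2 h) 2
    obtain ⟨n, hn1, hn2⟩ := exists_floor hx q
    refine ⟨(n + 1, q), ?_, ?_⟩
    · push Not
      push_cast
      exact hn2.le
    · push_cast
      nlinarith
  · rintro ⟨⟨r, s⟩, h1, h2⟩
    push Not at h1
    have hs : (0 : ℝ) < s + 1 := by positivity
    simp only at h1 h2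
    exact lt_of_mul_lt_mul_right (h1.trans_lt h2) hs.le

theorem ArR.rlt {f g : α → ℝ} (hf : ArR S f) (hg : ArR S g) (f0 : ∀ a, 0 ≤ f a) :
    Ar S fun a => f a < g a := by
  refine Ar.congr (R := fun a => ∃ t : ℕ × ℕ, ¬ ((t.1 : ℝ) < f a * (t.2 + 1)) ∧
    (t.1 : ℝ) < g a * (t.2 + 1)) ?_ fun a => lt_iff_rat (f0 a)
  refine Ar.ex hS (R := fun a (t : ℕ × ℕ) => ¬ ((t.1 : ℝ) < f a * (t.2 + 1)) ∧
    (t.1 : ℝ) < g a * (t.2 + 1)) ?_
  exact Ar.and hS (Ar.not hS hf) hg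

theorem ArR.rle {f g : α → ℝ} (hf : ArR S f) (hg : ArR S g) (g0 : ∀ a, 0 ≤ g a) :
    Ar S fun a => f a ≤ g a :=
  (Ar.not hS (ArR.rlt hS hg hf g0)).congr fun _ => not_lt.symm

theorem ArR.req {f g : α → ℝ} (hf : ArR S f) (hg : ArR S g) (f0 : ∀ a, 0 ≤ f a)
    (g0 : ∀ a, 0 ≤ g a) : Ar S fun a => f a = g a :=
  (Ar.and hS (ArR.rle hS hf hg g0) (ArR.rle hS hg hf f0)).congr fun _ => le_antisymm_iff

/-- square of a difference -/
theorem ArR.sqd {f g : α → ℝ} (hf : ArR S f) (hg : ArR S g) (f0 : ∀ a, 0 ≤ f a)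
    (g0 : ∀ a, 0 ≤ g a) : ArR S fun a => (f a - g a) ^ 2 := by
  have h1 := ArR.tsub hS hf hg f0 g0
  have h2 := ArR.tsub hS hg hf g0 f0
  refine (ArR.add hS (ArR.mul hS h1 h1 ?_ ?_) (ArR.mul hS h2 h2 ?_ ?_) ?_ ?_).congr ?_
  · exact fun a => le_max_right _ _
  · exact fun a => le_max_right _ _
  · exact fun a => le_max_right _ _
  · exact fun a => le_max_right _ _
  · exact fun a => mul_nonneg (le_max_right _ _) (le_max_right _ _)
  · exact fun a => mul_nonneg (le_max_right _ _) (le_max_right _ _)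
  · intro a
    rcases le_total (f a) (g a) with h | h
    · rw [max_eq_right (sub_nonpos.2 h), max_eq_left (sub_nonneg.2 h)]
      ring
    · rw [max_eq_left (sub_nonneg.2 h), max_eq_right (sub_nonpos.2 h)]
      ring

/-- absolute value of a difference -/
theorem ArR.absd {f g : α → ℝ} (hf : ArR S f) (hg : ArR S g) (f0 : ∀ a, 0 ≤ f a)
    (g0 : ∀ a, 0 ≤ g a) : ArR S fun a => |f a - g a| := by
  refine (ArR.max hS (ArR.tsub hS hf hg f0 g0) (ArR.tsub hS hg hf g0 f0)).congr fun a => ?_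
  rcases le_total (f a) (g a) with h | h
  · rw [abs_of_nonpos (sub_nonpos.2 h), max_eq_right (sub_nonpos.2 h),
      max_eq_left (sub_nonneg.2 h), max_eq_right (sub_nonneg.2 h)]
    ring
  · rw [abs_of_nonneg (sub_nonneg.2 h), max_eq_left (sub_nonneg.2 h),
      max_eq_right (sub_nonpos.2 h), max_eq_left (sub_nonneg.2 h)]

/-- division by natural numbers -/
theorem ArR.divn {f : α → ℝ} (hf : ArR S f) (f0 : ∀ a, 0 ≤ f a) {v : α → ℕ} (hv : ArF S v) :
    ArR S fun a => f a / (v a + 1) := by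
  refine (ArR.mul hS hf (ArR.rat hS (u := fun _ => 1) (ArF.const hS 1) hv) f0 fun a => ?_).congr
    fun a => ?_
  · positivity
  · push_cast
    rw [mul_one_div]

/-- a real number with coded cut is the value of a function of the family -/
theorem ArR.iff_set {x : ℝ} : ArR S (fun _ : PUnit => x) ↔
    {n : ℕ | ((Nat.unpair n).1 : ℝ) < x * ((Nat.unpair n).2 + 1)} ∈ S := by
  constructor
  · intro h
    have h1 : Ar S fun n : ℕ => ((Nat.unpair n).1 : ℝ) < x * ((Nat.unpair n).2 + 1) :=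
      ArR.lt hS h (g := fun _ => PUnit.unit) (ArF.const hS _)
        (ArF.of_primrec hS (Primrec.fst.comp Primrec.unpair))
        (ArF.of_primrec hS (Primrec.snd.comp Primrec.unpair))
    exact h1.set
  · intro h
    have h1 : Ar S fun p : PUnit × ℕ × ℕ => Nat.pair p.2.1 p.2.2 ∈
        {n : ℕ | ((Nat.unpair n).1 : ℝ) < x * ((Nat.unpair n).2 + 1)} :=
      Ar.mem hS h (Primrec₂.natPair.comp (Primrec.fst.comp Primrec.snd)
        (Primrec.snd.comp Primrec.snd))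
    refine h1.congr fun p => ?_
    simp

end ctx

end Pool.Agent.Work.MP_69fea5_lc.HK
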