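import Pool.Agent.Work.MP_69fea5_lc.HK.Sys
import Pool.Agent.Work.MP_69fea5_lc.HK.Real

/-!
Block [69fea5 HK]: coded families of sequences of letters, of points of the cube, and products.
-/

set_option autoImplicit false
set_option linter.unusedVariables false

open Filter Topology

namespace Pool.Agent.Work.MP_69fea5_lc.HK

theorem abs_le_iff_natAbs (t : ℤ) (L : ℕ) : |t| ≤ (L : ℤ) ↔ t.natAbs ≤ L := by
  rw [Int.abs_eq_natAbs]
  exact Int.ofNat_le

instance lawCX {k : ℕ} : LawC (X k) where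
  sc_comp S β γ _ _ w f hS hw hf := by
    refine ArF.comp hS (g := fun p : β × ℤ => w p.1 p.2) hw (f := fun p : γ × ℤ => (f p.1, p.2)) ?_
    exact (hf.comp hS (ArF.fst hS)).pair hS (ArF.snd hS)
  sc_act S β _ w hS hw := by
    refine ArF.comp hS (g := fun p : β × ℤ => w p.1 p.2) hw
      (f := fun p : (β × ℤ) × ℤ => (p.1.1, p.2 + p.1.2)) ?_
    exact ((ArF.fst hS).comp hS (ArF.fst hS)).pair hS
      ((ArF.snd hS).intAdd hS ((ArF.snd hS).comp hS (ArF.fst hS)))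
  sc_lim S U β _ w x hS hU hw hx := by
    refine ArF.of_exists (R := fun (p : β × ℤ) v => ∀ᶠ n in (U : Filter ℕ),
      w (p.1, n) p.2 = v) ?_ ?_
    · refine Ar.ev hU (R := fun (q : (β × ℤ) × Fin k) n => w (q.1.1, n) q.1.2 = q.2) ?_
      refine Ar.eq hS ?_ ((ArF.snd hS).comp hS (ArF.fst hS))
      refine ArF.comp hS (g := fun p : (β × ℕ) × ℤ => w p.1 p.2) hw
        (f := fun q : ((β × ℤ) × Fin k) × ℕ => ((q.1.1.1, q.2), q.1.1.2)) ?_
      exact ArF.of_primrec hS (((Primrec.fst.comp (Primrec.fst.comp Primrec.fst)).pair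
        Primrec.snd).pair (Primrec.snd.comp (Primrec.fst.comp Primrec.fst)))
    · rintro ⟨b, t⟩ v
      have h1 : Tendsto (fun n => w (b, n) t) (U : Filter ℕ) (𝓝 (x b t)) :=
        (tendsto_pi_nhds.1 (hx b)) t
      rw [nhds_discrete, tendsto_pure] at h1
      constructor
      · rintro rfl
        exact h1
      · intro hv
        obtain ⟨n, hn1, hn2⟩ := (h1.and hv).exists
        exact hn1.symm.trans hn2
  sc_near S β _ w w' hS hw hw' := by
    refine (Ar.ballInt hS (R := fun (p : ℕ × β) t => w p.2 t = w' p.2 t) ?_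
      (ArF.fst hS)).congr fun p => ?_
    · have h1 : ArF S fun q : (ℕ × β) × ℤ => (q.1.2, q.2) :=
        ((ArF.snd hS).comp hS (ArF.fst hS)).pair hS (ArF.snd hS)
      exact Ar.eq hS (ArF.comp hS (g := fun p : β × ℤ => w p.1 p.2) hw h1)
        (ArF.comp hS (g := fun p : β × ℤ => w' p.1 p.2) hw' h1)
    · show (∀ t : ℤ, |t| ≤ (p.1 : ℤ) → w p.2 t = w' p.2 t) ↔ _
      exact forall_congr' fun t => by rw [abs_le_iff_natAbs]

/-- products of coded dynamical spaces -/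
instance lawCPR {α β : Type} [TopologicalSpace α] [TopologicalSpace β] [Dat α] [Dat β]
    [LawC α] [LawC β] : LawC (α × β) where
  sc_comp S δ γ _ _ w f hS hw hf :=
    ⟨LawC.sc_comp S δ γ _ f hS hw.1 hf, LawC.sc_comp S δ γ _ f hS hw.2 hf⟩
  sc_act S δ _ w hS hw := ⟨LawC.sc_act S δ _ hS hw.1, LawC.sc_act S δ _ hS hw.2⟩
  sc_lim S U δ _ w x hS hU hw hx :=
    ⟨LawC.sc_lim S U δ _ _ hS hU hw.1 fun b => (continuous_fst.tendsto _).comp (hx b),
      LawC.sc_lim S U δ _ _ hS hU hw.2 fun b => (continuous_snd.tendsto _).comp (hx b)⟩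
  sc_near S δ _ w w' hS hw hw' :=
    (LawC.sc_near S δ _ _ hS hw.1 hw'.1).and hS (LawC.sc_near S δ _ _ hS hw.2 hw'.2)

/-- points of the cube -/
instance lawCV {I : Type} [Primcodable I] : LawC (V I) where
  sc_comp S β γ _ _ w f hS hw hf := by
    refine ArR.sub hS (f := fun p : β × ℤ × I => (w p.1 p.2.1 p.2.2 : ℝ)) hw
      (g := fun p : γ × ℤ × I => (f p.1, p.2)) ?_
    exact (hf.comp hS (ArF.fst hS)).pair hS (ArF.snd hS)
  sc_act S β _ w hS hw := by
    refine ArR.sub hS (f := fun p : β × ℤ × I => (w p.1 p.2.1 p.2.2 : ℝ)) hw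
      (g := fun p : (β × ℤ) × ℤ × I => (p.1.1, p.2.1 + p.1.2, p.2.2)) ?_
    refine ((ArF.fst hS).comp hS (ArF.fst hS)).pair hS (ArF.pair hS ?_ ?_)
    · exact ((ArF.fst hS).comp hS (ArF.snd hS)).intAdd hS ((ArF.snd hS).comp hS (ArF.fst hS))
    · exact (ArF.snd hS).comp hS (ArF.snd hS)
  sc_lim S U β _ w x hS hU hw hx := by
    refine ArR.lim hS hU (f := fun (p : β × ℤ × I) n => (w (p.1, n) p.2.1 p.2.2 : ℝ)) ?_
      (fun p n => (w (p.1, n) p.2.1 p.2.2).2.1) ?_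
    · exact ArR.sub hS (f := fun p : (β × ℕ) × ℤ × I => (w p.1 p.2.1 p.2.2 : ℝ)) hw
        (g := fun q : (β × ℤ × I) × ℕ => ((q.1.1, q.2), q.1.2)) (ArF.of_primrec hS
        (((Primrec.fst.comp Primrec.fst).pair Primrec.snd).pair (Primrec.snd.comp Primrec.fst)))
    · rintro ⟨b, t, i⟩
      exact (continuous_subtype_val.tendsto _).comp
        ((tendsto_pi_nhds.1 ((tendsto_pi_nhds.1 (hx b)) t)) i)
  sc_near S β _ w w' hS hw hw' := by
    refine (Ar.ballInt hS (R := fun (p : ℕ × β) t => ∀ i : I, Encodable.encode i ≤ p.1 →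
      |(w p.2 t i : ℝ) - w' p.2 t i| < ((1 : ℕ) : ℝ) / (p.1 + 1)) ?_
      (ArF.fst hS)).congr fun p => ?_
    · refine Ar.all hS (R := fun (q : (ℕ × β) × ℤ) (i : I) => Encodable.encode i ≤ q.1.1 →
        |(w q.1.2 q.2 i : ℝ) - w' q.1.2 q.2 i| < ((1 : ℕ) : ℝ) / (q.1.1 + 1)) ?_
      refine Ar.imp hS (Ar.prim hS (Primrec.nat_le.comp (Primrec.encode.comp Primrec.snd)
        (Primrec.fst.comp (Primrec.fst.comp Primrec.fst)))) ?_
      have h1 : ArF S fun q : ((ℕ × β) × ℤ) × I => (q.1.1.2, q.1.2, q.2) :=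
        ArF.of_primrec hS ((Primrec.snd.comp (Primrec.fst.comp Primrec.fst)).pair
          ((Primrec.snd.comp Primrec.fst).pair Primrec.snd))
      refine ArR.rlt hS (ArR.absd hS
        (ArR.sub hS (f := fun p : β × ℤ × I => (w p.1 p.2.1 p.2.2 : ℝ)) hw h1)
        (ArR.sub hS (f := fun p : β × ℤ × I => (w' p.1 p.2.1 p.2.2 : ℝ)) hw' h1)
        (fun q => (w q.1.1.2 q.1.2 q.2).2.1) (fun q => (w' q.1.1.2 q.1.2 q.2).2.1))
        (ArR.rat hS (ArF.const hS 1) (ArF.of_primrec hS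
          (Primrec.fst.comp (Primrec.fst.comp Primrec.fst)))) (fun q => abs_nonneg _)
    · show (∀ t : ℤ, |t| ≤ (p.1 : ℤ) → ∀ i : I, Encodable.encode i ≤ p.1 →
        |(w p.2 t i : ℝ) - w' p.2 t i| < 1 / (p.1 + 1)) ↔ _
      exact forall_congr' fun t => by rw [abs_le_iff_natAbs, Nat.cast_one]

end Pool.Agent.Work.MP_69fea5_lc.HK
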