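import Pool.Agent.Work.MP_69fea5_lc.HK.Sys

/-!
Block [69fea5 HK]: sums of at most two terms, any number of colours.  Statements of the items.
-/

set_option autoImplicit false

open Filter Topology MeasureTheory

namespace Pool.Agent.Work.MP_69fea5_lc.HK

/-! ### definitions for the isometric part -/

section defsA

variable {k : ℕ} {I : Type} [Primcodable I]

/-- the support of a measure -/
def supp (m : PM k) : Set (X k) := {a | ∀ U ∈ 𝓝 a, 0 < mr m U}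

/-- the facts about a stage used in the classical part -/
structure RS (c z : X k) (y : Y I k) : Prop where
  mn : Mn (z, y)
  om : MapClusterPt (z, y) atTop (fun x : ℕ => act (x : ℤ) (c, y))
  rim : mr y.2 {a | (a, y) ∈ oc (z, y)} = 1

/-- closed invariant relations on the fibres of the orbit closure of `w` -/
structure Rel (w : X k × Y I k) (R : Set (X k × X k × Y I k)) : Prop where
  closed : IsClosed R
  inv : ∀ n : ℤ, ∀ q ∈ R, act n q ∈ R
  fst : ∀ q ∈ R, (q.1, q.2.2) ∈ oc w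
  snd : ∀ q ∈ R, (q.2.1, q.2.2) ∈ oc w

/-- McMahon's relation -/
def NP (c z : X k) (y : Y I k) (P : C k) : Set (X k × X k × Y I k) :=
  {q | (q.1, q.2.2) ∈ oc (z, y) ∧ (q.2.1, q.2.2) ∈ oc (z, y) ∧ ∀ U ∈ 𝓝 q, ∀ N : ℕ,
    ∃ x : ℕ, N ≤ x ∧ ∃ g ∈ cyl P ∩ supp y.2, act (x : ℤ) (c, (g, y)) ∈ U}

/-- its sections -/
def AP (c z : X k) (y : Y I k) (P : C k) (p : X k × Y I k) : Set (X k) :=
  {u | (u, (p.1, p.2)) ∈ NP c z y P}

/-- the kernel of `P` at `p`, as a measure, on the cylinder of `Q` -/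
noncomputable def kap (c z : X k) (y : Y I k) (P Q : C k) (p : X k × Y I k) : ℝ :=
  mr p.2.2 (cyl Q ∩ AP c z y P p)

/-- all kernels along the orbit of `p` -/
noncomputable def pw (c z : X k) (y : Y I k) (p : X k × Y I k) : V (C k × C k) :=
  fun t PQ => ⟨kap c z y PQ.1 PQ.2 (act t p), measureReal_nonneg, measureReal_le_one⟩

/-- measure of the symmetric difference of the sections -/
noncomputable def dP (c z : X k) (y : Y I k) (P : C k) (q : X k × X k × Y I k) : ℝ :=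
  mr q.2.2.2 (AP c z y P (q.1, q.2.2)) + mr q.2.2.2 (AP c z y P (q.2.1, q.2.2)) -
    2 * mr q.2.2.2 (AP c z y P (q.1, q.2.2) ∩ AP c z y P (q.2.1, q.2.2))

/-- the word with code `e` -/
def dec (k e : ℕ) : C k := (Encodable.decode (α := C k) e).getD []

/-- the pseudometric of the fibres -/
noncomputable def dd (c z : X k) (y : Y I k) (q : X k × X k × Y I k) : ℝ :=
  ∑' e : ℕ, (1 / 2 : ℝ) ^ e * dP c z y (dec k e) q

/-- pairs of points in one fibre -/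
def fib (w : X k × Y I k) : Set (X k × X k × Y I k) :=
  {q | (q.1, q.2.2) ∈ oc w ∧ (q.2.1, q.2.2) ∈ oc w}

/-- the properties of the pseudometric -/
structure DDok (w : X k × Y I k) {W : Type} (π : X k × Y I k → W)
    (d : X k × X k × Y I k → ℝ) : Prop where
  cont : ContinuousOn d (fib w)
  inv : ∀ q ∈ fib w, ∀ n : ℤ, d (act n q) = d q
  nonneg : ∀ q ∈ fib w, 0 ≤ d q
  self : ∀ (a : X k) (y' : Y I k), (a, y') ∈ oc w → d (a, (a, y')) = 0
  symm : ∀ (a b : X k) (y' : Y I k), (a, (b, y')) ∈ fib w → d (a, (b, y')) = d (b, (a, y'))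
  tri : ∀ (a b e : X k) (y' : Y I k), (a, (b, y')) ∈ fib w → (b, (e, y')) ∈ fib w →
    d (a, (e, y')) ≤ d (a, (b, y')) + d (b, (e, y'))
  zero : ∀ (a b : X k) (y' : Y I k), (a, (b, y')) ∈ fib w → d (a, (b, y')) = 0 →
    π (a, y') = π (b, y')

/-- the base point `g₀`: along the ultrafilter `G`, `(c, g₀, y)` tends to a pair at distance zero -/
structure Base (c z : X k) (y : Y I k) (d : X k × X k × Y I k → ℝ) (g₀ : X k)
    (G : Ultrafilter ℕ) (h h₀ : X k) : Prop where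
  sup : g₀ ∈ supp y.2
  top : (G : Filter ℕ) ≤ atTop
  lim : Tendsto (fun x : ℕ => act (x : ℤ) (c, (g₀, y))) (G : Filter ℕ) (𝓝 (h, (h₀, y)))
  mem : (h, (h₀, y)) ∈ fib (z, y)
  zero : d (h, (h₀, y)) = 0

/-- the coordinates of the next base system -/
abbrev NI (I : Type) (k : ℕ) : Type := I ⊕ (C k ⊕ (C k × C k))

/-- the next base system -/
noncomputable def jn (c z : X k) (y : Y I k) (p : X k × Y I k) : V (NI I k) := fun t =>
  Sum.elim (p.2.1 t) (Sum.elim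
    (fun P => ⟨mr (act t p.2.2) (cyl P), measureReal_nonneg, measureReal_le_one⟩)
    (pw c z y p t))

/-- the zone where the colour `r` is lost -/
def zone (c : X k) (m : PM k) (O : Set (V I)) (r : Fin k) : Set (V (NI I k)) :=
  {u | (fun t i => u t (Sum.inl i)) ∈ O ∧
    ∃ P : C k, Bl c m P r ∧ (0 : ℝ) < u 0 (Sum.inr (Sum.inr (P, P)))}

/-- the word of `a` on `[-n, n]` -/
def wd (n : ℕ) (a : X k) : List (Fin k) := (List.range (2 * n + 1)).map fun i : ℕ => a ((i : ℤ) - n)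

/-- the constraints `g (x + j) = a j` for `|j| ≤ n` -/
def wc (a : X k) (x : ℤ) (n : ℕ) : C k :=
  (List.range (2 * n + 1)).map fun i : ℕ => (x + ((i : ℤ) - n), a ((i : ℤ) - n))

/-- admissible words: approximation of the sections of `NP` -/
def adm (c : X k) (y : Y I k) (P : C k) (p : X k × Y I k) (n : ℕ) (w : List (Fin k)) : Prop :=
  ∀ N : ℕ, ∃ x : ℕ, N ≤ x ∧ wd n (act (x : ℤ) c) = w ∧ near n (act (x : ℤ) y) p.2 ∧
    0 < mr y.2 (cyl (P ++ wc p.1 x n))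

end defsA

/-! ### definitions for the proximal part -/

section defsD

variable {k : ℕ} {I : Type} [Primcodable I]

/-- measures on the fibres of the orbit closure of `(z, v)` -/
def Qs (z : X k) (v : V I) : Set (Y I k) :=
  {q | q.1 ∈ oc v ∧ mr q.2 {a | (a, q.1) ∈ oc (z, v)} = 1}

/-- the energy of a measure -/
noncomputable def En (m : PM k) : ℝ := ∑' e : ℕ, (1 / 2 : ℝ) ^ e * (mr m (cyl (dec k e))) ^ 2

/-- the partial sums of the energy -/
noncomputable def EnL (L : ℕ) (m : PM k) : ℝ :=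
  ∑ e ∈ Finset.range L, (1 / 2 : ℝ) ^ e * (mr m (cyl (dec k e))) ^ 2

/-- the least possible supremum of the energy along an orbit -/
noncomputable def gs (z : X k) (v : V I) : ℝ :=
  sInf {g | ∃ q ∈ Qs z v, ∀ n : ℤ, En (act n q.2) ≤ g}

/-- measures of least energy -/
def As (z : X k) (v : V I) : Set (Y I k) :=
  {q | q ∈ Qs z v ∧ ∀ n : ℤ, En (act n q.2) ≤ gs z v}

/-- `m` is the empirical measure of the list `e` of shifts of `z` -/
def Emp (z : X k) (e : List ℤ) (m : PM k) : Prop :=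
  e ≠ [] ∧ ∀ P : C k, mr m (cyl P) = (e.countP fun t => decide (∀ p ∈ P, z (p.1 + t) = p.2)) / e.length

/-- the list `e` is a good approximation at the level `L` with energy `q` -/
def App (z : X k) (v : V I) (L : ℕ) (q : ℝ) (e : List ℤ) (m : PM k) : Prop :=
  Emp z e m ∧ (∀ t ∈ e, near L (act t v) (act (e.headI) v)) ∧
    ∀ t : ℤ, |t| ≤ (L : ℤ) → EnL L (act t m) ≤ q + 1 / (L + 1)

end defsD

/-! ### items: laws -/

def S_LAWX : Prop := ∀ k : ℕ, Law (X k)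
def S_LAWV : Prop := ∀ (I : Type) [Primcodable I], Law (V I)
def S_LAWPM : Prop := ∀ k : ℕ, Law (PM k)
def S_LAWPR : Prop := ∀ (α β : Type) [TopologicalSpace α] [TopologicalSpace β] [Dat α] [Dat β]
  [Law α] [Law β], Law (α × β)
def S_LAWCX : Prop := ∀ k : ℕ, LawC (X k)
def S_LAWCV : Prop := ∀ (I : Type) [Primcodable I], LawC (V I)
def S_LAWCPM : Prop := ∀ k : ℕ, LawC (PM k)
def S_LAWCPR : Prop := ∀ (α β : Type) [TopologicalSpace α] [TopologicalSpace β] [Dat α] [Dat β]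
  [LawC α] [LawC β], LawC (α × β)

/-! ### items: classical part, minimal sets and measures -/

/-- upper semicontinuity -/
def S_USC : Prop := ∀ (k : ℕ) (Z : Type) [TopologicalSpace Z] (κ : Z → PM k), Continuous κ →
  ∀ F : Set (Z × X k), IsClosed F → UpperSemicontinuous fun ζ => mr (κ ζ) {a | (ζ, a) ∈ F}

/-- upper semicontinuous invariant functions on minimal sets are constant -/
def S_CONST : Prop := ∀ (α : Type) [TopologicalSpace α] [Dat α] [Law α] (w : α), Mn w →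
  ∀ f : α → ℝ, UpperSemicontinuous f → (∀ n : ℤ, ∀ w' ∈ oc w, f (act n w') = f w') →
    ∀ w' ∈ oc w, f w' = f w

/-- existence of minimal points -/
def S_EXMN : Prop := ∀ (α : Type) [TopologicalSpace α] [Dat α] [Law α] [CompactSpace α]
  (F : Set α), IsClosed F → F.Nonempty → (∀ n : ℤ, ∀ w ∈ F, act n w ∈ F) → ∃ w ∈ F, Mn w

section itemsA

def S_RIM : Prop := ∀ (k : ℕ) (I : Type) [Primcodable I] (c z : X k) (y : Y I k), RS c z y →
  ∀ p ∈ oc (z, y), mr p.2.2 {a | (a, p.2) ∈ oc (z, y)} = 1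

def S_MCM1 : Prop := ∀ (k : ℕ) (I : Type) [Primcodable I] (c z : X k) (y : Y I k), RS c z y →
  ∀ R, Rel (z, y) R → ∃ κ : ℝ, ∀ p ∈ oc (z, y),
    mr p.2.2 {a | (p.1, (a, p.2)) ∈ R} = κ ∧ mr p.2.2 {a | (a, (p.1, p.2)) ∈ R} = κ

def S_MCM2 : Prop := ∀ (k : ℕ) (I : Type) [Primcodable I] (c z : X k) (y : Y I k), RS c z y →
  ∀ R, Rel (z, y) R → ∀ Q : C k,
    ContinuousOn (fun p : X k × Y I k => mr p.2.2 (cyl Q ∩ {a | (a, (p.1, p.2)) ∈ R}))
      (oc (z, y))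

def S_MCM3 : Prop := ∀ (k : ℕ) (I : Type) [Primcodable I] (c z : X k) (y : Y I k), RS c z y →
  ∀ R, Rel (z, y) R → ContinuousOn (fun q : X k × X k × Y I k =>
    mr q.2.2.2 ({a | (a, (q.1, q.2.2)) ∈ R} ∩ {a | (a, (q.2.1, q.2.2)) ∈ R})) (fib (z, y))

def S_NPREL : Prop := ∀ (k : ℕ) (I : Type) [Primcodable I] (c z : X k) (y : Y I k), RS c z y →
  ∀ P : C k, Rel (z, y) (NP c z y P)

/-- transport of mass -/
def S_MASS : Prop := ∀ (k : ℕ) (I : Type) [Primcodable I] (y y' : Y I k) (P : C k)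
  (G : Ultrafilter ℕ), Tendsto (fun x : ℕ => act (x : ℤ) y) (G : Filter ℕ) (𝓝 y') →
  ∀ E : Set (X k), IsClosed E →
    (∀ g : ℕ → X k, (∀ x, g x ∈ cyl P ∩ supp y.2) → ∀ a,
      Tendsto (fun x : ℕ => act (x : ℤ) (g x)) (G : Filter ℕ) (𝓝 a) → a ∈ E) →
    mr y.2 (cyl P) ≤ mr y'.2 E

/-- the support is lower semicontinuous -/
def S_SUPL : Prop := ∀ (k : ℕ) (m : PM k) (a : X k), a ∈ supp m → ∀ U ∈ 𝓝 a,
  ∀ᶠ m' in 𝓝 m, ∃ a' ∈ supp m', a' ∈ U

/-- the support is in the fibre -/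
def S_SUPM : Prop := ∀ (k : ℕ) (I : Type) [Primcodable I] (c z : X k) (y : Y I k), RS c z y →
  ∀ p ∈ oc (z, y), ∀ a ∈ supp p.2.2, (a, p.2) ∈ oc (z, y)

/-- the kernels are continuous and equivariant -/
def S_PWC : Prop := ∀ (k : ℕ) (I : Type) [Primcodable I] (c z : X k) (y : Y I k), RS c z y →
  ContinuousOn (pw c z y) (oc (z, y)) ∧ ∀ n : ℤ, ∀ p, pw c z y (act n p) = act n (pw c z y p)

/-- the pseudometric -/
def S_DDOK : Prop := ∀ (k : ℕ) (I : Type) [Primcodable I] (c z : X k) (y : Y I k), RS c z y →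
  DDok (z, y) (pw c z y) (dd c z y)

/-- blocked words -/
def S_A3 : Prop := ∀ (k : ℕ) (I : Type) [Primcodable I] (c z : X k) (y : Y I k), RS c z y →
  ∀ (P : C k) (r : Fin k), Bl c y.2 P r → ∀ p ∈ oc (z, y), 0 < kap c z y P P p → p.1 0 ≠ r

/-- every point of the minimal set is reached from the base point -/
def S_REACH : Prop := ∀ (k : ℕ) (I : Type) [Primcodable I] (c z : X k) (y : Y I k), RS c z y →
  ∀ d, DDok (z, y) (pw c z y) d → ∀ g₀ G h h₀, Base c z y d g₀ G h h₀ →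
    ∀ p ∈ oc (z, y), ∃ (G' : Ultrafilter ℕ) (b : X k), (G' : Filter ℕ) ≤ atTop ∧
      Tendsto (fun x : ℕ => act (x : ℤ) (c, (g₀, y))) (G' : Filter ℕ) (𝓝 (p.1, (b, p.2))) ∧
      (b, p.2) ∈ oc (z, y) ∧ d (p.1, (b, p.2)) = 0

/-- small windows have small diameter -/
def S_SMALL : Prop := ∀ (k : ℕ) (I : Type) [Primcodable I] (c z : X k) (y : Y I k), RS c z y →
  ∀ d, DDok (z, y) (pw c z y) d → ∀ ε : ℝ, 0 < ε → ∃ L : ℕ, ∀ a b : X k,
    (a, (b, y)) ∈ fib (z, y) → near L a b → d (a, (b, y)) < ε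

/-- Fubini: a point near the base point with positive kernel -/
def S_FUB : Prop := ∀ (k : ℕ) (I : Type) [Primcodable I] (c z : X k) (y : Y I k), RS c z y →
  ∀ d, DDok (z, y) (pw c z y) d → ∀ g₀ G h h₀, Base c z y d g₀ G h h₀ →
    ∀ (P : C k) (ε : ℝ), 0 < ε → 0 < mr y.2 (cyl P) →
      (∀ a ∈ cyl P, (a, y) ∈ oc (z, y) → d (a, (g₀, y)) < ε) →
      ∃ b ∈ supp y.2, d (b, (g₀, y)) ≤ 2 * ε ∧ 0 < kap c z y P P (b, y)

/-- the zone accumulates at the next base point -/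
def S_ORB : Prop := ∀ (k : ℕ) (I : Type) [Primcodable I] (c z : X k) (y : Y I k), RS c z y →
  ∀ O : Set (V I), IsOpen O →
  y ∈ closure {u : Y I k | ∃ n : ℤ, u = act n y ∧ u.1 ∈ O} → CaseII c y.2 →
  ∀ d, DDok (z, y) (pw c z y) d → ∀ g₀ G h h₀, Base c z y d g₀ G h h₀ →
    jn c z y (g₀, y) ∈ closure {u | ∃ n : ℤ, u = act n (jn c z y (z, y)) ∧
      u ∈ zone c y.2 O (g₀ 0)}

/-- the other properties of the next pre-stage -/
def S_NEXT : Prop := ∀ (k : ℕ) (I : Type) [Primcodable I] (c z : X k) (y : Y I k), RS c z y →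
  ∀ (O : Set (V I)) (D : Finset (Fin k)), IsOpen O →
  y ∈ closure {u : Y I k | ∃ n : ℤ, u = act n y ∧ u.1 ∈ O} →
  (∀ n : ℤ, act n y.1 ∈ O → z n ∈ D) →
  ∀ d, DDok (z, y) (pw c z y) d → ∀ g₀ G h h₀, Base c z y d g₀ G h h₀ →
    g₀ 0 ∈ D ∧ Mn (z, jn c z y (z, y)) ∧
    MapClusterPt (z, jn c z y (z, y)) atTop
      (fun x : ℕ => (act (x : ℤ) c, act (x : ℤ) (jn c z y (g₀, y)))) ∧
    ∀ n : ℤ, act n (jn c z y (z, y)) ∈ zone c y.2 O (g₀ 0) → z n ∈ D.erase (g₀ 0)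

/-- the base point from sequences -/
def S_BASE : Prop := ∀ (k : ℕ) (I : Type) [Primcodable I] (c z : X k) (y : Y I k), RS c z y →
  ∀ d, DDok (z, y) (pw c z y) d → ∀ (g₀ : X k) (x : ℕ → ℕ) (g : ℕ → X k) (U : Ultrafilter ℕ),
    (U : Filter ℕ) ≤ atTop → (∀ n, n ≤ x n) → (∀ n, near n (act (x n : ℤ) y) y) →
    (∀ n, g n ∈ supp y.2 ∧ near n (act (x n : ℤ) (g n)) (act (x n : ℤ) c)) →
    Tendsto g (U : Filter ℕ) (𝓝 g₀) → ∃ h h₀, Base c z y d g₀ (U.map x) h h₀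

/-- existence of the data of the base point -/
def S_BEX : Prop := ∀ (k : ℕ) (I : Type) [Primcodable I] (c z : X k) (y : Y I k), RS c z y →
  ∀ L : ℕ, ∃ x : ℕ, L ≤ x ∧ near L (act (x : ℤ) y) y ∧ ∃ W : C k,
    (∀ t : ℤ, |t| ≤ (L : ℤ) → ∃ a, (t, a) ∈ W) ∧
    0 < mr y.2 (cyl (W ++ wc (act (x : ℤ) c) x L))

/-- the kernels as limits -/
def S_KAPF : Prop := ∀ (k : ℕ) (I : Type) [Primcodable I] (c z : X k) (y : Y I k), RS c z y →
  ∀ p ∈ oc (z, y), ∀ P Q : C k,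
    kap c z y P Q p = ⨅ n : ℕ, mr p.2.2 (cyl Q ∩ {a | adm c y P p n (wd n a)})

end itemsA

/-! ### items: classical part, the energy -/

section itemsD

/-- mixtures -/
def S_MIX : Prop := ∀ (k : ℕ) (ι : Type) [Fintype ι] (α : ι → ℝ) (m : ι → PM k),
  (∀ i, 0 ≤ α i) → ∑ i, α i = 1 → ∃ b : PM k, ∀ A : Set (X k), MeasurableSet A →
    mr b A = ∑ i, α i * mr (m i) A

/-- continuity of the energy -/
def S_ENC : Prop := ∀ k : ℕ, Continuous (En (k := k)) ∧ (∀ m : PM k, 0 ≤ En m ∧ En m ≤ 2) ∧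
  ∀ (L : ℕ) (m : PM k), EnL L m ≤ En m ∧ En m ≤ EnL L m + 2 * (1 / 2) ^ L

/-- the variance identity -/
def S_VAR : Prop := ∀ (k : ℕ) (ι : Type) [Fintype ι] (α : ι → ℝ) (m : ι → PM k) (b : PM k),
  (∀ i, 0 ≤ α i) → ∑ i, α i = 1 →
  (∀ A : Set (X k), MeasurableSet A → mr b A = ∑ i, α i * mr (m i) A) →
  ∑ i, α i * En (m i) - En b =
    ∑ i, α i * ∑' e : ℕ, (1 / 2 : ℝ) ^ e * (mr (m i) (cyl (dec k e)) - mr b (cyl (dec k e))) ^ 2

def S_QCL : Prop := ∀ (k : ℕ) (I : Type) [Primcodable I] (z : X k) (v : V I),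
  IsClosed (Qs z v) ∧ (∀ n : ℤ, ∀ q ∈ Qs z v, act n q ∈ Qs z v) ∧ (Qs z v).Nonempty

def S_GS : Prop := ∀ (k : ℕ) (I : Type) [Primcodable I] (z : X k) (v : V I),
  (As z v).Nonempty ∧ ∀ q ∈ Qs z v, ∀ ε : ℝ, 0 < ε → ∃ n : ℤ, gs z v - ε < En (act n q.2)

def S_ACL : Prop := ∀ (k : ℕ) (I : Type) [Primcodable I] (z : X k) (v : V I),
  IsClosed (As z v) ∧ (∀ n : ℤ, ∀ q ∈ As z v, act n q ∈ As z v) ∧
  ∀ (ι : Type) [Fintype ι] (α : ι → ℝ) (m : ι → PM k) (b : PM k) (v' : V I),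
    (∀ i, 0 ≤ α i) → ∑ i, α i = 1 →
    (∀ A : Set (X k), MeasurableSet A → mr b A = ∑ i, α i * mr (m i) A) →
    (∀ i, (v', m i) ∈ As z v) → (v', b) ∈ As z v

/-- points of one fibre are proximal -/
def S_PROX : Prop := ∀ (k : ℕ) (I : Type) [Primcodable I] (z : X k) (v v' : V I) (m₁ m₂ : PM k),
  (v', m₁) ∈ As z v → (v', m₂) ∈ As z v → ∃ (G : Ultrafilter ℤ) (q : Y I k),
    Tendsto (fun n => act n ((v', m₁) : Y I k)) (G : Filter ℤ) (𝓝 q) ∧
    Tendsto (fun n => act n ((v', m₂) : Y I k)) (G : Filter ℤ) (𝓝 q)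

/-- the relatively invariant measure -/
def S_DRIM : Prop := ∀ (k : ℕ) (I : Type) [Primcodable I] (z : X k) (v : V I), Mn (z, v) →
  ∀ w : X k × Y I k, Mn w → (w.1, w.2.1) ∈ oc (z, v) → w.2 ∈ As z v →
    mr w.2.2 {a | (a, w.2) ∈ oc w} = 1

/-- the limit points of the colouring -/
def S_DOM : Prop := ∀ (k : ℕ) (I : Type) [Primcodable I] (c z : X k) (v v₀ : V I), Mn (z, v) →
  MapClusterPt (z, v) atTop (fun x : ℕ => (act (x : ℤ) c, act (x : ℤ) v₀)) →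
  ∀ (z' : X k) (m : PM k), Mn (z', ((v₀, m) : Y I k)) → (z', v₀) ∈ oc (z, v) →
    (v₀, m) ∈ As z v →
    MapClusterPt (z', ((v₀, m) : Y I k)) atTop (fun x : ℕ => act (x : ℤ) (c, ((v₀, m) : Y I k)))

/-- approximation by empirical measures -/
def S_QEMP : Prop := ∀ (k : ℕ) (I : Type) [Primcodable I] (z : X k) (v : V I),
  ∀ q ∈ Qs z v, ∀ U ∈ 𝓝 q, ∃ (e : List ℤ) (m : PM k), Emp z e m ∧
    ∀ t ∈ e, (act t v, m) ∈ U

/-- limits of empirical measures -/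
def S_EMPQ : Prop := ∀ (k : ℕ) (I : Type) [Primcodable I] (z : X k) (v : V I)
  (e : ℕ → List ℤ) (m : ℕ → PM k) (U : Ultrafilter ℕ) (z' : X k) (v' : V I) (m' : PM k),
  (U : Filter ℕ) ≤ atTop → (∀ n, Emp z (e n) (m n)) →
  (∀ n, ∀ t ∈ e n, near n (act t v) (act ((e n).headI) v)) →
  Tendsto (fun n => act ((e n).headI) (z, v)) (U : Filter ℕ) (𝓝 (z', v')) →
  Tendsto m (U : Filter ℕ) (𝓝 m') → (z', v') ∈ oc (z, v) ∧ (v', m') ∈ Qs z v

/-- the energy bound by approximation -/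
def S_APP : Prop := ∀ (k : ℕ) (I : Type) [Primcodable I] (z : X k) (v : V I) (q : ℝ),
  gs z v ≤ q ↔ ∀ L : ℕ, ∃ e m, App z v L q e m

/-- existence of empirical measures -/
def S_EMPEX : Prop := ∀ (k : ℕ) (z : X k) (e : List ℤ), e ≠ [] → ∃ m : PM k, Emp z e m

/-- measures are determined by the cylinders -/
def S_EXT : Prop := ∀ (k : ℕ) (m m' : PM k), (∀ P : C k, mr m (cyl P) = mr m' (cyl P)) → m = m'

end itemsD

/-! ### items: definability -/

section itemsS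

/-- coded minimal points -/
def S_URP : Prop := ∀ (S : Set (Set ℕ)) (U : Ultrafilter ℕ), Cl S → DU S U →
  ∀ (α : Type) [TopologicalSpace α] [Dat α] [Law α] [LawC α] [CompactSpace α] [T2Space α] (w : α),
    Pt S w → ∃ (b : ℕ → ℕ) (w' : α), (∀ n, n ≤ b n) ∧
      Tendsto (fun n => act (b n : ℤ) w) (U : Filter ℕ) (𝓝 w') ∧ Mn w' ∧ Pt S w'

/-- real functions from the measures of decidable families of words -/
def S_MEASW : Prop := ∀ (S : Set (Set ℕ)), Cl S → ∀ (k : ℕ) (β : Type) [Primcodable β]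
  (m : β → PM k) (H : β → List (Fin k) → Prop), sc S m →
  (Ar S fun p : β × List (Fin k) => H p.1 p.2) →
  ArR S fun p : β × ℕ × C k => mr (m p.1) (cyl p.2.2 ∩ {a | H p.1 (wd p.2.1 a)})

/-- the kernels are coded -/
def S_RHO : Prop := ∀ (S : Set (Set ℕ)), Cl S → ∀ (k : ℕ) (I : Type) [Primcodable I]
  (c z : X k) (y : Y I k), RS c z y → Pt S c → Pt S y → ∀ (β : Type) [Primcodable β]
  (p : β → X k × Y I k), sc S p → (∀ b, p b ∈ oc (z, y)) →
    ArR S fun q : β × C k × C k => kap c z y q.2.1 q.2.2 (p q.1)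

/-- the next base system is coded -/
def S_JSC : Prop := ∀ (S : Set (Set ℕ)), Cl S → ∀ (k : ℕ) (I : Type) [Primcodable I]
  (c z : X k) (y : Y I k), RS c z y → Pt S c → Pt S y → ∀ p ∈ oc (z, y), Pt S p →
    Pt S (jn c z y p)

/-- the zone is recognised -/
def S_ZSO : Prop := ∀ (S : Set (Set ℕ)), Cl S → ∀ (k : ℕ) (I : Type) [Primcodable I]
  (c : X k) (m : PM k) (O : Set (V I)) (r : Fin k), Pt S c → Pt S m → SO S O →
    SO S (zone c m O r)

/-- the choice of the base point -/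
def S_BSEL : Prop := ∀ (S : Set (Set ℕ)) (U : Ultrafilter ℕ), Cl S → DU S U →
  ∀ (k : ℕ) (I : Type) [Primcodable I] (c z : X k) (y : Y I k), RS c z y → Pt S c → Pt S y →
    ∃ (g₀ : X k) (x : ℕ → ℕ) (g : ℕ → X k), Pt S g₀ ∧ (∀ n, n ≤ x n) ∧
      (∀ n, near n (act (x n : ℤ) y) y) ∧
      (∀ n, g n ∈ supp y.2 ∧ near n (act (x n : ℤ) (g n)) (act (x n : ℤ) c)) ∧
      Tendsto g (U : Filter ℕ) (𝓝 g₀)

/-- empirical measures are coded -/
def S_EMSC : Prop := ∀ (S : Set (Set ℕ)), Cl S → ∀ (k : ℕ) (z : X k), Pt S z →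
  ∀ (β : Type) [Primcodable β] (e : β → List ℤ) (m : β → PM k), ArF S e →
    (∀ b, Emp z (e b) (m b)) → sc S m

/-- the choice of a measure of least energy -/
def S_DSEL : Prop := ∀ (S : Set (Set ℕ)) (U : Ultrafilter ℕ), Cl S → DU S U →
  ∀ (k : ℕ) (I : Type) [Primcodable I] (z : X k) (v : V I), Pt S z → Pt S v →
    ∃ (z' : X k) (v' : V I) (m' : PM k), Pt S z' ∧ Pt S v' ∧ Pt S m' ∧ (z', v') ∈ oc (z, v) ∧
      (v', m') ∈ As z v

/-- from pre-stages to stages -/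
def S_STEPD : Prop := ∀ (S : Set (Set ℕ)) (U : Ultrafilter ℕ), Cl S → DU S U →
  ∀ (k : ℕ) (I : Type) [Primcodable I] (c z : X k) (v v₀ : V I) (O : Set (V I))
    (D : Finset (Fin k)), Pt S c → Pre S c I z v v₀ O D → ∃ z' m', Stg S c I z' v₀ m' O D

/-- from stages to pre-stages with fewer colours -/
def S_STEPA : Prop := ∀ (S : Set (Set ℕ)) (U : Ultrafilter ℕ), Cl S → DU S U →
  ∀ (k : ℕ) (I : Type) [Primcodable I] (c z : X k) (v : V I) (m : PM k) (O : Set (V I))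
    (D : Finset (Fin k)), Pt S c → Stg S c I z v m O D → CaseII c m →
    ∃ v' v₀' O', ∃ r ∈ D, Pre S c (NI I k) z v' v₀' O' (D.erase r)

/-- the first pre-stage -/
def S_INIT : Prop := ∀ (S : Set (Set ℕ)) (U : Ultrafilter ℕ), Cl S → DU S U →
  ∀ (k : ℕ) (c : X k), Pt S c → ∃ z v v₀ O, Pre S c Unit z v v₀ O Finset.univ

/-- solutions -/
def Sol (S : Set (Set ℕ)) {k : ℕ} (c : ℕ → Fin k) : Prop :=
  ∃ A ∈ S, A.Infinite ∧ ∃ r, ∀ x ∈ A, 0 < x ∧ c x = r ∧ ∀ y ∈ A, y < x → c (x + y) = r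

/-- the two-sided extension of a colouring -/
def ext {k : ℕ} (c : ℕ → Fin k) : X k := fun t => c t.toNat

/-- Case I -/
def S_CI : Prop := ∀ (S : Set (Set ℕ)), Cl S → ∀ (k : ℕ) (c : ℕ → Fin k) (m : PM k),
  Pt S (ext c) → Pt S m → ¬ CaseII (ext c) m → Sol S c

/-- the theorem for a family with a definable ultrafilter -/
def S_MAINU : Prop := ∀ (S : Set (Set ℕ)) (U : Ultrafilter ℕ), Cl S → DU S U →
  ∀ (k : ℕ) (c : ℕ → Fin k), ArF S c → Sol S c

/-- countable closed families -/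
def S_CTB : Prop := ∀ (S : Set (Set ℕ)), Cl S → ∀ A ∈ S, ∃ S' ⊆ S, Cl S' ∧ S'.Countable ∧ A ∈ S'

/-- definable ultrafilters -/
def S_DU : Prop := ∀ (S : Set (Set ℕ)), Cl S → S.Countable → ∃ U : Ultrafilter ℕ, DU S U

/-- the theorem -/
def S_MAIN : Prop := ∀ (S : Set (Set ℕ)), Cl S →
  ∀ (k : ℕ) (c : ℕ → Fin k), ArF S c → Sol S c

end itemsS

end Pool.Agent.Work.MP_69fea5_lc.HK
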