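import Pool.Agent.Work.MP_69fea5_lc.HK.Real
import Pool.Agent.Work.MP_69fea5_lc.HK.Stmts

/-!
Measures of decidable families of words.
-/

set_option autoImplicit false

open Filter Topology MeasureTheory

namespace Pool.Agent.Work.MP_69fea5_lc.HK

namespace I_MEASW

variable {k : ℕ}

/-- the digit `i` of `e` in base `k` -/
def dig (hk : 0 < k) (e i : ℕ) : Fin k := ⟨(e / k ^ i) % k, Nat.mod_lt _ hk⟩

/-- the word with code `e` of length `2 n + 1` -/
def word (hk : 0 < k) (n e : ℕ) : List (Fin k) := (List.range (2 * n + 1)).map (dig hk e)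

/-- the constraints of the word with code `e` -/
def con (hk : 0 < k) (n e : ℕ) : C k :=
  (List.range (2 * n + 1)).map fun i : ℕ => ((i : ℤ) - n, dig hk e i)

theorem measurable_cyl (P : C k) : MeasurableSet (cyl P) := by
  have : cyl P = ⋂ p ∈ P, {z : X k | z p.1 = p.2} := by
    ext z; simp [cyl]
  rw [this]
  refine MeasurableSet.biInter (Set.to_countable _) fun p _ => ?_
  exact (measurable_pi_apply (X := fun _ : ℤ => Fin k) p.1) (measurableSet_singleton p.2)

theorem mem_con (hk : 0 < k) (n e : ℕ) (z : X k) :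
    z ∈ cyl (con hk n e) ↔ ∀ i < 2 * n + 1, z ((i : ℤ) - n) = dig hk e i := by
  simp only [cyl, con, Set.mem_ofPred_eq, List.mem_map, List.mem_range]
  constructor
  · intro h i hi
    exact h _ ⟨i, hi, rfl⟩
  · rintro h p ⟨i, hi, rfl⟩
    exact h i hi

theorem map_bind_cast {A : Type} (g : ℤ → A) (l : List ℕ) :
    (List.flatMap (fun a : ℕ => [(a : ℤ)]) l).map g = l.map fun i : ℕ => g i := by
  induction l with
  | nil => rfl
  | cons a l ih => simp [List.flatMap_cons, ih]

theorem wd_def (n : ℕ) (z : X k) :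
    wd n z = (List.range (2 * n + 1)).map fun i : ℕ => z ((i : ℤ) - n) := by
  unfold wd
  first
    | rfl
    | exact map_bind_cast (fun i : ℤ => z (i - n)) _

theorem wd_eq (hk : 0 < k) (n e : ℕ) (z : X k) (h : z ∈ cyl (con hk n e)) :
    wd n z = word hk n e := by
  rw [mem_con] at h
  rw [wd_def]
  unfold word
  exact List.map_congr_left fun i hi => h i (List.mem_range.1 hi)

/-- every window is the word of a code -/
theorem exists_code (hk : 0 < k) (f : ℕ → Fin k) : ∀ m : ℕ, ∃ e < k ^ m, ∀ i < m,
    dig hk e i = f i := by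
  intro m
  induction m with
  | zero => exact ⟨0, by simp, by simp⟩
  | succ m ih =>
    obtain ⟨e, he, h⟩ := ih
    refine ⟨e + f m * k ^ m, ?_, fun i hi => ?_⟩
    · have h1 : (f m : ℕ) + 1 ≤ k := (f m).2
      calc e + f m * k ^ m < k ^ m + f m * k ^ m := by omega
        _ = (f m + 1) * k ^ m := by ring
        _ ≤ k * k ^ m := Nat.mul_le_mul_right _ h1
        _ = k ^ (m + 1) := by ring
    · rcases Nat.lt_succ_iff_lt_or_eq.1 hi with hlt | rfl
      · rw [← h i hlt]
        apply Fin.ext
        show ((e + f m * k ^ m) / k ^ i) % k = (e / k ^ i) % k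
        obtain ⟨d, rfl⟩ : ∃ d, m = i + 1 + d := ⟨m - (i + 1), by omega⟩
        have h1 : (f (i + 1 + d) : ℕ) * k ^ (i + 1 + d) = k ^ i * (k * (f (i + 1 + d) * k ^ d)) := by
          ring
        rw [h1, Nat.add_mul_div_left _ _ (pow_pos hk i), Nat.add_mul_mod_self_left]
      · apply Fin.ext
        show ((e + f i * k ^ i) / k ^ i) % k = f i
        rw [Nat.add_mul_div_right _ _ (pow_pos hk i), Nat.div_eq_of_lt he, zero_add,
          Nat.mod_eq_of_lt (f i).2]

/-- different codes have different words -/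
theorem code_inj (hk : 0 < k) : ∀ (m e e' : ℕ), e < k ^ m → e' < k ^ m →
    (∀ i < m, dig hk e i = dig hk e' i) → e = e' := by
  intro m
  induction m with
  | zero => intro e e' h h' _; simp at h h'; omega
  | succ m ih =>
    intro e e' h h' hd
    have h0 := congrArg Fin.val (hd 0 (by omega))
    simp only [dig, pow_zero, Nat.div_one] at h0
    have h1 : e / k = e' / k := by
      refine ih _ _ ?_ ?_ fun i hi => ?_
      · rw [Nat.div_lt_iff_lt_mul hk]; rwa [pow_succ] at h
      · rw [Nat.div_lt_iff_lt_mul hk]; rwa [pow_succ] at h'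
      · have h2 := congrArg Fin.val (hd (i + 1) (by omega))
        apply Fin.ext
        show (e / k / k ^ i) % k = (e' / k / k ^ i) % k
        simp only [dig] at h2
        rw [Nat.div_div_eq_div_mul, Nat.div_div_eq_div_mul]
        rwa [pow_succ, mul_comm] at h2
    rw [← Nat.div_add_mod e k, ← Nat.div_add_mod e' k, h0, h1]

theorem cyl_append (P Q : C k) : cyl (P ++ Q) = cyl P ∩ cyl Q := by
  ext z
  simp only [cyl, Set.mem_ofPred_eq, List.mem_append, Set.mem_inter_iff]
  constructor
  · intro h
    exact ⟨fun p hp => h p (Or.inl hp), fun p hp => h p (Or.inr hp)⟩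
  · rintro ⟨h1, h2⟩ p (hp | hp)
    · exact h1 p hp
    · exact h2 p hp

/-- the measure as a finite sum over words -/
theorem measure_eq (hk : 0 < k) (m : PM k) (Q : C k) (n : ℕ) (H : List (Fin k) → Prop)
    [DecidablePred H] :
    mr m (cyl Q ∩ {a | H (wd n a)}) = ∑ e ∈ Finset.range (k ^ (2 * n + 1)),
      (if H (word hk n e) then 1 else 0) * mr m (cyl (Q ++ con hk n e)) := by
  classical
  have h1 : cyl Q ∩ {a : X k | H (wd n a)} = ⋃ e ∈ (Finset.range (k ^ (2 * n + 1))).filter
      (fun e => H (word hk n e)), cyl (Q ++ con hk n e) := by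
    ext z
    simp only [Set.mem_inter_iff, Set.mem_ofPred_eq, Finset.mem_filter, Finset.mem_range,
      Set.mem_iUnion, exists_prop, cyl_append]
    constructor
    · rintro ⟨hQ, hH⟩
      obtain ⟨e, he, h⟩ := exists_code hk (fun i => z ((i : ℤ) - n)) (2 * n + 1)
      have hz : z ∈ cyl (con hk n e) := (mem_con hk n e z).2 fun i hi => (h i hi).symm
      exact ⟨e, ⟨he, by rwa [← wd_eq hk n e z hz]⟩, hQ, hz⟩
    · rintro ⟨e, ⟨_, hH⟩, hQ, hz⟩
      exact ⟨hQ, by rwa [wd_eq hk n e z hz]⟩
  unfold mr
  rw [h1, measureReal_biUnion_finset]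
  · rw [Finset.sum_filter]
    refine Finset.sum_congr rfl fun e _ => ?_
    split_ifs <;> simp
  · intro e he e' he' hne
    rw [Function.onFun, Set.disjoint_left]
    intro z hz hz'
    rw [cyl_append] at hz hz'
    simp only [Finset.coe_filter, Finset.mem_range, Set.mem_ofPred_eq] at he he'
    exact hne (code_inj hk _ _ _ he.1 he'.1 fun i hi =>
      ((mem_con hk n e z).1 hz.2 i hi).symm.trans ((mem_con hk n e' z).1 hz'.2 i hi))
  · intro e _
    exact measurable_cyl _

theorem primrec_dig (hk : 0 < k) : Primrec₂ (dig hk) := by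
  refine Primrec.fin_val_iff.1 ?_
  exact Primrec.nat_mod.comp (Primrec.nat_div.comp Primrec.fst
    (primrec_pow.comp (Primrec.const k) Primrec.snd)) (Primrec.const k)

theorem primrec_len : Primrec fun n : ℕ => 2 * n + 1 :=
  Primrec.succ.comp (Primrec.nat_mul.comp (Primrec.const 2) Primrec.id)

theorem primrec_word (hk : 0 < k) : Primrec₂ (word hk) := by
  refine Primrec.list_map (Primrec.list_range.comp (primrec_len.comp Primrec.fst)) ?_
  exact ((primrec_dig hk).comp (Primrec.snd.comp Primrec.fst) Primrec.snd).to₂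

theorem primrec_con (hk : 0 < k) : Primrec₂ (con hk) := by
  refine Primrec.list_map (Primrec.list_range.comp (primrec_len.comp Primrec.fst)) ?_
  exact ((primrec_int_sub.comp (primrec_natCast.comp Primrec.snd)
    (primrec_natCast.comp (Primrec.fst.comp Primrec.fst))).pair
    ((primrec_dig hk).comp (Primrec.snd.comp Primrec.fst) Primrec.snd)).to₂

end I_MEASW

open I_MEASW

theorem MEASW_pf : S_MEASW := by
  classical
  intro S hS k β _ m H hm hH
  rcases Nat.eq_zero_or_pos k with rfl | hk
  · -- no measures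
    have hβ : IsEmpty β := ⟨fun b => by
      have : IsEmpty (X 0) := ⟨fun z => (z 0).elim0⟩
      have h1 : ((m b : Measure (X 0)) Set.univ) = 1 := measure_univ
      rw [Set.eq_empty_of_isEmpty (Set.univ : Set (X 0)), measure_empty] at h1
      exact zero_ne_one h1⟩
    exact (Ar.const hS False).congr fun p => (hβ.false p.1.1).elim
  · have h1 : ArR S fun p : β × ℕ × C k => ∑ e ∈ Finset.range (k ^ (2 * p.2.1 + 1)),
        (if H p.1 (word hk p.2.1 e) then (1 : ℝ) else 0) *
          mr (m p.1) (cyl (p.2.2 ++ con hk p.2.1 e)) := by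
      refine ArR.sum hS (f := fun (p : β × ℕ × C k) e =>
        (if H p.1 (word hk p.2.1 e) then (1 : ℝ) else 0) *
          mr (m p.1) (cyl (p.2.2 ++ con hk p.2.1 e))) ?_ ?_ ?_
      · refine ArR.mul hS ?_ ?_ ?_ ?_
        · refine ArR.ind hS (P := fun q : (β × ℕ × C k) × ℕ => H q.1.1 (word hk q.1.2.1 q.2)) ?_
          exact Ar.comp hS hH (f := fun q : (β × ℕ × C k) × ℕ => (q.1.1, word hk q.1.2.1 q.2))
            ((Primrec.fst.comp Primrec.fst).pair ((primrec_word hk).comp
              (Primrec.fst.comp (Primrec.snd.comp Primrec.fst)) Primrec.snd))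
        · refine ArR.comp hS (f := fun p : β × C k => mr (m p.1) (cyl p.2)) hm
            (g := fun q : (β × ℕ × C k) × ℕ => (q.1.1, q.1.2.2 ++ con hk q.1.2.1 q.2)) ?_
          exact (Primrec.fst.comp Primrec.fst).pair (Primrec.list_append.comp
            (Primrec.snd.comp (Primrec.snd.comp Primrec.fst)) ((primrec_con hk).comp
              (Primrec.fst.comp (Primrec.snd.comp Primrec.fst)) Primrec.snd))
        · intro q; split_ifs <;> norm_num
        · intro q; exact measureReal_nonneg
      · intro p e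
        refine mul_nonneg ?_ measureReal_nonneg
        split_ifs <;> norm_num
      · exact ArF.of_primrec hS (primrec_pow.comp (Primrec.const k)
          (primrec_len.comp (Primrec.fst.comp Primrec.snd)))
    refine h1.congr fun p => ?_
    exact measure_eq hk (m p.1) p.2.2 p.2.1 (H p.1)

end Pool.Agent.Work.MP_69fea5_lc.HK
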