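import Pool.Agent.Work.MP_69fea5_lc.HK.Inst
import Pool.Agent.Work.MP_69fea5_lc.HK.I_MEASW

/-!
Block [69fea5 HK]: the laws for the space of probability measures.
-/

set_option autoImplicit false

open Filter Topology MeasureTheory

namespace Pool.Agent.Work.MP_69fea5_lc.HK

variable {k : ℕ}

theorem isClopen_cyl (P : C k) : IsClopen (cyl P) := by
  have : cyl P = ⋂ p ∈ P.toFinset, {z : X k | z p.1 = p.2} := by
    ext z; simp [cyl]
  rw [this]
  refine P.toFinset.finite_toSet.isClopen_biInter fun p _ => ?_
  exact (isClopen_discrete {p.2}).preimage (continuous_apply p.1)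

theorem mr_nonneg (m : PM k) (A : Set (X k)) : 0 ≤ mr m A := measureReal_nonneg

theorem mr_eq (m : PM k) (A : Set (X k)) : mr m A = ((m A : NNReal) : ℝ) := rfl

theorem mr_act (n : ℤ) (m : PM k) {A : Set (X k)} (hA : MeasurableSet A) :
    mr (act n m) A = mr m ((act n : X k → X k) ⁻¹' A) := by
  unfold mr
  exact map_measureReal_apply (continuous_actX n).measurable hA

theorem continuous_mr {A : Set (X k)} (hA : IsClopen A) : Continuous fun m : PM k => mr m A := by
  rw [continuous_iff_continuousAt]
  intro m
  have h := ProbabilityMeasure.tendsto_measure_of_null_frontier_of_tendsto (Ω := X k)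
    (L := 𝓝 m) (μ := m) (μs := fun m' => m') tendsto_id (E := A) (by simp [hA.frontier_eq])
  exact (NNReal.continuous_coe.tendsto _).comp h

theorem continuous_mr_cyl (P : C k) : Continuous fun m : PM k => mr m (cyl P) :=
  continuous_mr (isClopen_cyl P)

/-- the constraints shifted by `n` -/
def shC (n : ℤ) (P : C k) : C k := P.map fun p => (p.1 + n, p.2)

theorem preimage_cyl (n : ℤ) (P : C k) : (act n : X k → X k) ⁻¹' cyl P = cyl (shC n P) := by
  ext z
  simp only [Set.mem_preimage, cyl, shC, Set.mem_ofPred_eq, List.mem_map]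
  constructor
  · rintro h q ⟨p, hp, rfl⟩
    exact h p hp
  · intro h p hp
    exact h _ ⟨p, hp, rfl⟩

theorem mr_act_cyl (n : ℤ) (m : PM k) (P : C k) : mr (act n m) (cyl P) = mr m (cyl (shC n P)) := by
  rw [mr_act n m (I_MEASW.measurable_cyl P), preimage_cyl]

/-- measures are determined by cylinders -/
theorem pm_ext {m m' : PM k} (h : ∀ P : C k, mr m (cyl P) = mr m' (cyl P)) : m = m' := by
  apply Subtype.ext
  have : IsFiniteMeasure (m : Measure (X k)) := inferInstance
  refine ext_of_generate_finite (μ := (m : Measure (X k))) (ν := (m' : Measure (X k)))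
    (Set.range (cyl (k := k))) ?_ ?_ ?_ ?_
  · refine le_antisymm ?_ ?_
    · refine iSup_le fun t => ?_
      rw [← measurable_iff_comap_le]
      refine @measurable_to_countable' _ _ _ _ (MeasurableSpace.generateFrom _) _ fun a => ?_
      refine MeasurableSpace.measurableSet_generateFrom ⟨[(t, a)], ?_⟩
      ext z
      simp [cyl]
    · refine MeasurableSpace.generateFrom_le ?_
      rintro _ ⟨P, rfl⟩
      exact I_MEASW.measurable_cyl P
  · rintro _ ⟨P, rfl⟩ _ ⟨Q, rfl⟩ _
    exact ⟨P ++ Q, I_MEASW.cyl_append P Q⟩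
  · rintro _ ⟨P, rfl⟩
    have := h P
    unfold mr at this
    exact (measureReal_eq_measureReal_iff (measure_ne_top _ _) (measure_ne_top _ _)).1 this
  · rw [measure_univ, measure_univ]

/-- neighbourhoods in terms of cylinders -/
theorem isInducing_mr : IsInducing fun (m : PM k) (P : C k) => mr m (cyl P) :=
  (Continuous.isClosedEmbedding (continuous_pi fun P => continuous_mr_cyl P)
    (fun _ _ h => pm_ext fun P => congrFun h P)).isInducing

instance lawPM (k : ℕ) : Law (PM k) where
  act_zero m := by
    apply Subtype.ext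
    have : (act (0 : ℤ) : X k → X k) = id := funext fun z => Law.act_zero z
    change Measure.map (act (0 : ℤ) : X k → X k) (m : Measure (X k)) = m
    rw [this, Measure.map_id]
  act_add a b m := by
    apply Subtype.ext
    change Measure.map (act (a + b) : X k → X k) (m : Measure (X k)) =
      Measure.map (act a : X k → X k) (Measure.map (act b : X k → X k) (m : Measure (X k)))
    rw [Measure.map_map (continuous_actX a).measurable (continuous_actX b).measurable]
    congr 1
    exact funext fun z => Law.act_add a b z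
  cont n := ProbabilityMeasure.continuous_map (continuous_actX n)
  near_open L := by
    have e : {p : PM k × PM k | near L p.1 p.2} = ⋂ P ∈ cle' (C k) L,
        {p : PM k × PM k | |mr p.1 (cyl P) - mr p.2 (cyl P)| < 1 / ((L : ℝ) + 1)} := by
      ext p
      simp only [near, Set.mem_ofPred_eq, Set.mem_iInter, mem_cle']
    rw [e]
    exact isOpen_biInter_finset fun P _ => isOpen_lt
      (((continuous_mr_cyl P).comp continuous_fst).sub
        ((continuous_mr_cyl P).comp continuous_snd)).abs continuous_const
  near_refl L m P _ := by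
    simp only [sub_self, abs_zero]
    positivity
  near_symm L m m' h P hP := by
    rw [abs_sub_comm]
    exact h P hP
  near_tri L m m' m'' h h' P hP := real_near_tri (h P (by omega)) (h' P (by omega))
  near_mono L L' m m' hL h P hP := real_near_mono hL (h P (hP.trans hL))
  near_lim L p hp P hP := by
    apply real_near_lim
    have hcl : IsClosed {q : PM k × PM k |
        |mr q.1 (cyl P) - mr q.2 (cyl P)| ≤ 1 / ((L + 1 : ℕ) + 1 : ℝ)} :=
      isClosed_le (((continuous_mr_cyl P).comp continuous_fst).sub
        ((continuous_mr_cyl P).comp continuous_snd)).abs continuous_const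
    refine closure_minimal ?_ hcl hp
    intro q hq
    exact (hq P (hP.trans (by omega))).le
  near_basis m U hU := by
    rw [isInducing_mr.nhds_eq_comap, Filter.mem_comap] at hU
    obtain ⟨W, hW, hWU⟩ := hU
    rw [nhds_pi, Filter.mem_pi] at hW
    obtain ⟨J, hJ, s, hs, hsub⟩ := hW
    have h3 : ∀ P : C k, ∃ L : ℕ, ∀ r : ℝ,
        |mr m (cyl P) - r| < 1 / ((L : ℝ) + 1) → r ∈ s P := by
      intro P
      obtain ⟨ε, hε, hball⟩ := Metric.mem_nhds_iff.1 (hs P)
      obtain ⟨L, hL⟩ := exists_nat_one_div_lt hε
      refine ⟨L, fun r hr => hball ?_⟩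
      rw [Metric.mem_ball, dist_comm]
      exact hr.trans hL
    choose f hf using h3
    refine ⟨hJ.toFinset.sup fun P => max (f P) (Encodable.encode P), fun m' hm' =>
      hWU (hsub fun P hP => ?_)⟩
    have h4 := Finset.le_sup (f := fun P => max (f P) (Encodable.encode P))
      (hJ.mem_toFinset.2 hP)
    have h5 : f P ≤ hJ.toFinset.sup fun P => max (f P) (Encodable.encode P) :=
      (le_max_left _ _).trans h4
    have h6 : Encodable.encode P ≤ hJ.toFinset.sup fun P => max (f P) (Encodable.encode P) :=
      (le_max_right _ _).trans h4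
    exact hf P _ (real_near_mono h5 (hm' P h6))

theorem primrec_shC : Primrec₂ (shC (k := k)) := by
  refine Primrec.list_map Primrec.snd ?_
  exact ((primrec_int_add.comp (Primrec.fst.comp Primrec.snd) (Primrec.fst.comp Primrec.fst)).pair
    (Primrec.snd.comp Primrec.snd)).to₂

instance lawCPM (k : ℕ) : LawC (PM k) where
  sc_comp S β γ _ _ w f hS hw hf := by
    exact ArR.sub hS (f := fun p : β × C k => mr (w p.1) (cyl p.2)) hw
      (g := fun q : γ × C k => (f q.1, q.2)) ((hf.comp hS (ArF.fst hS)).pair hS (ArF.snd hS))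
  sc_act S β _ w hS hw := by
    have h := ArR.comp hS (f := fun p : β × C k => mr (w p.1) (cyl p.2)) hw
      (g := fun q : (β × ℤ) × C k => (q.1.1, shC q.1.2 q.2))
      ((Primrec.fst.comp Primrec.fst).pair
        (primrec_shC.comp (Primrec.snd.comp Primrec.fst) Primrec.snd))
    exact h.congr fun q => mr_act_cyl _ _ _
  sc_lim S U β _ w x hS hU hw hx := by
    refine ArR.lim hS hU (f := fun (p : β × C k) n => mr (w (p.1, n)) (cyl p.2)) ?_ ?_ ?_
    · exact ArR.comp hS (f := fun p : (β × ℕ) × C k => mr (w p.1) (cyl p.2)) hw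
        (g := fun q : (β × C k) × ℕ => ((q.1.1, q.2), q.1.2))
        (((Primrec.fst.comp Primrec.fst).pair Primrec.snd).pair (Primrec.snd.comp Primrec.fst))
    · intro p n; exact mr_nonneg _ _
    · intro p
      exact ((continuous_mr_cyl p.2).tendsto (x p.1)).comp (hx p.1)
  sc_near S β _ w w' hS hw hw' := by
    refine Ar.congr (R := fun p : ℕ × β => ∀ P : C k, Encodable.encode P ≤ p.1 →
      |mr (w p.2) (cyl P) - mr (w' p.2) (cyl P)| < 1 / ((p.1 : ℝ) + 1)) ?_ fun p => Iff.rfl
    refine Ar.all hS (R := fun (p : ℕ × β) (P : C k) => Encodable.encode P ≤ p.1 →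
      |mr (w p.2) (cyl P) - mr (w' p.2) (cyl P)| < 1 / ((p.1 : ℝ) + 1)) ?_
    refine Ar.imp hS ?_ ?_
    · exact Ar.le hS (ArF.of_primrec hS (Primrec.encode.comp Primrec.snd))
        (ArF.of_primrec hS (Primrec.fst.comp Primrec.fst))
    · refine ArR.rlt hS ?_ ?_ fun _ => abs_nonneg _
      · refine ArR.absd hS ?_ ?_ (fun _ => mr_nonneg _ _) fun _ => mr_nonneg _ _
        · exact ArR.comp hS (f := fun p : β × C k => mr (w p.1) (cyl p.2)) hw
            (g := fun q : (ℕ × β) × C k => (q.1.2, q.2))
            ((Primrec.snd.comp Primrec.fst).pair Primrec.snd)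
        · exact ArR.comp hS (f := fun p : β × C k => mr (w' p.1) (cyl p.2)) hw'
            (g := fun q : (ℕ × β) × C k => (q.1.2, q.2))
            ((Primrec.snd.comp Primrec.fst).pair Primrec.snd)
      · exact (ArR.rat hS (u := fun _ : (ℕ × β) × C k => 1) (v := fun q => q.1.1)
          (ArF.const hS 1) (ArF.of_primrec hS (Primrec.fst.comp Primrec.fst))).congr
          fun q => by simp

end Pool.Agent.Work.MP_69fea5_lc.HK
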