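import Pool.Agent.Work.MP_69fea5_lc.HK.Defs

/-!
Calculus of relations in a family closed under arithmetical operations.
-/

set_option autoImplicit false

open Filter Topology MeasureTheory

namespace Pool.Agent.Work.MP_69fea5_lc.HK

open Encodable

variable {S : Set (Set ℕ)}
variable {α β γ δ σ : Type*} [Primcodable α] [Primcodable β] [Primcodable γ] [Primcodable δ]
  [Primcodable σ]

/-- the codes of elements of `α` -/
def dom (α : Type*) [Primcodable α] : Set ℕ := {n | ∃ a : α, decode n = some a}

theorem Cl.dom (hS : Cl S) (α : Type*) [Primcodable α] : dom α ∈ S := by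
  have h : HK.dom α = ((fun n => encode (decode (α := α) n)) ⁻¹' {0})ᶜ := by
    ext n
    simp only [HK.dom, Set.mem_ofPred_eq, Set.mem_compl_iff, Set.mem_preimage,
      Set.mem_singleton_iff]
    cases h : decode (α := α) n with
    | none => simp
    | some a => simp
  rw [h]
  exact hS.compl _ (hS.preim _ hS.zero _ (Primcodable.prim α))

/-- the set of codes of a relation -/
def cod (R : α → Prop) : Set ℕ := {n | ∃ a, decode n = some a ∧ R a}

theorem Ar.def' {R : α → Prop} : Ar S R ↔ cod R ∈ S := Iff.rfl

theorem mem_cod {R : α → Prop} {n : ℕ} : n ∈ cod R ↔ ∃ a, decode n = some a ∧ R a := Iff.rfl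

theorem encode_mem_cod {R : α → Prop} {a : α} : encode a ∈ cod R ↔ R a := by
  simp [mem_cod]

theorem Ar.congr {R R' : α → Prop} (h : Ar S R) (e : ∀ a, R' a ↔ R a) : Ar S R' := by
  have : R' = R := funext fun a => propext (e a)
  rw [this]
  exact h

theorem Ar.not (hS : Cl S) {R : α → Prop} (h : Ar S R) : Ar S fun a => ¬ R a := by
  have e : cod (fun a => ¬ R a) = dom α ∩ (cod R)ᶜ := by
    ext n
    simp only [mem_cod, Set.mem_inter_iff, dom, Set.mem_ofPred_eq, Set.mem_compl_iff]
    constructor
    · rintro ⟨a, ha, hR⟩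
      refine ⟨⟨a, ha⟩, ?_⟩
      rintro ⟨b, hb, hRb⟩
      rw [ha] at hb
      cases hb
      exact hR hRb
    · rintro ⟨⟨a, ha⟩, hR⟩
      exact ⟨a, ha, fun h => hR ⟨a, ha, h⟩⟩
  rw [Ar.def', e]
  exact hS.inter _ (hS.dom α) _ (hS.compl _ h)

theorem Ar.and (hS : Cl S) {R R' : α → Prop} (h : Ar S R) (h' : Ar S R') :
    Ar S fun a => R a ∧ R' a := by
  have e : cod (fun a => R a ∧ R' a) = cod R ∩ cod R' := by
    ext n
    simp only [mem_cod, Set.mem_inter_iff]
    constructor
    · rintro ⟨a, ha, hR, hR'⟩
      exact ⟨⟨a, ha, hR⟩, ⟨a, ha, hR'⟩⟩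
    · rintro ⟨⟨a, ha, hR⟩, ⟨b, hb, hR'⟩⟩
      rw [ha] at hb
      cases hb
      exact ⟨a, ha, hR, hR'⟩
  rw [Ar.def', e]
  exact hS.inter _ h _ h'

theorem Ar.or (hS : Cl S) {R R' : α → Prop} (h : Ar S R) (h' : Ar S R') :
    Ar S fun a => R a ∨ R' a :=
  (((h.not hS).and hS (h'.not hS)).not hS).congr fun a => by tauto

theorem Ar.imp (hS : Cl S) {R R' : α → Prop} (h : Ar S R) (h' : Ar S R') :
    Ar S fun a => R a → R' a :=
  ((h.and hS (h'.not hS)).not hS).congr fun a => by tauto

theorem Ar.iff (hS : Cl S) {R R' : α → Prop} (h : Ar S R) (h' : Ar S R') :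
    Ar S fun a => (R a ↔ R' a) :=
  ((h.imp hS h').and hS (h'.imp hS h)).congr fun a => by tauto

/-- composition with a primitive recursive function -/
theorem Ar.comp (hS : Cl S) {R : α → Prop} (h : Ar S R) {f : β → α} (hf : Primrec f) :
    Ar S fun b => R (f b) := by
  have e : cod (fun b => R (f b)) = dom β ∩
      (fun n => Nat.pred (encode ((decode (α := β) n).map f))) ⁻¹' (cod R) := by
    ext n
    simp only [mem_cod, Set.mem_inter_iff, dom, Set.mem_ofPred_eq, Set.mem_preimage]
    constructor
    · rintro ⟨b, hb, hR⟩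
      refine ⟨⟨b, hb⟩, f b, ?_, hR⟩
      rw [hb]
      simp
    · rintro ⟨⟨b, hb⟩, a, ha, hR⟩
      refine ⟨b, hb, ?_⟩
      rw [hb] at ha
      simp only [Option.map_some, encode_some, Nat.pred_eq_sub_one, Nat.succ_eq_add_one,
        Nat.add_sub_cancel, encodek, Option.some.injEq] at ha
      rw [ha]
      exact hR
  rw [Ar.def', e]
  refine hS.inter _ (hS.dom β) _ (hS.preim _ h _ ?_)
  exact Nat.Primrec.pred.comp hf

theorem Ar.ex (hS : Cl S) {R : α → β → Prop} (h : Ar S fun p : α × β => R p.1 p.2) :
    Ar S fun a => ∃ b, R a b := by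
  have e : cod (fun a => ∃ b, R a b) =
      {n | ∃ m, Nat.pair n m ∈ cod fun p : α × β => R p.1 p.2} := by
    ext n
    simp only [mem_cod, Set.mem_ofPred_eq]
    constructor
    · rintro ⟨a, ha, b, hR⟩
      refine ⟨encode b, (a, b), ?_, hR⟩
      rw [decode_prod_val]
      simp [ha]
    · rintro ⟨m, ⟨a, b⟩, hp, hR⟩
      rw [decode_prod_val] at hp
      simp only [Nat.unpair_pair] at hp
      cases ha : decode (α := α) n with
      | none => simp [ha] at hp
      | some a' =>
        cases hb : decode (α := β) m with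
        | none => simp [ha, hb] at hp
        | some b' =>
          simp only [ha, hb, Option.bind_some, Option.map_some, Option.some.injEq,
            Prod.mk.injEq] at hp
          obtain ⟨rfl, rfl⟩ := hp
          exact ⟨a', rfl, b', hR⟩
  rw [Ar.def', e]
  exact hS.proj _ h

theorem Ar.all (hS : Cl S) {R : α → β → Prop} (h : Ar S fun p : α × β => R p.1 p.2) :
    Ar S fun a => ∀ b, R a b :=
  ((Ar.ex hS (R := fun a b => ¬ R a b) (h.not hS)).not hS).congr fun a => by simp

/-- primitive recursive relations -/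
theorem Ar.prim (hS : Cl S) {R : α → Prop} (h : PrimrecPred R) : Ar S R := by
  classical
  have h0 : Ar S fun n : ℕ => n = 0 := by
    have e : cod (fun n : ℕ => n = 0) = {0} := by
      ext n
      simp [mem_cod]
    rw [Ar.def', e]
    exact hS.zero
  have h1 : Primrec fun a => if R a then 0 else 1 :=
    Primrec.ite h (Primrec.const 0) (Primrec.const 1)
  exact (h0.comp hS h1).congr fun a => by
    by_cases ha : R a <;> simp [ha]

theorem Ar.const (hS : Cl S) (p : Prop) : Ar S fun _ : α => p := by
  classical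
  by_cases hp : p
  · exact (Ar.prim hS (R := fun _ : α => (0 : ℕ) = 0)
      (PrimrecRel.comp Primrec.eq (Primrec.const 0) (Primrec.const 0))).congr fun a => by simp [hp]
  · exact (Ar.prim hS (R := fun _ : α => (0 : ℕ) = 1)
      (PrimrecRel.comp Primrec.eq (Primrec.const 0) (Primrec.const 1))).congr fun a => by simp [hp]

/-- membership in a set of the family -/
theorem Ar.mem (hS : Cl S) {A : Set ℕ} (hA : A ∈ S) {f : α → ℕ} (hf : Primrec f) :
    Ar S fun a => f a ∈ A := by
  have h0 : Ar S fun n : ℕ => n ∈ A := by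
    have e : cod (fun n : ℕ => n ∈ A) = A := by
      ext n
      simp [mem_cod]
    rw [Ar.def', e]
    exact hA
  exact h0.comp hS hf

/-- comprehension -/
theorem Ar.set {R : ℕ → Prop} (h : Ar S R) : {n | R n} ∈ S := by
  have e : cod R = {n | R n} := by
    ext n
    simp [mem_cod]
  rw [← e]
  exact h

theorem Ar.set_iff {R : ℕ → Prop} : Ar S R ↔ {n | R n} ∈ S := by
  have e : cod R = {n | R n} := by
    ext n
    simp [mem_cod]
  rw [← e]
  exact Iff.rfl

/-- the set of codes of a relation in the family -/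
theorem Ar.of_encode (hS : Cl S) {R : α → Prop} (h : {n | ∃ a, encode a = n ∧ R a} ∈ S) :
    Ar S R :=
  (Ar.mem hS h (f := fun a : α => encode a) Primrec.encode).congr fun a => by
    simp

/-! ### functions -/

theorem ArF.of_primrec (hS : Cl S) {f : α → β} (hf : Primrec f) : ArF S f := by
  classical
  exact Ar.prim hS (R := fun p : α × β => f p.1 = p.2)
    (PrimrecRel.comp Primrec.eq (hf.comp Primrec.fst) Primrec.snd)

theorem ArF.congr {f f' : α → β} (h : ArF S f) (e : ∀ a, f' a = f a) : ArF S f' := by
  have : f' = f := funext e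
  rw [this]
  exact h

/-- substitution of a function of the family -/
theorem Ar.sub (hS : Cl S) {R : β → Prop} (h : Ar S R) {f : α → β} (hf : ArF S f) :
    Ar S fun a => R (f a) :=
  (Ar.ex hS (R := fun a b => f a = b ∧ R b)
    (Ar.and hS hf (h.comp hS Primrec.snd))).congr fun a => by simp

theorem ArF.comp (hS : Cl S) {g : β → γ} (hg : ArF S g) {f : α → β} (hf : ArF S f) :
    ArF S fun a => g (f a) :=
  (Ar.ex hS (R := fun (p : α × γ) b => f p.1 = b ∧ g b = p.2)
    (Ar.and hS (Ar.comp hS hf (f := fun q : (α × γ) × β => (q.1.1, q.2))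
      ((Primrec.fst.comp Primrec.fst).pair Primrec.snd))
      (Ar.comp hS hg (f := fun q : (α × γ) × β => (q.2, q.1.2))
      (Primrec.snd.pair (Primrec.snd.comp Primrec.fst))))).congr fun a => by simp

theorem ArF.pair (hS : Cl S) {f : α → β} (hf : ArF S f) {g : α → γ} (hg : ArF S g) :
    ArF S fun a => (f a, g a) :=
  (Ar.and hS (Ar.comp hS hf (f := fun q : α × β × γ => (q.1, q.2.1))
      (Primrec.fst.pair (Primrec.fst.comp Primrec.snd)))
      (Ar.comp hS hg (f := fun q : α × β × γ => (q.1, q.2.2))
      (Primrec.fst.pair (Primrec.snd.comp Primrec.snd)))).congr fun a => by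
        simp [Prod.ext_iff]

theorem ArF.const (hS : Cl S) (b : β) : ArF S fun _ : α => b :=
  ArF.of_primrec hS (Primrec.const b)

theorem ArF.id (hS : Cl S) : ArF S fun a : α => a := ArF.of_primrec hS Primrec.id

theorem ArF.fst (hS : Cl S) : ArF S fun p : α × β => p.1 := ArF.of_primrec hS Primrec.fst

theorem ArF.snd (hS : Cl S) : ArF S fun p : α × β => p.2 := ArF.of_primrec hS Primrec.snd

/-- a primitive recursive function of a function of the family -/
theorem ArF.map (hS : Cl S) {g : β → γ} (hg : Primrec g) {f : α → β} (hf : ArF S f) :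
    ArF S fun a => g (f a) :=
  (ArF.of_primrec hS hg).comp hS hf

theorem ArF.map₂ (hS : Cl S) {g : β → γ → δ} (hg : Primrec₂ g) {f : α → β} (hf : ArF S f)
    {f' : α → γ} (hf' : ArF S f') : ArF S fun a => g (f a) (f' a) :=
  ArF.map hS (g := fun p : β × γ => g p.1 p.2) hg (hf.pair hS hf')

/-- equality of functions of the family -/
theorem Ar.eq (hS : Cl S) {f g : α → β} (hf : ArF S f) (hg : ArF S g) :
    Ar S fun a => f a = g a := by
  classical
  exact Ar.sub hS (R := fun p : β × β => p.1 = p.2) (Ar.prim hS Primrec.eq) (hf.pair hS hg)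

theorem Ar.le (hS : Cl S) {f g : α → ℕ} (hf : ArF S f) (hg : ArF S g) :
    Ar S fun a => f a ≤ g a := by
  exact Ar.sub hS (R := fun p : ℕ × ℕ => p.1 ≤ p.2) (Ar.prim hS Primrec.nat_le) (hf.pair hS hg)

theorem Ar.lt (hS : Cl S) {f g : α → ℕ} (hf : ArF S f) (hg : ArF S g) :
    Ar S fun a => f a < g a := by
  exact Ar.sub hS (R := fun p : ℕ × ℕ => p.1 < p.2) (Ar.prim hS Primrec.nat_lt) (hf.pair hS hg)

/-- bounded quantifiers -/
theorem Ar.ball (hS : Cl S) {R : α → ℕ → Prop} (h : Ar S fun p : α × ℕ => R p.1 p.2)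
    {f : α → ℕ} (hf : ArF S f) : Ar S fun a => ∀ n < f a, R a n :=
  Ar.all hS (R := fun a n => n < f a → R a n)
    (Ar.imp hS (Ar.lt hS (ArF.snd hS) (hf.comp hS (ArF.fst hS))) h)

theorem Ar.bex (hS : Cl S) {R : α → ℕ → Prop} (h : Ar S fun p : α × ℕ => R p.1 p.2)
    {f : α → ℕ} (hf : ArF S f) : Ar S fun a => ∃ n < f a, R a n :=
  Ar.ex hS (R := fun a n => n < f a ∧ R a n)
    (Ar.and hS (Ar.lt hS (ArF.snd hS) (hf.comp hS (ArF.fst hS))) h)

/-- definition by cases -/
theorem ArF.ite (hS : Cl S) {P : α → Prop} [DecidablePred P] (hP : Ar S P) {f g : α → β}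
    (hf : ArF S f) (hg : ArF S g) : ArF S fun a => if P a then f a else g a :=
  ((Ar.and hS (hP.comp hS Primrec.fst) hf).or hS
    (Ar.and hS ((hP.not hS).comp hS Primrec.fst) hg)).congr fun p => by
      by_cases h : P p.1 <;> simp [h]

/-- a function whose graph is in the family -/
theorem ArF.of_exists {f : α → β} {R : α → β → Prop}
    (hR : Ar S fun p : α × β => R p.1 p.2) (h : ∀ a b, f a = b ↔ R a b) : ArF S f :=
  hR.congr fun p => h p.1 p.2

/-- least witnesses -/
theorem ArF.find (hS : Cl S) {R : α → ℕ → Prop} [∀ a, DecidablePred (R a)]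
    (hR : Ar S fun p : α × ℕ => R p.1 p.2) (h : ∀ a, ∃ n, R a n) :
    ArF S fun a => Nat.find (h a) := by
  refine ArF.of_exists (R := fun a n => R a n ∧ ∀ m < n, ¬ R a m) ?_ ?_
  · refine Ar.and hS hR ?_
    refine Ar.ball hS (R := fun (p : α × ℕ) m => ¬ R p.1 m) ?_ (ArF.snd hS)
    exact ((hR.comp hS (f := fun q : (α × ℕ) × ℕ => (q.1.1, q.2))
      ((Primrec.fst.comp Primrec.fst).pair Primrec.snd))).not hS
  · intro a n
    rw [Nat.find_eq_iff]

/-- the ultrafilter quantifier -/
theorem Ar.ev {U : Ultrafilter ℕ} (hU : DU S U) {R : α → ℕ → Prop}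
    (h : Ar S fun p : α × ℕ => R p.1 p.2) : Ar S fun a => ∀ᶠ x in (U : Filter ℕ), R a x := by
  have e : cod (fun a => ∀ᶠ x in (U : Filter ℕ), R a x) =
      {n | {x | Nat.pair n x ∈ cod fun p : α × ℕ => R p.1 p.2} ∈ U} := by
    ext n
    simp only [mem_cod, Set.mem_ofPred_eq]
    have h1 : ∀ x, (∃ p : α × ℕ, decode (Nat.pair n x) = some p ∧ R p.1 p.2) ↔
        ∃ a, decode (α := α) n = some a ∧ R a x := by
      intro x
      rw [decode_prod_val]
      simp only [Nat.unpair_pair]
      cases ha : decode (α := α) n with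
      | none => simp
      | some a => simp
    simp only [h1]
    constructor
    · rintro ⟨a, ha, hR⟩
      refine Filter.mem_of_superset hR fun x hx => ?_
      exact ⟨a, ha, hx⟩
    · intro hR
      cases ha : decode (α := α) n with
      | none =>
        exfalso
        simp only [ha] at hR
        have : {x : ℕ | ∃ a : α, none = some a ∧ R a x} = ∅ := by
          ext x
          simp
        rw [this] at hR
        exact Ultrafilter.empty_notMem hR
      | some a =>
        refine ⟨a, rfl, ?_⟩
        refine Filter.mem_of_superset hR fun x hx => ?_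
        obtain ⟨a', ha', hx'⟩ := hx
        rw [ha] at ha'
        cases ha'
        exact hx'
  rw [Ar.def', e]
  exact hU.dfn _ h

/-! ### recursion -/

/-- course of values recursion on lists: `l` is a list of length `n` of the first `n` values -/
theorem ArF.cov (hS : Cl S) {G : α → List β → β} (hG : ArF S fun p : α × List β => G p.1 p.2)
    {f : α → ℕ → β} (hf : ∀ a n, f a n = G a ((List.range n).map (f a))) :
    ArF S fun p : α × ℕ => f p.1 p.2 := by
  classical
  -- the list of the first values
  have key : ∀ (a : α) (n : ℕ) (l : List β), (l.length = n ∧ ∀ i < n, ∀ b, l[i]? = some b →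
      b = G a (l.take i)) ↔ l = (List.range n).map (f a) := by
    intro a n l
    constructor
    · rintro ⟨hl, h⟩
      have h1 : ∀ i, i ≤ n → l.take i = (List.range i).map (f a) := by
        intro i
        induction i with
        | zero => intro _; simp
        | succ i ih =>
          intro hi
          have hi' : i < l.length := by omega
          rw [List.take_add_one, ih (by omega), List.range_succ, List.map_append]
          congr 1
          have h2 : l[i]? = some l[i] := List.getElem?_eq_getElem hi'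
          have h3 := h i (by omega) l[i] h2
          rw [h2, h3, ih (by omega), ← hf]
          simp
      have := h1 n le_rfl
      rwa [List.take_of_length_le (by omega)] at this
    · rintro rfl
      refine ⟨by simp, fun i hi b hb => ?_⟩
      rw [List.getElem?_map, List.getElem?_range hi] at hb
      simp only [Option.map_some, Option.some.injEq] at hb
      rw [← hb, hf, ← List.map_take, List.take_range]
      congr 3
      omega
  have hl : Ar S fun p : (α × ℕ) × List β => p.2 = (List.range p.1.2).map (f p.1.1) := by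
    refine Ar.congr (R := fun p : (α × ℕ) × List β => p.2.length = p.1.2 ∧ ∀ i < p.1.2,
      ∀ b, p.2[i]? = some b → b = G p.1.1 (p.2.take i)) ?_ fun p => (key _ _ _).symm
    refine Ar.and hS ?_ ?_
    · exact Ar.eq hS (ArF.of_primrec hS (Primrec.list_length.comp Primrec.snd))
        (ArF.of_primrec hS (Primrec.snd.comp Primrec.fst))
    · refine Ar.ball hS (R := fun (p : (α × ℕ) × List β) i => ∀ b, p.2[i]? = some b →
        b = G p.1.1 (p.2.take i)) ?_ (ArF.of_primrec hS (Primrec.snd.comp Primrec.fst))
      refine Ar.all hS (R := fun (q : ((α × ℕ) × List β) × ℕ) b => q.1.2[q.2]? = some b →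
        b = G q.1.1.1 (q.1.2.take q.2)) ?_
      refine Ar.imp hS ?_ ?_
      · refine Ar.eq hS (ArF.of_primrec hS ?_) (ArF.of_primrec hS ?_)
        · exact Primrec.list_getElem?.comp
            (Primrec.snd.comp (Primrec.fst.comp Primrec.fst)) (Primrec.snd.comp Primrec.fst)
        · exact Primrec.option_some.comp Primrec.snd
      · refine Ar.eq hS (ArF.snd hS) ?_
        refine hG.comp hS (f := fun q : (((α × ℕ) × List β) × ℕ) × β =>
          (q.1.1.1.1, q.1.1.2.take q.1.2)) (ArF.of_primrec hS ?_)
        refine (Primrec.fst.comp (Primrec.fst.comp (Primrec.fst.comp Primrec.fst))).pair ?_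
        exact Primrec.list_take.comp (Primrec.snd.comp Primrec.fst)
          (Primrec.snd.comp (Primrec.fst.comp Primrec.fst))
  refine ArF.of_exists (R := fun p b => ∃ l, l = (List.range p.2).map (f p.1) ∧ G p.1 l = b)
    ?_ ?_
  · refine Ar.ex hS (R := fun (q : (α × ℕ) × β) l => l = (List.range q.1.2).map (f q.1.1) ∧
      G q.1.1 l = q.2) ?_
    refine Ar.and hS ?_ ?_
    · exact hl.comp hS (f := fun q : ((α × ℕ) × β) × List β => (q.1.1, q.2))
        ((Primrec.fst.comp Primrec.fst).pair Primrec.snd)
    · refine Ar.eq hS ?_ (ArF.of_primrec hS (Primrec.snd.comp Primrec.fst))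
      exact hG.comp hS (f := fun q : ((α × ℕ) × β) × List β => (q.1.1.1, q.2))
        (ArF.of_primrec hS
          ((Primrec.fst.comp (Primrec.fst.comp Primrec.fst)).pair Primrec.snd))
  · rintro ⟨a, n⟩ b
    simp only
    rw [hf]
    simp

/-- recursion -/
theorem ArF.rec (hS : Cl S) {b : α → β} (hb : ArF S b) {G : α → ℕ → β → β}
    (hG : ArF S fun p : α × ℕ × β => G p.1 p.2.1 p.2.2)
    {f : α → ℕ → β} (h0 : ∀ a, f a 0 = b a) (hs : ∀ a n, f a (n + 1) = G a n (f a n)) :
    ArF S fun p : α × ℕ => f p.1 p.2 := by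
  classical
  -- `G'` reads the last value of the list
  refine ArF.cov hS (G := fun a l => (l.getLast?.map (G a (l.length - 1))).getD (b a)) ?_ ?_
  · refine ArF.of_exists (R := fun p v => (p.2.getLast? = none ∧ b p.1 = v) ∨
      ∃ w, p.2.getLast? = some w ∧ G p.1 (p.2.length - 1) w = v) ?_ ?_
    · have hlast : Primrec fun l : List β => l.getLast? :=
        (Primrec.list_head?.comp Primrec.list_reverse).of_eq fun l => by simp
      have hlen : Primrec fun l : List β => l.length - 1 :=
        Primrec.pred.comp Primrec.list_length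
      refine Ar.or hS ?_ ?_
      · refine Ar.and hS ?_ ?_
        · exact Ar.eq hS (ArF.of_primrec hS (hlast.comp (Primrec.snd.comp Primrec.fst)))
            (ArF.const hS _)
        · exact Ar.eq hS (hb.comp hS (f := fun q : (α × List β) × β => q.1.1)
            (ArF.of_primrec hS (Primrec.fst.comp Primrec.fst))) (ArF.snd hS)
      · refine Ar.ex hS (R := fun (q : (α × List β) × β) w => q.1.2.getLast? = some w ∧
          G q.1.1 (q.1.2.length - 1) w = q.2) ?_
        refine Ar.and hS ?_ ?_
        · exact Ar.eq hS (ArF.of_primrec hS (hlast.comp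
            (Primrec.snd.comp (Primrec.fst.comp Primrec.fst))))
            (ArF.of_primrec hS (Primrec.option_some.comp Primrec.snd))
        · refine Ar.eq hS ?_ (ArF.of_primrec hS (Primrec.snd.comp Primrec.fst))
          refine hG.comp hS (f := fun q : ((α × List β) × β) × β =>
            (q.1.1.1, q.1.1.2.length - 1, q.2)) (ArF.of_primrec hS ?_)
          exact (Primrec.fst.comp (Primrec.fst.comp Primrec.fst)).pair
            ((hlen.comp (Primrec.snd.comp (Primrec.fst.comp Primrec.fst))).pair Primrec.snd)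
    · rintro ⟨a, l⟩ v
      cases h : l.getLast? with
      | none => simp
      | some w => simp
  · intro a n
    cases n with
    | zero => simp [h0]
    | succ n => simp [List.range_succ, hs]

end Pool.Agent.Work.MP_69fea5_lc.HK
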