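import Pool.Agent.Work.MP_69fea5_lc.HK.Calc

/-!
Integers, choice, finite-valued limits, lists.
-/

set_option autoImplicit false

open Filter

namespace Pool.Agent.Work.MP_69fea5_lc.HK

open Encodable

/-! ### integers -/

theorem encode_int_nat (n : ℕ) : encode (n : ℤ) = 2 * n := by
  show Equiv.natSumNatEquivNat (Equiv.intEquivNatSumNat (n : ℤ)) = 2 * n
  rfl

theorem encode_int_negSucc (n : ℕ) : encode (Int.negSucc n) = 2 * n + 1 := by
  show Equiv.natSumNatEquivNat (Equiv.intEquivNatSumNat (Int.negSucc n)) = 2 * n + 1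
  rfl

theorem primrec_toNat : Primrec (fun z : ℤ => z.toNat) := by
  have h : Primrec (fun z : ℤ => if encode z % 2 = 0 then encode z / 2 else 0) := by
    refine Primrec.ite ?_ ?_ (Primrec.const 0)
    · exact Primrec.eq.comp (Primrec.nat_mod.comp Primrec.encode (Primrec.const 2))
        (Primrec.const 0)
    · exact Primrec.nat_div.comp Primrec.encode (Primrec.const 2)
  refine h.of_eq fun z => ?_
  cases z with
  | ofNat n =>
    have := encode_int_nat n
    simp only [Int.ofNat_eq_natCast, this]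
    rw [if_pos (by omega)]
    simp
  | negSucc n =>
    rw [encode_int_negSucc, if_neg (by omega)]
    simp

theorem primrec_negToNat : Primrec (fun z : ℤ => (-z).toNat) := by
  have h : Primrec (fun z : ℤ => if encode z % 2 = 0 then 0 else (encode z + 1) / 2) := by
    refine Primrec.ite ?_ (Primrec.const 0) ?_
    · exact Primrec.eq.comp (Primrec.nat_mod.comp Primrec.encode (Primrec.const 2))
        (Primrec.const 0)
    · exact Primrec.nat_div.comp (Primrec.nat_add.comp Primrec.encode (Primrec.const 1))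
        (Primrec.const 2)
  refine h.of_eq fun z => ?_
  cases z with
  | ofNat n =>
    have := encode_int_nat n
    simp only [Int.ofNat_eq_natCast, this]
    rw [if_pos (by omega)]
    simp
  | negSucc n =>
    rw [encode_int_negSucc, if_neg (by omega)]
    have : (-(Int.negSucc n)).toNat = n + 1 := rfl
    rw [this]
    omega

theorem primrec_ofPair : Primrec (fun p : ℕ × ℕ => (p.1 : ℤ) - p.2) := by
  rw [← Primrec.encode_iff]
  have h : Primrec (fun p : ℕ × ℕ =>
      if p.2 ≤ p.1 then 2 * (p.1 - p.2) else 2 * (p.2 - p.1 - 1) + 1) := by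
    refine Primrec.ite ?_ ?_ ?_
    · exact Primrec.nat_le.comp Primrec.snd Primrec.fst
    · exact Primrec.nat_mul.comp (Primrec.const 2) (Primrec.nat_sub.comp Primrec.fst Primrec.snd)
    · exact Primrec.nat_add.comp (Primrec.nat_mul.comp (Primrec.const 2)
        (Primrec.nat_sub.comp (Primrec.nat_sub.comp Primrec.snd Primrec.fst) (Primrec.const 1)))
        (Primrec.const 1)
  refine h.of_eq fun p => ?_
  obtain ⟨a, b⟩ := p
  simp only
  split_ifs with hab
  · have : (a : ℤ) - b = ((a - b : ℕ) : ℤ) := by omega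
    rw [this, encode_int_nat]
  · have : (a : ℤ) - b = Int.negSucc (b - a - 1) := by omega
    rw [this, encode_int_negSucc]

theorem primrec_natCast : Primrec (fun n : ℕ => (n : ℤ)) :=
  (primrec_ofPair.comp (Primrec.pair Primrec.id (Primrec.const 0))).of_eq fun n => by simp

theorem primrec_int_add : Primrec₂ (fun a b : ℤ => a + b) := by
  have h : Primrec (fun p : ℤ × ℤ => ((((p.1.toNat + p.2.toNat : ℕ)) : ℤ) -
      ((((-p.1).toNat + (-p.2).toNat : ℕ)) : ℤ))) :=
    primrec_ofPair.comp (Primrec.pair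
      (Primrec.nat_add.comp (primrec_toNat.comp Primrec.fst) (primrec_toNat.comp Primrec.snd))
      (Primrec.nat_add.comp (primrec_negToNat.comp Primrec.fst)
        (primrec_negToNat.comp Primrec.snd)))
  refine Primrec.of_eq h fun p => ?_
  obtain ⟨a, b⟩ := p
  simp only
  omega

theorem primrec_int_neg : Primrec (fun a : ℤ => -a) := by
  have h : Primrec (fun a : ℤ => (((-a).toNat : ℕ) : ℤ) - ((a.toNat : ℕ) : ℤ)) :=
    primrec_ofPair.comp (Primrec.pair primrec_negToNat primrec_toNat)
  refine Primrec.of_eq h fun a => ?_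
  omega

theorem primrec_int_sub : Primrec₂ (fun a b : ℤ => a - b) :=
  Primrec.of_eq (primrec_int_add.comp Primrec.fst (primrec_int_neg.comp Primrec.snd))
    fun p => by simp [sub_eq_add_neg]

theorem primrec_natAbs : Primrec (fun z : ℤ => z.natAbs) := by
  refine Primrec.of_eq (Primrec.nat_add.comp primrec_toNat primrec_negToNat) fun z => ?_
  omega

theorem primrec_int_le : PrimrecRel (fun a b : ℤ => a ≤ b) :=
  PrimrecPred.of_eq (p := fun p : ℤ × ℤ => (p.1 - p.2).toNat = 0)
    (Primrec.eq.comp (primrec_toNat.comp primrec_int_sub) (Primrec.const 0))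
    fun p => by simp

theorem primrec_int_lt : PrimrecRel (fun a b : ℤ => a < b) :=
  (primrec_int_le.comp Primrec.snd Primrec.fst).not.of_eq fun p => by simp

section calculus

variable {S : Set (Set ℕ)}
variable {α β γ : Type*} [Primcodable α] [Primcodable β] [Primcodable γ]

theorem ArF.intAdd (hS : Cl S) {f g : α → ℤ} (hf : ArF S f) (hg : ArF S g) :
    ArF S fun a => f a + g a := ArF.map₂ hS primrec_int_add hf hg

theorem ArF.intSub (hS : Cl S) {f g : α → ℤ} (hf : ArF S f) (hg : ArF S g) :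
    ArF S fun a => f a - g a := ArF.map₂ hS primrec_int_sub hf hg

theorem ArF.intNeg (hS : Cl S) {f : α → ℤ} (hf : ArF S f) : ArF S fun a => - f a :=
  ArF.map hS primrec_int_neg hf

theorem ArF.natCast (hS : Cl S) {f : α → ℕ} (hf : ArF S f) : ArF S fun a => (f a : ℤ) :=
  ArF.map hS primrec_natCast hf

theorem ArF.natAbs (hS : Cl S) {f : α → ℤ} (hf : ArF S f) : ArF S fun a => (f a).natAbs :=
  ArF.map hS primrec_natAbs hf

theorem ArF.toNat (hS : Cl S) {f : α → ℤ} (hf : ArF S f) : ArF S fun a => (f a).toNat :=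
  ArF.map hS primrec_toNat hf

theorem ArF.add (hS : Cl S) {f g : α → ℕ} (hf : ArF S f) (hg : ArF S g) :
    ArF S fun a => f a + g a := ArF.map₂ hS Primrec.nat_add hf hg

theorem ArF.mul (hS : Cl S) {f g : α → ℕ} (hf : ArF S f) (hg : ArF S g) :
    ArF S fun a => f a * g a := ArF.map₂ hS Primrec.nat_mul hf hg

theorem ArF.sub' (hS : Cl S) {f g : α → ℕ} (hf : ArF S f) (hg : ArF S g) :
    ArF S fun a => f a - g a := ArF.map₂ hS Primrec.nat_sub hf hg

theorem ArF.succ (hS : Cl S) {f : α → ℕ} (hf : ArF S f) : ArF S fun a => f a + 1 :=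
  ArF.map hS Primrec.succ hf

theorem Ar.intLe (hS : Cl S) {f g : α → ℤ} (hf : ArF S f) (hg : ArF S g) :
    Ar S fun a => f a ≤ g a := by
  exact Ar.sub hS (R := fun p : ℤ × ℤ => p.1 ≤ p.2) (Ar.prim hS primrec_int_le) (hf.pair hS hg)

theorem Ar.intLt (hS : Cl S) {f g : α → ℤ} (hf : ArF S f) (hg : ArF S g) :
    Ar S fun a => f a < g a := by
  exact Ar.sub hS (R := fun p : ℤ × ℤ => p.1 < p.2) (Ar.prim hS primrec_int_lt) (hf.pair hS hg)

/-! ### choice -/

/-- choice: the witness with the least code -/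
theorem Ar.choose (hS : Cl S) {R : α → β → Prop} (hR : Ar S fun p : α × β => R p.1 p.2)
    (h : ∀ a, ∃ b, R a b) : ∃ f : α → β, ArF S f ∧ ∀ a, R a (f a) := by
  classical
  have h1 : ∀ a, ∃ b, R a b ∧ ∀ b', R a b' → encode b ≤ encode b' := by
    intro a
    obtain ⟨b, hb⟩ := h a
    have hex : ∃ n, ∃ b, R a b ∧ encode b = n := ⟨_, b, hb, rfl⟩
    obtain ⟨b₀, h2, h3⟩ := Nat.find_spec hex
    refine ⟨b₀, h2, fun b' hb' => ?_⟩
    rw [h3]
    exact Nat.find_min' hex ⟨b', hb', rfl⟩
  choose f hf1 hf2 using h1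
  refine ⟨f, ArF.of_exists (R := fun a b => R a b ∧ ∀ b', R a b' → encode b ≤ encode b') ?_ ?_,
    hf1⟩
  · refine Ar.and hS hR ?_
    refine Ar.all hS (R := fun (p : α × β) b' => R p.1 b' → encode p.2 ≤ encode b') ?_
    refine Ar.imp hS (hR.comp hS (f := fun q : (α × β) × β => (q.1.1, q.2))
      ((Primrec.fst.comp Primrec.fst).pair Primrec.snd)) ?_
    exact Ar.prim hS (Primrec.nat_le.comp (Primrec.encode.comp (Primrec.snd.comp Primrec.fst))
      (Primrec.encode.comp Primrec.snd))
  · intro a b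
    constructor
    · rintro rfl
      exact ⟨hf1 a, hf2 a⟩
    · rintro ⟨h2, h3⟩
      exact encode_injective (le_antisymm (hf2 a b h2) (h3 _ (hf1 a)))

/-! ### finite-valued limits -/

/-- limits of finite-valued functions along the ultrafilter -/
theorem exists_ulim {U : Ultrafilter ℕ} (hU : DU S U) [Finite β] {f : α → ℕ → β}
    (hf : ArF S fun p : α × ℕ => f p.1 p.2) (hS : Cl S) :
    ∃ g : α → β, ArF S g ∧ ∀ a, ∀ᶠ x in (U : Filter ℕ), f a x = g a := by
  have h : ∀ a, ∃ b, ∀ᶠ x in (U : Filter ℕ), f a x = b := by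
    intro a
    have h1 : ∀ᶠ x in (U : Filter ℕ), ∃ b, f a x = b := Eventually.of_forall fun x => ⟨_, rfl⟩
    exact Ultrafilter.eventually_exists_iff.1 h1
  choose g hg using h
  refine ⟨g, ArF.of_exists (R := fun a b => ∀ᶠ x in (U : Filter ℕ), f a x = b) ?_ ?_, hg⟩
  · refine Ar.ev hU (R := fun (p : α × β) x => f p.1 x = p.2) ?_
    refine Ar.eq hS (hf.comp hS (f := fun q : (α × β) × ℕ => (q.1.1, q.2)) (ArF.of_primrec hS
      ((Primrec.fst.comp Primrec.fst).pair Primrec.snd))) (ArF.of_primrec hS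
      (Primrec.snd.comp Primrec.fst))
  · intro a b
    constructor
    · rintro rfl
      exact hg a
    · intro hb
      obtain ⟨x, hx1, hx2⟩ := ((hg a).and hb).exists
      rw [← hx1, hx2]

/-! ### lists -/

theorem Ar.memList (hS : Cl S) {f : α → β} (hf : ArF S f) {g : α → List β} (hg : ArF S g) :
    Ar S fun a => f a ∈ g a := by
  refine (Ar.ex hS (R := fun a (i : ℕ) => (g a)[i]? = some (f a)) ?_).congr fun a => ?_
  · refine Ar.eq hS ?_ ?_
    · exact ArF.map₂ hS (g := fun (l : List β) (i : ℕ) => l[i]?) Primrec.list_getElem?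
        (hg.comp hS (ArF.fst hS)) (ArF.snd hS)
    · exact ArF.map hS Primrec.option_some (hf.comp hS (ArF.fst hS))
  · exact List.mem_iff_getElem?

/-- bounded quantifiers over lists -/
theorem Ar.ballList (hS : Cl S) {R : α → β → Prop} (h : Ar S fun p : α × β => R p.1 p.2)
    {g : α → List β} (hg : ArF S g) : Ar S fun a => ∀ b ∈ g a, R a b :=
  Ar.all hS (R := fun a b => b ∈ g a → R a b)
    (Ar.imp hS (Ar.memList hS (ArF.snd hS) (hg.comp hS (ArF.fst hS))) h)

theorem Ar.bexList (hS : Cl S) {R : α → β → Prop} (h : Ar S fun p : α × β => R p.1 p.2)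
    {g : α → List β} (hg : ArF S g) : Ar S fun a => ∃ b ∈ g a, R a b :=
  Ar.ex hS (R := fun a b => b ∈ g a ∧ R a b)
    (Ar.and hS (Ar.memList hS (ArF.snd hS) (hg.comp hS (ArF.fst hS))) h)

/-- bounded quantifiers over integers -/
theorem Ar.ballInt (hS : Cl S) {R : α → ℤ → Prop} (h : Ar S fun p : α × ℤ => R p.1 p.2)
    {g : α → ℕ} (hg : ArF S g) : Ar S fun a => ∀ s : ℤ, s.natAbs ≤ g a → R a s :=
  Ar.all hS (R := fun a s => s.natAbs ≤ g a → R a s)
    (Ar.imp hS (Ar.le hS ((ArF.snd hS).natAbs hS) (hg.comp hS (ArF.fst hS))) h)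

/-- the list of the first values of a function -/
theorem ArF.mapRange (hS : Cl S) {f : α → ℕ → β} (hf : ArF S fun p : α × ℕ => f p.1 p.2)
    {n : α → ℕ} (hn : ArF S n) : ArF S fun a => (List.range (n a)).map (f a) := by
  have h : ArF S fun p : α × ℕ => (List.range p.2).map (f p.1) := by
    refine ArF.rec hS (b := fun _ => ([] : List β)) (ArF.const hS _)
      (G := fun a n l => l ++ [f a n]) (f := fun a n => (List.range n).map (f a)) ?_
      (fun a => rfl) (fun a n => ?_)
    · refine ArF.map₂ hS (g := fun (l : List β) (b : β) => l ++ [b]) Primrec.list_concat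
        (ArF.of_primrec hS (Primrec.snd.comp Primrec.snd)) ?_
      exact hf.comp hS (f := fun q : α × ℕ × List β => (q.1, q.2.1)) (ArF.of_primrec hS
        (Primrec.fst.pair (Primrec.fst.comp Primrec.snd)))
    · simp [List.range_succ]
  exact h.comp hS ((ArF.id hS).pair hS hn)

end calculus

end Pool.Agent.Work.MP_69fea5_lc.HK
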