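import Mathlib

/-!
Block [69fea5 HK]: sums of at most two terms, any number of colours, solutions in every omega-model
of arithmetical comprehension.  Definitions.
-/

set_option autoImplicit false

open Filter Topology MeasureTheory

namespace Pool.Agent.Work.MP_69fea5_lc.HK

/-! ### families closed under arithmetical operations -/

/-- families of sets of natural numbers closed under arithmetical operations -/
structure Cl (S : Set (Set ℕ)) : Prop where
  zero : {0} ∈ S
  compl : ∀ A ∈ S, Aᶜ ∈ S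
  inter : ∀ A ∈ S, ∀ B ∈ S, A ∩ B ∈ S
  proj : ∀ A ∈ S, {n | ∃ m, Nat.pair n m ∈ A} ∈ S
  preim : ∀ A ∈ S, ∀ f : ℕ → ℕ, Nat.Primrec f → f ⁻¹' A ∈ S

/-- the relation `R` is in `S` -/
def Ar (S : Set (Set ℕ)) {α : Type*} [Primcodable α] (R : α → Prop) : Prop :=
  {n | ∃ a, Encodable.decode n = some a ∧ R a} ∈ S

/-- the function `f` is in `S` -/
def ArF (S : Set (Set ℕ)) {α β : Type*} [Primcodable α] [Primcodable β] (f : α → β) : Prop :=
  Ar S fun p : α × β => f p.1 = p.2

/-- the real-valued function `f` (with values `≥ 0`) is in `S` -/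
def ArR (S : Set (Set ℕ)) {α : Type*} [Primcodable α] (f : α → ℝ) : Prop :=
  Ar S fun p : α × ℕ × ℕ => (p.2.1 : ℝ) < f p.1 * (p.2.2 + 1)

/-- the ultrafilter `U` is a quantifier which preserves `S` -/
structure DU (S : Set (Set ℕ)) (U : Ultrafilter ℕ) : Prop where
  top : (U : Filter ℕ) ≤ atTop
  dfn : ∀ A ∈ S, {n | {x | Nat.pair n x ∈ A} ∈ U} ∈ S

end Pool.Agent.Work.MP_69fea5_lc.HK
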