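import Pool.Agent.Work.MP_69fea5_lc.HK.Stmts

/-!
Block [69fea5 HK]: generic facts about orbit closures.
-/

set_option autoImplicit false
set_option linter.unusedSectionVars false
set_option linter.deprecated false

open Filter Topology MeasureTheory

namespace Pool.Agent.Work.MP_69fea5_lc.HK

section

variable {α β : Type} [TopologicalSpace α] [Dat α] [Law α] [TopologicalSpace β] [Dat β] [Law β]

theorem isClosed_oc (w : α) : IsClosed (oc w) := isClosed_closure

theorem act_mem_oc (w : α) (n : ℤ) : act n w ∈ oc w := subset_closure ⟨n, rfl⟩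

theorem mem_oc_self (w : α) : w ∈ oc w := by
  have := act_mem_oc w 0
  rwa [Law.act_zero] at this

theorem act_neg_act (n : ℤ) (w : α) : act (-n) (act n w) = w := by
  rw [← Law.act_add, neg_add_cancel, Law.act_zero]

theorem act_act_neg (n : ℤ) (w : α) : act n (act (-n) w) = w := by
  rw [← Law.act_add, add_neg_cancel, Law.act_zero]

theorem continuous_act (n : ℤ) : Continuous (act n : α → α) := Law.cont n

/-- closed invariant sets contain orbit closures -/
theorem oc_subset {F : Set α} (hF : IsClosed F) (hi : ∀ n : ℤ, ∀ w ∈ F, act n w ∈ F) {w : α}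
    (hw : w ∈ F) : oc w ⊆ F :=
  closure_minimal (by rintro _ ⟨n, rfl⟩; exact hi n w hw) hF

theorem oc_inv {w w' : α} (h : w' ∈ oc w) (n : ℤ) : act n w' ∈ oc w := by
  refine map_mem_closure (continuous_act n) h ?_
  rintro _ ⟨m, rfl⟩
  exact ⟨n + m, Law.act_add n m w⟩

theorem oc_sub {w w' : α} (h : w' ∈ oc w) : oc w' ⊆ oc w :=
  oc_subset (isClosed_oc w) (fun n _ hu => oc_inv hu n) h

theorem Mn.oc_eq {w w' : α} (hw : Mn w) (h : w' ∈ oc w) : oc w' = oc w :=
  (oc_sub h).antisymm (oc_sub (hw w' h))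

theorem Mn.of_mem {w w' : α} (hw : Mn w) (h : w' ∈ oc w) : Mn w' := by
  intro w'' h''
  rw [hw.oc_eq h] at h''
  have := hw.oc_eq h''
  rw [this]
  exact h

theorem oc_open_iff {w : α} {O : Set α} (hO : IsOpen O) :
    (oc w ∩ O).Nonempty ↔ ∃ n : ℤ, act n w ∈ O := by
  constructor
  · rintro ⟨w', h1, h2⟩
    obtain ⟨_, h3, n, rfl⟩ := mem_closure_iff.1 h1 O hO h2
    exact ⟨n, h3⟩
  · rintro ⟨n, hn⟩
    exact ⟨_, act_mem_oc w n, hn⟩

/-- image of an orbit closure -/
theorem map_oc {f : α → β} {w : α} (hf : ContinuousOn f (oc w))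
    (he : ∀ n : ℤ, f (act n w) = act n (f w)) {w' : α} (h : w' ∈ oc w) : f w' ∈ oc (f w) := by
  have h1 : f w' ∈ closure (f '' (Set.range fun n : ℤ => act n w)) := by
    have hw : ContinuousWithinAt f (oc w) w' := hf w' h
    have hw' : ContinuousWithinAt f (Set.range fun n : ℤ => act n w) w' :=
      hw.mono subset_closure
    exact hw'.mem_closure_image h
  refine closure_mono ?_ h1
  rintro _ ⟨_, ⟨n, rfl⟩, rfl⟩
  exact ⟨n, (he n).symm⟩

theorem oc_map [CompactSpace α] [T2Space β] {f : α → β} {w : α} (hf : ContinuousOn f (oc w))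
    (he : ∀ n : ℤ, f (act n w) = act n (f w)) : oc (f w) = f '' oc w := by
  apply Set.Subset.antisymm
  · have hc : IsClosed (f '' oc w) :=
      ((isClosed_oc w).isCompact.image_of_continuousOn hf).isClosed
    refine closure_minimal ?_ hc
    rintro _ ⟨n, rfl⟩
    exact ⟨act n w, act_mem_oc w n, he n⟩
  · rintro _ ⟨w', h, rfl⟩
    exact map_oc hf he h

theorem Mn.map [CompactSpace α] [T2Space β] {f : α → β} {w : α} (hw : Mn w)
    (hf : ContinuousOn f (oc w))
    (he : ∀ n : ℤ, ∀ w' ∈ oc w, f (act n w') = act n (f w')) : Mn (f w) := by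
  intro u hu
  rw [oc_map hf fun n => he n w (mem_oc_self w)] at hu
  obtain ⟨w', h, rfl⟩ := hu
  have h1 : oc w' ⊆ oc w := oc_sub h
  exact map_oc (hf.mono h1) (fun n => he n w' h) (hw w' h)

/-- the set of limit points of the forward orbit is closed -/
theorem isClosed_cluster (w : α) :
    IsClosed {u : α | MapClusterPt u atTop (fun x : ℕ => act (x : ℤ) w)} :=
  isClosed_setOf_clusterPt

theorem mapClusterPt_iff' {w u : α} : MapClusterPt u atTop (fun x : ℕ => act (x : ℤ) w) ↔
    ∀ U ∈ 𝓝 u, ∀ N : ℕ, ∃ x : ℕ, N ≤ x ∧ act (x : ℤ) w ∈ U := by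
  rw [mapClusterPt_iff_frequently]
  constructor
  · intro h U hU N
    obtain ⟨x, h1, h2⟩ := (frequently_atTop.1 (h U hU)) N
    exact ⟨x, h1, h2⟩
  · intro h U hU
    exact frequently_atTop.2 fun N => h U hU N

theorem cluster_act {w u : α} (h : MapClusterPt u atTop (fun x : ℕ => act (x : ℤ) w)) (n : ℤ) :
    MapClusterPt (act n u) atTop (fun x : ℕ => act (x : ℤ) w) := by
  rw [mapClusterPt_iff'] at h ⊢
  intro U hU N
  obtain ⟨x, h1, h2⟩ := h (act n ⁻¹' U) ((continuous_act n).continuousAt hU) (N + n.natAbs)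
  have h3 : 0 ≤ (x : ℤ) + n := by omega
  refine ⟨((x : ℤ) + n).toNat, by omega, ?_⟩
  rw [Int.toNat_of_nonneg h3, add_comm, Law.act_add]
  exact h2

theorem cluster_oc {w u u' : α} (h : MapClusterPt u atTop (fun x : ℕ => act (x : ℤ) w))
    (h' : u' ∈ oc u) : MapClusterPt u' atTop (fun x : ℕ => act (x : ℤ) w) :=
  oc_subset (isClosed_cluster w) (fun n _ hu => cluster_act hu n) h h'

/-- limit points along ultrafilters -/
theorem cluster_of_tendsto {w u : α} {G : Ultrafilter ℕ} (hG : (G : Filter ℕ) ≤ atTop)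
    (h : Tendsto (fun x : ℕ => act (x : ℤ) w) (G : Filter ℕ) (𝓝 u)) :
    MapClusterPt u atTop (fun x : ℕ => act (x : ℤ) w) := by
  have h1 : MapClusterPt u (G : Filter ℕ) (fun x : ℕ => act (x : ℤ) w) := h.mapClusterPt
  exact ClusterPt.mono h1 (map_mono hG)

theorem exists_ultra_of_cluster {w u : α}
    (h : MapClusterPt u atTop (fun x : ℕ => act (x : ℤ) w)) :
    ∃ G : Ultrafilter ℕ, (G : Filter ℕ) ≤ atTop ∧
      Tendsto (fun x : ℕ => act (x : ℤ) w) (G : Filter ℕ) (𝓝 u) :=
  mapClusterPt_iff_ultrafilter.1 h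

/-- convergence from approximate equality -/
theorem tendsto_of_near {w : ℕ → α} {u : α} {G : Ultrafilter ℕ} (hG : (G : Filter ℕ) ≤ atTop)
    (h : ∀ n, near n (w n) u) : Tendsto w (G : Filter ℕ) (𝓝 u) := by
  intro U hU
  obtain ⟨L, hL⟩ := Law.near_basis u U hU
  have h1 : ∀ᶠ n in (G : Filter ℕ), L ≤ n := hG (eventually_ge_atTop L)
  have h2 : ∀ᶠ n in (G : Filter ℕ), w n ∈ U := by
    filter_upwards [h1] with n hn
    exact hL _ (Law.near_symm _ _ _ (Law.near_mono _ _ _ _ hn (h n)))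
  exact h2

theorem near_mem_nhds (L : ℕ) (u : α) : {w : α | near L w u} ∈ 𝓝 u := by
  have h1 : IsOpen {w : α | near L w u} :=
    (Law.near_open (α := α) L).preimage (continuous_id.prodMk continuous_const)
  exact h1.mem_nhds (Law.near_refl L u)

end

end Pool.Agent.Work.MP_69fea5_lc.HK
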