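import Pool.Agent.Work.MP_69fea5_lc.HK.Stmts

/-!
Block [69fea5 HK], item DRIM: the relatively invariant measure (energy argument).
-/

set_option autoImplicit false

open Filter Topology MeasureTheory
namespace Pool.Agent.Work.MP_69fea5_lc.HK.I_DRIM

section gen
variable {α : Type} [TopologicalSpace α] [Dat α] [Law α]

theorem oc_self (w : α) : w ∈ oc w := subset_closure ⟨0, Law.act_zero w⟩

omit [Law α] in
theorem isClosed_oc (w : α) : IsClosed (oc w) := isClosed_closure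

theorem oc_act {w w' : α} (h : w' ∈ oc w) (n : ℤ) : act n w' ∈ oc w := by
  refine map_mem_closure (Law.cont n) h ?_
  rintro _ ⟨m, rfl⟩
  exact ⟨n + m, Law.act_add n m w⟩

theorem oc_trans {w w' w'' : α} (h : w' ∈ oc w) (h' : w'' ∈ oc w') : w'' ∈ oc w := by
  refine closure_minimal ?_ (isClosed_oc w) h'
  rintro _ ⟨m, rfl⟩
  exact oc_act h m

theorem act_neg_act (n : ℤ) (x : α) : act (-n) (act n x) = x := by
  rw [← Law.act_add, neg_add_cancel, Law.act_zero]

theorem act_act_neg (n : ℤ) (x : α) : act n (act (-n) x) = x := by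
  rw [← Law.act_add, add_neg_cancel, Law.act_zero]

theorem oc_of_act {w w' : α} {n : ℤ} (h : act n w' ∈ oc w) : w' ∈ oc w := by
  have := oc_act h (-n)
  rwa [act_neg_act] at this

end gen

section prod
variable {α β : Type} [TopologicalSpace α] [TopologicalSpace β] [Dat α] [Dat β]

theorem oc_fst {w p : α × β} (h : p ∈ oc w) : p.1 ∈ oc w.1 := by
  refine map_mem_closure continuous_fst h ?_
  rintro _ ⟨m, rfl⟩
  exact ⟨m, rfl⟩

theorem oc_snd {w p : α × β} (h : p ∈ oc w) : p.2 ∈ oc w.2 := by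
  refine map_mem_closure continuous_snd h ?_
  rintro _ ⟨m, rfl⟩
  exact ⟨m, rfl⟩

theorem oc_lift [CompactSpace α] [CompactSpace β] [T2Space β] {w : α × β} {y : β}
    (h : y ∈ oc w.2) : ∃ a, (a, y) ∈ oc w := by
  have hc : IsClosed (Prod.snd '' oc w) :=
    (isClosed_closure.isCompact.image continuous_snd).isClosed
  have : oc w.2 ⊆ Prod.snd '' oc w := by
    refine closure_minimal ?_ hc
    rintro _ ⟨m, rfl⟩
    exact ⟨act m w, subset_closure ⟨m, rfl⟩, rfl⟩
  obtain ⟨⟨a, y'⟩, h1, h2⟩ := this h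
  exact ⟨a, by simpa [← h2] using h1⟩

theorem mn_snd [CompactSpace α] [CompactSpace β] [T2Space β] {w : α × β} (h : Mn w) : Mn w.2 := by
  intro y hy
  obtain ⟨a, ha⟩ := oc_lift hy
  exact oc_snd (h _ ha)

end prod

section meas
variable {k : ℕ}

theorem isClopen_cyl (P : C k) : IsClopen (cyl P) := by
  have : cyl P = ⋂ p ∈ P.toFinset, {z : X k | z p.1 = p.2} := by
    ext z; simp [cyl]
  rw [this]
  refine isClopen_biInter_finset fun p _ => ?_
  exact (isClopen_discrete {p.2}).preimage (continuous_apply p.1)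

theorem mr_nonneg (m : PM k) (A : Set (X k)) : 0 ≤ mr m A := measureReal_nonneg
theorem mr_le_one (m : PM k) (A : Set (X k)) : mr m A ≤ 1 := measureReal_le_one

theorem mr_mono (m : PM k) {A B : Set (X k)} (h : A ⊆ B) : mr m A ≤ mr m B :=
  measureReal_mono h

theorem mr_univ (m : PM k) : mr m Set.univ = 1 := by simp [mr]

theorem mr_act (n : ℤ) (m : PM k) {A : Set (X k)} (hA : MeasurableSet A) :
    mr (act n m) A = mr m (act n ⁻¹' A) := by
  show ((m.map (continuous_actX n).measurable.aemeasurable : PM k) : Measure (X k)).real A = _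
  rw [ProbabilityMeasure.toMeasure_map, map_measureReal_apply (continuous_actX n).measurable hA]
  rfl

theorem mr_compl (m : PM k) {A : Set (X k)} (hA : MeasurableSet A) : mr m Aᶜ = 1 - mr m A := by
  have := probReal_compl_eq_one_sub (μ := (m : Measure (X k))) hA
  exact this

theorem tendsto_mr {ι : Type} {F : Filter ι} {m : ι → PM k} {m' : PM k} (h : Tendsto m F (𝓝 m'))
    {A : Set (X k)} (hA : IsClopen A) : Tendsto (fun i => mr (m i) A) F (𝓝 (mr m' A)) := by
  have := ProbabilityMeasure.tendsto_measure_of_isClopen_of_tendsto h hA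
  exact (NNReal.tendsto_coe.2 this)

theorem continuous_mr {A : Set (X k)} (hA : IsClopen A) : Continuous fun m : PM k => mr m A := by
  rw [continuous_iff_continuousAt]
  intro m
  have := ProbabilityMeasure.tendsto_measure_of_isClopen_of_tendsto (L := 𝓝 m)
    (μs := fun m' : PM k => m') (μ := m) tendsto_id hA
  exact (NNReal.tendsto_coe.2 this)

end meas

section sq
variable {k : ℕ}

/-- the squared distance of two measures -/
noncomputable def Sq (m m' : PM k) : ℝ :=
  ∑' e : ℕ, (1 / 2 : ℝ) ^ e * (mr m (cyl (dec k e)) - mr m' (cyl (dec k e))) ^ 2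

theorem sq_term_nonneg (m m' : PM k) (e : ℕ) :
    0 ≤ (1 / 2 : ℝ) ^ e * (mr m (cyl (dec k e)) - mr m' (cyl (dec k e))) ^ 2 := by positivity

theorem sq_term_le (m m' : PM k) (e : ℕ) :
    (1 / 2 : ℝ) ^ e * (mr m (cyl (dec k e)) - mr m' (cyl (dec k e))) ^ 2 ≤ (1 / 2 : ℝ) ^ e := by
  have h1 := mr_nonneg m (cyl (dec k e))
  have h2 := mr_le_one m (cyl (dec k e))
  have h3 := mr_nonneg m' (cyl (dec k e))
  have h4 := mr_le_one m' (cyl (dec k e))
  have : (mr m (cyl (dec k e)) - mr m' (cyl (dec k e))) ^ 2 ≤ 1 := by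
    rw [sq_le_one_iff_abs_le_one, abs_le]; constructor <;> linarith
  have hp : (0 : ℝ) ≤ (1 / 2 : ℝ) ^ e := by positivity
  nlinarith

theorem summable_geo : Summable fun e : ℕ => (1 / 2 : ℝ) ^ e :=
  summable_geometric_of_lt_one (by norm_num) (by norm_num)

theorem sq_summable (m m' : PM k) :
    Summable fun e : ℕ => (1 / 2 : ℝ) ^ e * (mr m (cyl (dec k e)) - mr m' (cyl (dec k e))) ^ 2 :=
  Summable.of_nonneg_of_le (sq_term_nonneg m m') (sq_term_le m m') summable_geo

theorem Sq_nonneg (m m' : PM k) : 0 ≤ Sq m m' := tsum_nonneg (sq_term_nonneg m m')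

theorem Sq_tri (m m' m'' : PM k) : Sq m m'' ≤ 2 * Sq m m' + 2 * Sq m' m'' := by
  unfold Sq
  rw [← tsum_mul_left, ← tsum_mul_left, ← ((sq_summable m m').mul_left 2).tsum_add
    ((sq_summable m' m'').mul_left 2)]
  refine (sq_summable m m'').tsum_le_tsum ?_ (((sq_summable m m').mul_left 2).add
    ((sq_summable m' m'').mul_left 2))
  intro e
  have hp : (0 : ℝ) ≤ (1 / 2 : ℝ) ^ e := by positivity
  set a := mr m (cyl (dec k e))
  set b := mr m' (cyl (dec k e))
  set c := mr m'' (cyl (dec k e))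
  have : (a - c) ^ 2 ≤ 2 * (a - b) ^ 2 + 2 * (b - c) ^ 2 := by nlinarith [sq_nonneg (a - b - (b - c))]
  nlinarith

theorem Sq_symm (m m' : PM k) : Sq m m' = Sq m' m := by
  unfold Sq
  congr 1; ext e; ring

theorem Sq_self (m : PM k) : Sq m m = 0 := by simp [Sq]

theorem continuous_Sq : Continuous fun p : PM k × PM k => Sq p.1 p.2 := by
  unfold Sq
  refine continuous_tsum (u := fun e : ℕ => (1 / 2 : ℝ) ^ e) ?_ summable_geo ?_
  · intro e
    have h := continuous_mr (isClopen_cyl (dec k e))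
    exact continuous_const.mul (((h.comp continuous_fst).sub (h.comp continuous_snd)).pow 2)
  · intro e p
    rw [Real.norm_eq_abs, abs_of_nonneg (sq_term_nonneg _ _ _)]
    exact sq_term_le _ _ _

theorem dec_encode (P : C k) : dec k (Encodable.encode P) = P := by simp [dec]

theorem Sq_eq_zero (hEXT : S_EXT) {m m' : PM k} (h : Sq m m' = 0) : m = m' := by
  refine hEXT k m m' fun P => ?_
  have h1 : (1 / 2 : ℝ) ^ (Encodable.encode P) *
      (mr m (cyl (dec k (Encodable.encode P))) - mr m' (cyl (dec k (Encodable.encode P)))) ^ 2 ≤ 0 := by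
    rw [← h]
    exact (sq_summable m m').le_tsum _ fun e _ => sq_term_nonneg m m' e
  rw [dec_encode] at h1
  have hp : (0 : ℝ) < (1 / 2 : ℝ) ^ (Encodable.encode P) := by positivity
  have h2 : (mr m (cyl P) - mr m' (cyl P)) ^ 2 ≤ 0 := by
    by_contra h3
    push Not at h3
    have := mul_pos hp h3
    linarith
  have h3 : mr m (cyl P) - mr m' (cyl P) = 0 := by
    have := le_antisymm h2 (sq_nonneg _)
    exact pow_eq_zero_iff (two_ne_zero) |>.1 this
  linarith

end sq

section win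
variable {k : ℕ}

/-- words on `[-N, N]` -/
abbrev W (k N : ℕ) : Type := {t : ℤ // t ∈ Finset.Icc (-(N : ℤ)) N} → Fin k

/-- restriction to `[-N, N]` -/
def res (N : ℕ) (a : X k) : W k N := fun t => a t.1

theorem continuous_res (N : ℕ) : Continuous (res N : X k → W k N) :=
  continuous_pi fun t => continuous_apply t.1

theorem isClopen_res (N : ℕ) (w : W k N) : IsClopen (res N ⁻¹' {w} : Set (X k)) :=
  (isClopen_discrete {w}).preimage (continuous_res N)

theorem mr_sum (m : PM k) (N : ℕ) {B : Set (X k)} (hB : MeasurableSet B) :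
    mr m B = ∑ w : W k N, mr m (B ∩ res N ⁻¹' {w}) := by
  have h : B = ⋃ w ∈ (Finset.univ : Finset (W k N)), (B ∩ res N ⁻¹' {w}) := by
    ext a; simp
  conv_lhs => rw [h]
  unfold mr
  rw [measureReal_biUnion_finset]
  · intro w _ w' _ hww
    rw [Function.onFun, Set.disjoint_left]
    rintro a ⟨_, h1⟩ ⟨_, h2⟩
    exact hww (h1.symm.trans h2)
  · intro w _
    exact hB.inter (isClopen_res N w).1.measurableSet

theorem near_of_res {N : ℕ} {a b : X k} (h : res N a = res N b) : near N a b := by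
  intro t ht
  rw [abs_le] at ht
  exact congrFun h ⟨t, Finset.mem_Icc.2 ht⟩

theorem res_of_near {N : ℕ} {a b : X k} (h : near N a b) : res N a = res N b := by
  funext t
  exact h t.1 (abs_le.2 (Finset.mem_Icc.1 t.2))

/-- every clopen set is determined by a window -/
theorem clopen_win [Law (X k)] {B : Set (X k)} (hB : IsClopen B) :
    ∃ N₀ : ℕ, ∀ N, N₀ ≤ N → ∀ a b : X k, res N a = res N b → a ∈ B → b ∈ B := by
  have h1 : ∀ x ∈ B, ∃ N : ℕ, ∀ y, near N x y → y ∈ B := fun x hx =>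
    Law.near_basis x B (hB.2.mem_nhds hx)
  choose! N hN using h1
  obtain ⟨t, ht, hc⟩ := hB.1.isCompact.elim_nhds_subcover (fun x => {y | near (N x) x y})
    (fun x _ => by
      have := (Law.near_open (α := X k) (N x)).preimage (Continuous.prodMk_right x)
      exact this.mem_nhds (Law.near_refl (N x) x))
  refine ⟨t.sup N, fun M hM a b hab ha => ?_⟩
  obtain ⟨x, hx, hxa⟩ := Set.mem_iUnion₂.1 (hc ha)
  have hxa' : near (N x) x a := hxa
  refine hN x (ht x hx) b ?_
  intro s hs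
  have h2 : near M a b := near_of_res hab
  have h3 : (N x : ℤ) ≤ M := by exact_mod_cast (Finset.le_sup hx).trans hM
  rw [hxa' s hs]
  exact h2 s (hs.trans h3)

end win

section core
variable {k : ℕ} {I : Type} [Primcodable I]

/-- the mixture at level `N` -/
theorem exists_b [Law (X k)] [Law (V I)] [Law (PM k)] (hMIX : S_MIX) (hVAR : S_VAR)
    (hACL : S_ACL) {z : X k} {v : V I} {w : X k × Y I k}
    (hlift : ∀ a, (a, w.2.1) ∈ oc (z, v) → ∃ m : PM k, (a, (w.2.1, m)) ∈ oc w)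
    (hAs : ∀ (a : X k) (m : PM k), (a, (w.2.1, m)) ∈ oc w → (w.2.1, m) ∈ As z v)
    (hw2 : w.2 ∈ As z v) (N : ℕ) :
    ∃ b : PM k, (w.2.1, b) ∈ As z v ∧ ∀ (n : ℤ) (C : Set (X k)) (me : PM k) (ε : ℝ),
      IsClopen C → (∀ a a', res N a = res N a' → act n a ∉ C → act n a' ∉ C) →
      (∀ (a : X k) (m : PM k), (a, (w.2.1, m)) ∈ oc w → act n a ∉ C → ε ≤ Sq (act n m) me) →
      mr w.2.2 (act n ⁻¹' Cᶜ) * (ε / 2 - Sq (act n b) me) ≤ gs z v - En (act n b) := by
  classical
  set m' := w.2.2 with hm'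
  have hfull : mr m' {a | (a, w.2.1) ∈ oc (z, v)} = 1 := hw2.1.2
  have hFm : MeasurableSet {a | (a, w.2.1) ∈ oc (z, v)} := by
    have : IsClosed {a | (a, w.2.1) ∈ oc (z, v)} :=
      isClosed_closure.preimage (Continuous.prodMk_left w.2.1)
    exact this.measurableSet
  have h1 : ∀ u : W k N, ∃ m : PM k, (w.2.1, m) ∈ As z v ∧
      (mr m' (res N ⁻¹' {u}) ≠ 0 → ∃ a, res N a = u ∧ (a, (w.2.1, m)) ∈ oc w) := by
    intro u
    by_cases h0 : mr m' (res N ⁻¹' {u}) = 0
    · exact ⟨m', hw2, fun h => absurd h0 h⟩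
    · have h2 : ((res N ⁻¹' {u}) ∩ {a | (a, w.2.1) ∈ oc (z, v)}).Nonempty := by
        by_contra h3
        rw [Set.not_nonempty_iff_eq_empty] at h3
        have h4 : (res N ⁻¹' {u} : Set (X k)) ⊆ {a | (a, w.2.1) ∈ oc (z, v)}ᶜ := by
          intro a ha ha'
          have : a ∈ (res N ⁻¹' {u}) ∩ {a | (a, w.2.1) ∈ oc (z, v)} := ⟨ha, ha'⟩
          rw [h3] at this
          exact this
        have h5 := mr_mono m' h4
        rw [mr_compl m' hFm, hfull] at h5
        have := mr_nonneg m' (res N ⁻¹' {u})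
        exact h0 (by linarith)
      obtain ⟨a, ha, ha'⟩ := h2
      obtain ⟨m, hm⟩ := hlift a ha'
      exact ⟨m, hAs a m hm, fun _ => ⟨a, ha, hm⟩⟩
  choose mm hmm hmm' using h1
  have hα0 : ∀ u : W k N, 0 ≤ mr m' (res N ⁻¹' {u}) := fun u => mr_nonneg _ _
  have hα1 : ∑ u : W k N, mr m' (res N ⁻¹' {u}) = 1 := by
    have := mr_sum m' N MeasurableSet.univ
    rw [mr_univ] at this
    simpa using this.symm
  obtain ⟨b, hb⟩ := hMIX k (W k N) (fun u => mr m' (res N ⁻¹' {u})) mm hα0 hα1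
  have hbAs := (hACL k I z v).2.2 (W k N) (fun u => mr m' (res N ⁻¹' {u})) mm b w.2.1 hα0 hα1 hb hmm
  refine ⟨b, hbAs, ?_⟩
  intro n C me ε hC hsat hbad
  have hbn : ∀ A : Set (X k), MeasurableSet A →
      mr (act n b) A = ∑ u : W k N, mr m' (res N ⁻¹' {u}) * mr (act n (mm u)) A := by
    intro A hA
    rw [mr_act n b hA, hb _ ((continuous_actX n).measurable hA)]
    refine Finset.sum_congr rfl fun u _ => ?_
    rw [mr_act n (mm u) hA]
  have hv := hVAR k (W k N) (fun u => mr m' (res N ⁻¹' {u})) (fun u => act n (mm u)) (act n b)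
    hα0 hα1 hbn
  have hE : ∑ u : W k N, mr m' (res N ⁻¹' {u}) * En (act n (mm u)) ≤ gs z v := by
    calc ∑ u : W k N, mr m' (res N ⁻¹' {u}) * En (act n (mm u))
        ≤ ∑ u : W k N, mr m' (res N ⁻¹' {u}) * gs z v :=
          Finset.sum_le_sum fun u _ => mul_le_mul_of_nonneg_left ((hmm u).2 n) (hα0 u)
      _ = gs z v := by rw [← Finset.sum_mul, hα1, one_mul]
  have hpre : MeasurableSet (act n ⁻¹' Cᶜ : Set (X k)) :=
    (continuous_actX n).measurable hC.compl.1.measurableSet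
  have hS : mr m' (act n ⁻¹' Cᶜ) * (ε / 2 - Sq (act n b) me) ≤
      ∑ u : W k N, mr m' (res N ⁻¹' {u}) * Sq (act n (mm u)) (act n b) := by
    rw [mr_sum m' N hpre, Finset.sum_mul]
    refine Finset.sum_le_sum fun u _ => ?_
    by_cases h0 : mr m' (res N ⁻¹' {u}) = 0
    · have h3 : mr m' (act n ⁻¹' Cᶜ ∩ res N ⁻¹' {u}) = 0 :=
        le_antisymm (h0 ▸ mr_mono m' Set.inter_subset_right) (mr_nonneg _ _)
      rw [h0, h3]; simp
    · by_cases h3 : (act n ⁻¹' Cᶜ ∩ res N ⁻¹' {u} : Set (X k)).Nonempty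
      · obtain ⟨a', ha'1, ha'2⟩ := h3
        have h4 : (act n ⁻¹' Cᶜ ∩ res N ⁻¹' {u} : Set (X k)) = res N ⁻¹' {u} := by
          refine Set.inter_eq_right.2 fun a ha => ?_
          exact hsat a' a (ha'2.trans ha.symm) ha'1
        rw [h4]
        obtain ⟨a, ha, hm⟩ := hmm' u h0
        have h5 : act n a ∉ C := hsat a' a (ha'2.trans ha.symm) ha'1
        have h6 := hbad a (mm u) hm h5
        have h7 := Sq_tri (act n (mm u)) (act n b) me
        exact mul_le_mul_of_nonneg_left (by linarith) (hα0 u)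
      · rw [Set.not_nonempty_iff_eq_empty] at h3
        rw [h3]
        have : mr m' (∅ : Set (X k)) = 0 := by simp [mr]
        rw [this, zero_mul]
        exact mul_nonneg (hα0 u) (Sq_nonneg _ _)
  have hS2 : ∑ u : W k N, mr m' (res N ⁻¹' {u}) * Sq (act n (mm u)) (act n b) =
      ∑ u : W k N, mr m' (res N ⁻¹' {u}) * En (act n (mm u)) - En (act n b) := hv.symm
  linarith

end core

section fin
variable {k : ℕ}

theorem exists_clopen [Law (X k)] (m : PM k) {F : Set (X k)} (hF : IsClosed F) {r : ℝ}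
    (h : mr m F < r) : ∃ C : Set (X k), IsClopen C ∧ F ⊆ C ∧ mr m C < r := by
  set D : ℕ → Set (X k) := fun N => res N ⁻¹' (res N '' F) with hD
  have hclo : ∀ N, IsClopen (D N) := fun N => (isClopen_discrete _).preimage (continuous_res N)
  have hsub : ∀ N, F ⊆ D N := fun N => Set.subset_preimage_image _ _
  have hanti : Antitone D := by
    intro N M hNM a ha
    obtain ⟨b, hb, hba⟩ := ha
    refine ⟨b, hb, ?_⟩
    apply res_of_near
    have h1 : near M b a := near_of_res hba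
    exact Law.near_mono N M b a hNM h1
  have hint : ⋂ N, D N = F := by
    apply Set.Subset.antisymm
    · intro a ha
      by_contra hna
      obtain ⟨L, hL⟩ := Law.near_basis a Fᶜ (hF.isOpen_compl.mem_nhds hna)
      obtain ⟨b, hb, hba⟩ := Set.mem_iInter.1 ha L
      have h1 : near L a b := Law.near_symm L b a (near_of_res hba)
      exact hL b h1 hb
    · exact Set.subset_iInter hsub
  have ht : Tendsto (fun N => (m : Measure (X k)) (D N)) atTop (𝓝 ((m : Measure (X k)) (⋂ N, D N))) :=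
    tendsto_measure_iInter_atTop (fun N => (hclo N).1.measurableSet.nullMeasurableSet) hanti
      ⟨0, measure_ne_top _ _⟩
  rw [hint] at ht
  have ht2 : Tendsto (fun N => mr m (D N)) atTop (𝓝 (mr m F)) :=
    (ENNReal.tendsto_toReal (measure_ne_top _ _)).comp ht
  obtain ⟨N, hN⟩ := (ht2.eventually (gt_mem_nhds h)).exists
  exact ⟨D N, hclo N, hsub N, hN⟩

theorem sq_basis [Law (PM k)] (m : PM k) {O : Set (PM k)} (hO : O ∈ 𝓝 m) :
    ∃ ε : ℝ, 0 < ε ∧ ∀ m', Sq m' m < ε → m' ∈ O := by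
  obtain ⟨L, hL⟩ := Law.near_basis m O hO
  refine ⟨(1 / 2 : ℝ) ^ L * (1 / ((L : ℝ) + 1)) ^ 2, by positivity, fun m' h => hL m' ?_⟩
  intro P hP
  have h1 : (1 / 2 : ℝ) ^ (Encodable.encode P) *
      (mr m' (cyl (dec k (Encodable.encode P))) - mr m (cyl (dec k (Encodable.encode P)))) ^ 2 ≤
        Sq m' m :=
    (sq_summable m' m).le_tsum _ fun e _ => sq_term_nonneg m' m e
  rw [dec_encode] at h1
  have h2 : (1 / 2 : ℝ) ^ L ≤ (1 / 2 : ℝ) ^ (Encodable.encode P) :=
    pow_le_pow_of_le_one (by norm_num) (by norm_num) hP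
  have h3 : (1 / 2 : ℝ) ^ L * (mr m' (cyl P) - mr m (cyl P)) ^ 2 <
      (1 / 2 : ℝ) ^ L * (1 / ((L : ℝ) + 1)) ^ 2 := by
    calc (1 / 2 : ℝ) ^ L * (mr m' (cyl P) - mr m (cyl P)) ^ 2
        ≤ (1 / 2 : ℝ) ^ (Encodable.encode P) * (mr m' (cyl P) - mr m (cyl P)) ^ 2 :=
          mul_le_mul_of_nonneg_right h2 (sq_nonneg _)
      _ ≤ Sq m' m := h1
      _ < _ := h
  have h4 : (mr m' (cyl P) - mr m (cyl P)) ^ 2 < (1 / ((L : ℝ) + 1)) ^ 2 :=
    lt_of_mul_lt_mul_left h3 (by positivity)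
  have h5 : |mr m' (cyl P) - mr m (cyl P)| < 1 / ((L : ℝ) + 1) :=
    abs_lt_of_sq_lt_sq h4 (by positivity)
  rwa [abs_sub_comm] at h5

end fin

theorem drim (hX : S_LAWX) (hV : S_LAWV) (hPM : S_LAWPM) (hPR : S_LAWPR) (hUSC : S_USC)
    (hCST : S_CONST) (hMIX : S_MIX) (hENC : S_ENC) (hVAR : S_VAR) (hGS : S_GS) (hACL : S_ACL)
    (hEXT : S_EXT) : S_DRIM := by
  classical
  intro k I _ z v hmn w hw hw1 hw2
  have : Law (X k) := hX k
  have : Law (V I) := hV I
  have : Law (PM k) := hPM k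
  have : Law (Y I k) := hPR _ _
  have : Law (X k × V I) := hPR _ _
  have : Law (X k × Y I k) := hPR _ _
  by_contra hne
  set a0 := mr w.2.2 {a | (a, w.2) ∈ oc w} with ha0def
  have ha0 : a0 < 1 := lt_of_le_of_ne (mr_le_one _ _) hne
  have hcl : IsClosed (oc w) := isClosed_closure
  have hfc : ∀ y : Y I k, IsClosed {a | (a, y) ∈ oc w} := fun y =>
    hcl.preimage (Continuous.prodMk_left y)
  have hconst : ∀ y ∈ oc w.2, mr y.2 {a | (a, y) ∈ oc w} = a0 := by
    have h1 := hUSC k (Y I k) (fun y => y.2) continuous_snd {p | (p.2, p.1) ∈ oc w}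
      (hcl.preimage continuous_swap)
    refine hCST (Y I k) w.2 (mn_snd hw) (fun y => mr y.2 {a | (a, y) ∈ oc w}) h1 ?_
    intro n y _
    show mr (act n y.2) {a | (a, act n y) ∈ oc w} = _
    rw [mr_act n y.2 (hfc _).measurableSet]
    congr 1
    ext a
    constructor
    · intro h
      have h' : act n (a, y) ∈ oc w := h
      exact oc_of_act h'
    · intro h
      have h' : act n (a, y) ∈ oc w := oc_act h n
      exact h'
  have hlift : ∀ a, (a, w.2.1) ∈ oc (z, v) → ∃ m : PM k, (a, (w.2.1, m)) ∈ oc w := by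
    intro a ha
    have h1 : IsClosed ((fun p : X k × Y I k => (p.1, p.2.1)) '' oc w) :=
      (hcl.isCompact.image (by fun_prop)).isClosed
    have h2 : oc (w.1, w.2.1) ⊆ (fun p : X k × Y I k => (p.1, p.2.1)) '' oc w := by
      refine closure_minimal ?_ h1
      rintro _ ⟨n, rfl⟩
      exact ⟨act n w, subset_closure ⟨n, rfl⟩, rfl⟩
    have h3 : (a, w.2.1) ∈ oc (w.1, w.2.1) := oc_trans (hmn _ hw1) ha
    obtain ⟨⟨a', v', m⟩, h4, h5⟩ := h2 h3
    simp only [Prod.mk.injEq] at h5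
    refine ⟨m, ?_⟩
    rw [← h5.1, ← h5.2]
    exact h4
  obtain ⟨hAc, hAi, hAm⟩ := hACL k I z v
  have hAoc : ∀ y ∈ oc w.2, y ∈ As z v := by
    intro y hy
    refine closure_minimal ?_ hAc hy
    rintro _ ⟨n, rfl⟩
    exact hAi n _ hw2
  have hAs : ∀ (a : X k) (m : PM k), (a, (w.2.1, m)) ∈ oc w → (w.2.1, m) ∈ As z v :=
    fun a m h => hAoc _ (oc_snd h)
  choose b hbAs hb using fun N => exists_b hMIX hVAR hACL hlift hAs hw2 N
  obtain ⟨U, hU⟩ : ∃ U : Ultrafilter ℕ, (U : Filter ℕ) ≤ atTop :=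
    ⟨Ultrafilter.of atTop, Ultrafilter.of_le atTop⟩
  have hlim : ∀ {β : Type} [TopologicalSpace β] [CompactSpace β] (f : ℕ → β),
      ∃ x, Tendsto f (U : Filter ℕ) (𝓝 x) := by
    intro β _ _ f
    obtain ⟨x, _, hx⟩ := isCompact_univ.ultrafilter_le_nhds (U.map f) (by simp)
    exact ⟨x, hx⟩
  obtain ⟨bi, hbi⟩ := hlim b
  have hbiA : (w.2.1, bi) ∈ As z v :=
    hAc.mem_of_tendsto (tendsto_const_nhds.prodMk_nhds hbi) (Eventually.of_forall hbAs)
  have hEc := (hENC k).1
  -- midpoint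
  obtain ⟨mid, hmid⟩ := hMIX k Bool (fun _ => 1 / 2) (fun i => bif i then w.2.2 else bi)
    (fun _ => by norm_num) (by norm_num)
  have hmidA : (w.2.1, mid) ∈ As z v := by
    refine hAm Bool (fun _ => 1 / 2) (fun i => bif i then w.2.2 else bi) mid w.2.1
      (fun _ => by norm_num) (by norm_num) hmid ?_
    intro i
    cases i
    · exact hbiA
    · exact hw2
  have h1 : ∀ l : ℕ, ∃ n : ℤ, gs z v - 1 / ((l : ℝ) + 1) < En (act n mid) := fun l =>
    (hGS k I z v).2 (w.2.1, mid) hmidA.1 _ (by positivity)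
  choose nl hnl using h1
  have hSq : ∀ l : ℕ, Sq (act (nl l) w.2.2) (act (nl l) mid) ≤ 2 * (1 / ((l : ℝ) + 1)) ∧
      Sq (act (nl l) bi) (act (nl l) mid) ≤ 2 * (1 / ((l : ℝ) + 1)) := by
    intro l
    have hm2 : ∀ A : Set (X k), MeasurableSet A → mr (act (nl l) mid) A =
        ∑ i : Bool, (1 / 2 : ℝ) * mr (act (nl l) (bif i then w.2.2 else bi)) A := by
      intro A hA
      rw [mr_act _ _ hA, hmid _ ((continuous_actX _).measurable hA)]
      refine Finset.sum_congr rfl fun i _ => ?_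
      rw [mr_act _ _ hA]
    have h2 := hVAR k Bool (fun _ => 1 / 2) (fun i => act (nl l) (bif i then w.2.2 else bi))
      (act (nl l) mid) (fun _ => by norm_num) (by norm_num) hm2
    have h3 : ∑ i : Bool, (1 / 2 : ℝ) * En (act (nl l) (bif i then w.2.2 else bi)) -
        En (act (nl l) mid) = ∑ i : Bool, (1 / 2 : ℝ) *
          Sq (act (nl l) (bif i then w.2.2 else bi)) (act (nl l) mid) := h2
    simp only [Fintype.sum_bool, cond_true, cond_false] at h3
    have h4 := hw2.2 (nl l)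
    have h5 := hbiA.2 (nl l)
    have h6 := hnl l
    have h7 := Sq_nonneg (act (nl l) w.2.2) (act (nl l) mid)
    have h8 := Sq_nonneg (act (nl l) bi) (act (nl l) mid)
    constructor <;> linarith
  obtain ⟨q, hq⟩ := hlim fun l => act (nl l) w
  obtain ⟨be, hbe⟩ := hlim fun l => act (nl l) bi
  obtain ⟨me, hme⟩ := hlim fun l => act (nl l) mid
  have hqv : Tendsto (fun l => act (nl l) w.2.1) (U : Filter ℕ) (𝓝 q.2.1) :=
    ((continuous_fst.comp continuous_snd).tendsto q).comp hq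
  have hqm : Tendsto (fun l => act (nl l) w.2.2) (U : Filter ℕ) (𝓝 q.2.2) :=
    ((continuous_snd.comp continuous_snd).tendsto q).comp hq
  have hsmall : Tendsto (fun l : ℕ => (2 : ℝ) * (1 / ((l : ℝ) + 1))) (U : Filter ℕ) (𝓝 0) := by
    have := (tendsto_one_div_add_atTop_nhds_zero_nat (𝕜 := ℝ)).const_mul 2
    rw [mul_zero] at this
    exact this.mono_left hU
  have hsmall' : Tendsto (fun l : ℕ => gs z v - 1 / ((l : ℝ) + 1)) (U : Filter ℕ)
      (𝓝 (gs z v)) := by
    have := (tendsto_one_div_add_atTop_nhds_zero_nat (𝕜 := ℝ)).const_sub (gs z v)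
    rw [sub_zero] at this
    exact this.mono_left hU
  have hq1 : q.2.2 = me := by
    apply Sq_eq_zero hEXT
    apply le_antisymm _ (Sq_nonneg _ _)
    exact le_of_tendsto_of_tendsto' ((continuous_Sq.tendsto (q.2.2, me)).comp
      (hqm.prodMk_nhds hme)) hsmall fun l => (hSq l).1
  have hq2 : be = me := by
    apply Sq_eq_zero hEXT
    apply le_antisymm _ (Sq_nonneg _ _)
    exact le_of_tendsto_of_tendsto' ((continuous_Sq.tendsto (be, me)).comp
      (hbe.prodMk_nhds hme)) hsmall fun l => (hSq l).2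
  have hq3 : gs z v ≤ En me :=
    le_of_tendsto_of_tendsto' hsmall' ((hEc.tendsto me).comp hme) fun l => (hnl l).le
  have hqoc : q ∈ oc w := hcl.mem_of_tendsto hq
    (Eventually.of_forall fun l => subset_closure ⟨nl l, rfl⟩)
  have hFq : mr q.2.2 {a | (a, q.2) ∈ oc w} = a0 := hconst q.2 (oc_snd hqoc)
  obtain ⟨C, hC, hFC, hCm⟩ := exists_clopen q.2.2 (hfc q.2) (r := (1 + a0) / 2)
    (by rw [hFq]; linarith)
  -- the bad set
  set K : Set (Y I k) := Prod.snd '' (oc w ∩ (Prod.fst ⁻¹' Cᶜ)) with hK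
  have hKc : IsClosed K :=
    ((hcl.inter (hC.compl.1.preimage continuous_fst)).isCompact.image continuous_snd).isClosed
  have hqK : q.2 ∉ K := by
    rintro ⟨⟨a, y⟩, ⟨h1, h2⟩, h3⟩
    simp only at h3
    rw [h3] at h1
    exact h2 (hFC h1)
  have hKn : Kᶜ ∈ 𝓝 (q.2.1, q.2.2) := hKc.isOpen_compl.mem_nhds hqK
  rw [nhds_prod_eq, Filter.mem_prod_iff] at hKn
  obtain ⟨Vn, hVn, Wn, hWn, hVW⟩ := hKn
  obtain ⟨ε, hε, hεW⟩ := sq_basis q.2.2 hWn
  have hmain : ∀ᶠ l in (U : Filter ℕ), mr (act (nl l) w.2.2) Cᶜ *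
      (ε / 2 - Sq (act (nl l) bi) q.2.2) ≤ gs z v - En (act (nl l) bi) := by
    filter_upwards [hqv hVn] with l hl
    have hl' : act (nl l) w.2.1 ∈ Vn := hl
    have hbad : ∀ (a : X k) (m : PM k), (a, (w.2.1, m)) ∈ oc w → act (nl l) a ∉ C →
        ε ≤ Sq (act (nl l) m) q.2.2 := by
      intro a m ham haC
      by_contra h2
      push Not at h2
      have h3 := hεW _ h2
      have h4 : (act (nl l) w.2.1, act (nl l) m) ∈ Kᶜ := hVW ⟨hl', h3⟩
      apply h4
      exact ⟨act (nl l) (a, (w.2.1, m)), ⟨oc_act ham (nl l), haC⟩, rfl⟩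
    have hclo : IsClopen (act (nl l) ⁻¹' Cᶜ : Set (X k)) :=
      hC.compl.preimage (continuous_actX (nl l))
    obtain ⟨N₀, hN₀⟩ := clopen_win hclo
    have hev : ∀ᶠ N in (U : Filter ℕ), mr (act (nl l) w.2.2) Cᶜ *
        (ε / 2 - Sq (act (nl l) (b N)) q.2.2) ≤ gs z v - En (act (nl l) (b N)) := by
      filter_upwards [hU (eventually_ge_atTop N₀)] with N hN
      rw [mr_act _ _ hC.compl.1.measurableSet]
      exact hb N (nl l) C q.2.2 ε hC (fun a a' haa ha => hN₀ N hN a a' haa ha) hbad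
    have hcb : Tendsto (fun N => act (nl l) (b N)) (U : Filter ℕ) (𝓝 (act (nl l) bi)) :=
      ((Law.cont (nl l)).tendsto bi).comp hbi
    have hc1 : Tendsto (fun N => mr (act (nl l) w.2.2) Cᶜ *
        (ε / 2 - Sq (act (nl l) (b N)) q.2.2)) (U : Filter ℕ)
        (𝓝 (mr (act (nl l) w.2.2) Cᶜ * (ε / 2 - Sq (act (nl l) bi) q.2.2))) :=
      (((continuous_Sq.tendsto (act (nl l) bi, q.2.2)).comp
        (hcb.prodMk_nhds tendsto_const_nhds)).const_sub (ε / 2)).const_mul _
    have hc2 : Tendsto (fun N => gs z v - En (act (nl l) (b N))) (U : Filter ℕ)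
        (𝓝 (gs z v - En (act (nl l) bi))) := ((hEc.tendsto _).comp hcb).const_sub _
    exact le_of_tendsto_of_tendsto hc1 hc2 hev
  have hfin : mr q.2.2 Cᶜ * (ε / 2 - Sq be q.2.2) ≤ gs z v - En be := by
    have hc1 : Tendsto (fun l => mr (act (nl l) w.2.2) Cᶜ *
        (ε / 2 - Sq (act (nl l) bi) q.2.2)) (U : Filter ℕ)
        (𝓝 (mr q.2.2 Cᶜ * (ε / 2 - Sq be q.2.2))) :=
      (tendsto_mr hqm hC.compl).mul (((continuous_Sq.tendsto (be, q.2.2)).comp
        (hbe.prodMk_nhds tendsto_const_nhds)).const_sub (ε / 2))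
    have hc2 : Tendsto (fun l => gs z v - En (act (nl l) bi)) (U : Filter ℕ)
        (𝓝 (gs z v - En be)) := ((hEc.tendsto _).comp hbe).const_sub _
    exact le_of_tendsto_of_tendsto hc1 hc2 hmain
  rw [hq2, hq1, Sq_self] at hfin
  rw [hq1] at hCm
  have h9 : mr me Cᶜ = 1 - mr me C := mr_compl me hC.1.measurableSet
  have h10 : 0 < mr me Cᶜ := by rw [h9]; linarith
  have h11 : 0 < mr me Cᶜ * (ε / 2 - 0) := by
    apply mul_pos h10; linarith
  linarith
end Pool.Agent.Work.MP_69fea5_lc.HK.I_DRIM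

namespace Pool.Agent.Work.MP_69fea5_lc.HK

theorem DRIM_pf (hX : S_LAWX) (hV : S_LAWV) (hPM : S_LAWPM) (hPR : S_LAWPR) (hUSC : S_USC)
    (hCST : S_CONST) (hMIX : S_MIX) (hENC : S_ENC) (hVAR : S_VAR) (hGS : S_GS) (hACL : S_ACL)
    (hEXT : S_EXT) : S_DRIM :=
  I_DRIM.drim hX hV hPM hPR hUSC hCST hMIX hENC hVAR hGS hACL hEXT

end Pool.Agent.Work.MP_69fea5_lc.HK
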