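import Pool.Agent.Work.MP_69fea5_lc.HK.Calc

/-!
The smallest family closed under arithmetical operations which contains a given set is countable.
-/

set_option autoImplicit false

namespace Pool.Agent.Work.MP_69fea5_lc.HK

theorem countable_primrec : {f : ℕ → ℕ | Nat.Primrec f}.Countable := by
  classical
  refine (Set.countable_range (fun c : Nat.Partrec.Code => fun n : ℕ =>
    if h : (c.eval n).Dom then (c.eval n).get h else 0)).mono ?_
  intro f hf
  obtain ⟨c, hc⟩ := Nat.Partrec.Code.exists_code.1 (Nat.Partrec.of_primrec hf)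
  refine ⟨c, ?_⟩
  funext n
  have h1 : c.eval n = Part.some (f n) := by rw [hc]; rfl
  simp [h1]

/-- one step of the closure -/
def stp (F : Set (Set ℕ)) : Set (Set ℕ) :=
  F ∪ (((fun A : Set ℕ => Aᶜ) '' F) ∪ ((Set.image2 (fun A B : Set ℕ => A ∩ B) F F) ∪
    (((fun A : Set ℕ => {n | ∃ m, Nat.pair n m ∈ A}) '' F) ∪
      (Set.image2 (fun (A : Set ℕ) (f : ℕ → ℕ) => f ⁻¹' A) F {f | Nat.Primrec f}))))

/-- the stages of the closure of `{C, {0}}` -/
def cls (C : Set ℕ) : ℕ → Set (Set ℕ)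
  | 0 => {C, {0}}
  | n + 1 => stp (cls C n)

/-- the closure of `{C, {0}}` under arithmetical operations -/
def gen (C : Set ℕ) : Set (Set ℕ) := ⋃ n, cls C n

theorem cls_countable (C : Set ℕ) (n : ℕ) : (cls C n).Countable := by
  induction n with
  | zero => exact (Set.toFinite ({C, {0}} : Set (Set ℕ))).countable
  | succ n ih =>
    exact ih.union ((ih.image _).union ((ih.image2 ih _).union ((ih.image _).union
      (ih.image2 countable_primrec _))))

theorem gen_countable (C : Set ℕ) : (gen C).Countable :=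
  Set.countable_iUnion fun n => cls_countable C n

theorem cls_mono (C : Set ℕ) {m n : ℕ} (h : m ≤ n) : cls C m ⊆ cls C n := by
  induction n, h using Nat.le_induction with
  | base => exact subset_rfl
  | succ n _ ih => exact ih.trans fun A hA => Or.inl hA

theorem mem_gen (C : Set ℕ) : C ∈ gen C := Set.mem_iUnion.2 ⟨0, Or.inl rfl⟩

theorem gen_cl (C : Set ℕ) : Cl (gen C) where
  zero := Set.mem_iUnion.2 ⟨0, Or.inr rfl⟩
  compl A hA := by
    obtain ⟨n, hn⟩ := Set.mem_iUnion.1 hA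
    exact Set.mem_iUnion.2 ⟨n + 1, Or.inr (Or.inl ⟨A, hn, rfl⟩)⟩
  inter A hA B hB := by
    obtain ⟨n, hn⟩ := Set.mem_iUnion.1 hA
    obtain ⟨m, hm⟩ := Set.mem_iUnion.1 hB
    refine Set.mem_iUnion.2 ⟨max n m + 1, Or.inr (Or.inr (Or.inl ⟨A, ?_, B, ?_, rfl⟩))⟩
    · exact cls_mono C (le_max_left _ _) hn
    · exact cls_mono C (le_max_right _ _) hm
  proj A hA := by
    obtain ⟨n, hn⟩ := Set.mem_iUnion.1 hA
    exact Set.mem_iUnion.2 ⟨n + 1, Or.inr (Or.inr (Or.inr (Or.inl ⟨A, hn, rfl⟩)))⟩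
  preim A hA f hf := by
    obtain ⟨n, hn⟩ := Set.mem_iUnion.1 hA
    exact Set.mem_iUnion.2 ⟨n + 1, Or.inr (Or.inr (Or.inr (Or.inr ⟨A, hn, f, hf, rfl⟩)))⟩

theorem gen_subset {C : Set ℕ} {S : Set (Set ℕ)} (hS : Cl S) (hC : C ∈ S) : gen C ⊆ S := by
  refine Set.iUnion_subset fun n => ?_
  induction n with
  | zero =>
    rintro A (rfl | rfl)
    · exact hC
    · exact hS.zero
  | succ n ih =>
    rintro A (h | ⟨B, h, rfl⟩ | ⟨B, h, B', h', rfl⟩ | ⟨B, h, rfl⟩ | ⟨B, h, f, hf, rfl⟩)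
    · exact ih h
    · exact hS.compl _ (ih h)
    · exact hS.inter _ (ih h) _ (ih h')
    · exact hS.proj _ (ih h)
    · exact hS.preim _ (ih h) _ hf

/-- U2 -/
theorem exists_cl_countable (C : Set ℕ) : ∃ S : Set (Set ℕ), Cl S ∧ S.Countable ∧ C ∈ S ∧
    ∀ S', Cl S' → C ∈ S' → S ⊆ S' :=
  ⟨gen C, gen_cl C, gen_countable C, mem_gen C, fun _ h h' => gen_subset h h'⟩

end Pool.Agent.Work.MP_69fea5_lc.HK
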