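import Pool.Agent.Work.MP_69fea5_lc.HK.Calc

/-!
Definable ultrafilters over countable families closed under arithmetical operations.
-/

set_option autoImplicit false

open Filter

namespace Pool.Agent.Work.MP_69fea5_lc.HK

variable {S : Set (Set ℕ)}

/-- course of values recursion -/
theorem exists_cov {α β : Type*} (G : α → List β → β) :
    ∃ f : α → ℕ → β, ∀ a n, f a n = G a ((List.range n).map (f a)) := by
  let L : α → ℕ → List β := fun a n => n.rec [] fun _ l => l ++ [G a l]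
  have hL : ∀ a n, L a (n + 1) = L a n ++ [G a (L a n)] := fun a n => rfl
  have key : ∀ a n, L a n = (List.range n).map (fun m => G a (L a m)) := by
    intro a n
    induction n with
    | zero => rfl
    | succ n ih => rw [hL, List.range_succ, List.map_append, ← ih]; rfl
  refine ⟨fun a n => G a (L a n), fun a n => ?_⟩
  show G a (L a n) = G a ((List.range n).map fun m => G a (L a m))
  rw [← key]

/-- recursion -/
theorem exists_rec {α β : Type*} (b : α → β) (G : α → ℕ → β → β) :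
    ∃ f : α → ℕ → β, (∀ a, f a 0 = b a) ∧ ∀ a n, f a (n + 1) = G a n (f a n) :=
  ⟨fun a n => n.rec (b a) (G a), fun _ => rfl, fun _ _ => rfl⟩

/-- cohesive subsets -/
theorem Cl.coh (hS : Cl S) {A B : Set ℕ} (hA : A ∈ S) (hB : B ∈ S) (hBi : B.Infinite) :
    ∃ B' ∈ S, B' ⊆ B ∧ B'.Infinite ∧ ∀ n, (∃ z, ∀ x ∈ B', z ≤ x → Nat.pair n x ∈ A) ∨
      (∃ z, ∀ x ∈ B', z ≤ x → Nat.pair n x ∉ A) := by
  classical
  -- traces
  set TR : List Bool → ℕ → Prop := fun l x =>
    ∀ k < l.length, (l[k]? = some true ↔ Nat.pair k x ∈ A) with hTR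
  have aTR : Ar S fun p : List Bool × ℕ => TR p.1 p.2 := by
    refine Ar.ball hS (R := fun (p : List Bool × ℕ) k =>
      (p.1[k]? = some true ↔ Nat.pair k p.2 ∈ A)) ?_ (ArF.of_primrec hS
        (Primrec.list_length.comp Primrec.fst))
    refine Ar.iff hS ?_ ?_
    · exact Ar.eq hS (ArF.of_primrec hS (Primrec.list_getElem?.comp
        (Primrec.fst.comp Primrec.fst) Primrec.snd)) (ArF.const hS _)
    · exact Ar.mem hS hA (Primrec₂.natPair.comp Primrec.snd (Primrec.snd.comp Primrec.fst))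
  set Φ : List Bool → Prop := fun l => ∀ z, ∃ x, x ∈ B ∧ z ≤ x ∧ TR l x ∧
    Nat.pair l.length x ∈ A with hΦ
  have aΦ : Ar S Φ := by
    refine Ar.all hS (R := fun (l : List Bool) z => ∃ x, x ∈ B ∧ z ≤ x ∧ TR l x ∧
      Nat.pair l.length x ∈ A) ?_
    refine Ar.ex hS (R := fun (p : List Bool × ℕ) x => x ∈ B ∧ p.2 ≤ x ∧ TR p.1 x ∧
      Nat.pair p.1.length x ∈ A) ?_
    refine Ar.and hS (Ar.mem hS hB Primrec.snd) (Ar.and hS ?_ (Ar.and hS ?_ ?_))
    · exact Ar.prim hS (Primrec.nat_le.comp (Primrec.snd.comp Primrec.fst) Primrec.snd)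
    · exact aTR.comp hS (f := fun p : (List Bool × ℕ) × ℕ => (p.1.1, p.2))
        ((Primrec.fst.comp Primrec.fst).pair Primrec.snd)
    · exact Ar.mem hS hA (Primrec₂.natPair.comp (Primrec.list_length.comp
        (Primrec.fst.comp Primrec.fst)) Primrec.snd)
  -- the generic trace
  obtain ⟨e, he⟩ := exists_cov (α := Unit) fun (_ : Unit) (l : List Bool) => decide (Φ l)
  have ae : ArF S fun p : Unit × ℕ => e p.1 p.2 := by
    refine ArF.cov hS (G := fun (_ : Unit) (l : List Bool) => decide (Φ l)) ?_ he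
    refine ArF.of_exists (R := fun p b => (b = true ↔ Φ p.2)) ?_ ?_
    · refine Ar.iff hS ?_ ?_
      · exact Ar.eq hS (ArF.snd hS) (ArF.const hS _)
      · exact aΦ.comp hS (f := fun p : (Unit × List Bool) × Bool => p.1.2)
          (Primrec.snd.comp Primrec.fst)
    · rintro ⟨u, l⟩ b
      by_cases h : Φ l <;> cases b <;> simp [h]
  set E : ℕ → Bool := e () with hE
  have aE : ArF S E := (ae.comp hS (f := fun n : ℕ => ((), n)) (ArF.of_primrec hS
    ((Primrec.const ()).pair Primrec.id)))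
  set T : ℕ → ℕ → Prop := fun n x => ∀ k < n, (E k = true ↔ Nat.pair k x ∈ A) with hT
  have aT : Ar S fun p : ℕ × ℕ => T p.1 p.2 := by
    refine Ar.ball hS (R := fun (p : ℕ × ℕ) k =>
      (E k = true ↔ Nat.pair k p.2 ∈ A)) ?_ (ArF.fst hS)
    refine Ar.iff hS ?_ ?_
    · exact Ar.eq hS (aE.comp hS (ArF.snd hS)) (ArF.const hS _)
    · exact Ar.mem hS hA (Primrec₂.natPair.comp Primrec.snd (Primrec.snd.comp Primrec.fst))
  have hTT : ∀ n x, TR ((List.range n).map E) x ↔ T n x := by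
    intro n x
    simp only [hTR, hT, List.length_map, List.length_range]
    refine forall_congr' fun k => forall_congr' fun hk => ?_
    rw [List.getElem?_map, List.getElem?_range hk]
    simp
  have hEn : ∀ n, E n = true ↔ ∀ z, ∃ x, x ∈ B ∧ z ≤ x ∧ T n x ∧ Nat.pair n x ∈ A := by
    intro n
    have h1 : E n = decide (Φ ((List.range n).map E)) := he () n
    rw [h1, decide_eq_true_iff]
    simp only [hΦ, hTT, List.length_map, List.length_range]
  have claim : ∀ n z, ∃ x, x ∈ B ∧ z ≤ x ∧ T n x := by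
    intro n
    induction n with
    | zero =>
      intro z
      obtain ⟨x, hx, hzx⟩ := hBi.exists_gt z
      exact ⟨x, hx, hzx.le, fun k hk => absurd hk (Nat.not_lt_zero _)⟩
    | succ n ih =>
      intro z
      by_cases hn : E n = true
      · obtain ⟨x, hx, hzx, h1, h2⟩ := (hEn n).1 hn z
        refine ⟨x, hx, hzx, fun k hk => ?_⟩
        rcases Nat.lt_succ_iff_lt_or_eq.1 hk with h | rfl
        · exact h1 k h
        · exact ⟨fun _ => h2, fun _ => hn⟩
      · have h0 : ∃ z₀, ∀ x, x ∈ B → z₀ ≤ x → T n x → Nat.pair n x ∉ A := by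
          by_contra hc
          push Not at hc
          refine hn ((hEn n).2 fun z => ?_)
          obtain ⟨x, hx, hzx, h1, h2⟩ := hc z
          exact ⟨x, hx, hzx, h1, h2⟩
        obtain ⟨z₀, hz₀⟩ := h0
        obtain ⟨x, hx, hzx, h1⟩ := ih (max z z₀)
        refine ⟨x, hx, (le_max_left _ _).trans hzx, fun k hk => ?_⟩
        rcases Nat.lt_succ_iff_lt_or_eq.1 hk with h | rfl
        · exact h1 k h
        · exact ⟨fun h3 => absurd h3 hn, fun h3 =>
            absurd h3 (hz₀ x hx ((le_max_right _ _).trans hzx) h1)⟩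
  have hb : ∀ n, ∃ x, x ∈ B ∧ n ≤ x ∧ T n x := fun n => claim n n
  have ab : ArF S fun n => Nat.find (hb n) := by
    refine ArF.find hS (R := fun n x => x ∈ B ∧ n ≤ x ∧ T n x) ?_ hb
    exact Ar.and hS (Ar.mem hS hB Primrec.snd) (Ar.and hS (Ar.prim hS Primrec.nat_le) aT)
  refine ⟨{x | ∃ n, Nat.find (hb n) = x}, ?_, ?_, ?_, ?_⟩
  · refine Ar.set (R := fun x => ∃ n, Nat.find (hb n) = x) ?_
    refine Ar.ex hS (R := fun x n => Nat.find (hb n) = x) ?_
    exact Ar.eq hS (ab.comp hS (ArF.snd hS)) (ArF.fst hS)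
  · rintro x ⟨n, rfl⟩
    exact (Nat.find_spec (hb n)).1
  · refine Set.infinite_of_not_bddAbove ?_
    rintro ⟨m, hm⟩
    have h1 := hm (a := Nat.find (hb (m + 1))) ⟨m + 1, rfl⟩
    have h2 := (Nat.find_spec (hb (m + 1))).2.1
    omega
  · intro n
    -- all elements beyond the first `n + 1` ones have the right trace at `n`
    have key : ∀ x ∈ {x | ∃ j, Nat.find (hb j) = x},
        (∑ j ∈ Finset.range (n + 1), Nat.find (hb j)) + 1 ≤ x →
        (E n = true ↔ Nat.pair n x ∈ A) := by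
      rintro x ⟨j, rfl⟩ hx
      have hj : n < j := by
        by_contra hc
        have h1 : Nat.find (hb j) ≤ ∑ j ∈ Finset.range (n + 1), Nat.find (hb j) :=
          Finset.single_le_sum (f := fun j => Nat.find (hb j)) (fun _ _ => Nat.zero_le _)
            (Finset.mem_range.2 (by omega))
        omega
      exact (Nat.find_spec (hb j)).2.2 n hj
    by_cases hn : E n = true
    · exact Or.inl ⟨_, fun x hx hzx => (key x hx hzx).1 hn⟩
    · exact Or.inr ⟨_, fun x hx hzx h => hn ((key x hx hzx).2 h)⟩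

/-- U3 -/
theorem exists_DU (hS : Cl S) (hc : S.Countable) : ∃ U : Ultrafilter ℕ, DU S U := by
  classical
  have hu : (Set.univ : Set ℕ) ∈ S := by
    have := Ar.set (R := fun _ => True) (Ar.const hS True)
    simpa using this
  obtain ⟨s, hs⟩ := hc.exists_eq_range ⟨_, hS.zero⟩
  have hsS : ∀ k, s k ∈ S := fun k => by rw [hs]; exact ⟨k, rfl⟩
  -- one step
  have step : ∀ (k : ℕ) (B : {B : Set ℕ // B ∈ S ∧ B.Infinite}),
      ∃ B' : {B : Set ℕ // B ∈ S ∧ B.Infinite}, B'.1 ⊆ B.1 ∧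
        ∀ n, (∃ z, ∀ x ∈ B'.1, z ≤ x → Nat.pair n x ∈ s k) ∨
          (∃ z, ∀ x ∈ B'.1, z ≤ x → Nat.pair n x ∉ s k) := by
    rintro k ⟨B, hB, hBi⟩
    obtain ⟨B', h1, h2, h3, h4⟩ := hS.coh (hsS k) hB hBi
    exact ⟨⟨B', h1, h3⟩, h2, h4⟩
  choose g hg1 hg2 using step
  let B : ℕ → {B : Set ℕ // B ∈ S ∧ B.Infinite} := fun n =>
    n.rec ⟨Set.univ, hu, Set.infinite_univ⟩ fun k b => g k b
  have hBs : ∀ k, B (k + 1) = g k (B k) := fun k => rfl
  have hanti : Antitone fun k => (B k).1 := antitone_nat_of_succ_le fun k => by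
    rw [hBs]
    exact hg1 k (B k)
  set E : ℕ → Set ℕ := fun k => (B k).1 ∩ Set.Ici k with hE
  have hEanti : Antitone E := fun i j hij => Set.inter_subset_inter (hanti hij)
    (Set.Ici_subset_Ici.2 hij)
  have hEne : ∀ k, (E k).Nonempty := by
    intro k
    obtain ⟨x, hx, hkx⟩ := (B k).2.2.exists_gt k
    exact ⟨x, hx, hkx.le⟩
  have hne : (⨅ k, 𝓟 (E k)).NeBot := by
    refine iInf_neBot_of_directed ?_ fun k => principal_neBot_iff.2 (hEne k)
    intro i j
    exact ⟨max i j, principal_mono.2 (hEanti (le_max_left _ _)),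
      principal_mono.2 (hEanti (le_max_right _ _))⟩
  let U : Ultrafilter ℕ := Ultrafilter.of (⨅ k, 𝓟 (E k))
  have hU : ∀ k, E k ∈ U := fun k =>
    (Ultrafilter.of_le (⨅ k, 𝓟 (E k))) ((iInf_le (fun k => 𝓟 (E k)) k) (mem_principal_self _))
  refine ⟨U, ⟨?_, ?_⟩⟩
  · refine le_iInf fun k => ?_
    refine le_principal_iff.2 ?_
    exact Filter.mem_of_superset (hU k) Set.inter_subset_right
  · intro A hA
    rw [hs] at hA
    obtain ⟨k, rfl⟩ := hA
    have e : {n | {x | Nat.pair n x ∈ s k} ∈ U} =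
        {n | ∃ z, ∀ x, x ∈ (B (k + 1)).1 → z ≤ x → Nat.pair n x ∈ s k} := by
      ext n
      simp only [Set.mem_ofPred_eq]
      constructor
      · intro h
        rcases hg2 k (B k) n with h1 | ⟨z, h1⟩
        · exact h1
        · exfalso
          have h2 : E (max (k + 1) z) ∈ U := hU _
          obtain ⟨x, hx1, hx2⟩ := U.nonempty_of_mem (Filter.inter_mem h h2)
          have h3 : x ∈ (B (k + 1)).1 := hanti (le_max_left (k + 1) z) hx2.1
          exact h1 x (by rw [← hBs]; exact h3) ((le_max_right _ _).trans hx2.2) hx1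
      · rintro ⟨z, hz⟩
        refine Filter.mem_of_superset (hU (max (k + 1) z)) ?_
        rintro x ⟨hx1, hx2⟩
        exact hz x (hanti (le_max_left (k + 1) z) hx1) ((le_max_right _ _).trans hx2)
    rw [e]
    refine Ar.set (R := fun n => ∃ z, ∀ x, x ∈ (B (k + 1)).1 → z ≤ x → Nat.pair n x ∈ s k) ?_
    refine Ar.ex hS (R := fun n z => ∀ x, x ∈ (B (k + 1)).1 → z ≤ x → Nat.pair n x ∈ s k) ?_
    refine Ar.all hS (R := fun (p : ℕ × ℕ) x => x ∈ (B (k + 1)).1 → p.2 ≤ x →
      Nat.pair p.1 x ∈ s k) ?_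
    refine Ar.imp hS (Ar.mem hS (B (k + 1)).2.1 Primrec.snd) (Ar.imp hS ?_ ?_)
    · exact Ar.prim hS (Primrec.nat_le.comp (Primrec.snd.comp Primrec.fst) Primrec.snd)
    · exact Ar.mem hS (hsS k) (Primrec₂.natPair.comp (Primrec.fst.comp Primrec.fst) Primrec.snd)

end Pool.Agent.Work.MP_69fea5_lc.HK
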