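import Pool.Agent.Work.MP_69fea5_lc.HK.Stmts
import Pool.Agent.Work.MP_69fea5_lc.HK.Fin
import Pool.Agent.Work.MP_69fea5_lc.HK.U2
import Pool.Agent.Work.MP_69fea5_lc.HK.U3

/-!
Items URP, CTB, DU of block [69fea5 HK]: coded minimal points, countable closed families,
definable ultrafilters.
-/

set_option autoImplicit false

open Filter Topology

namespace Pool.Agent.Work.MP_69fea5_lc.HK

theorem CTB_pf : S_CTB := fun _ hS A hA =>
  ⟨gen A, gen_subset hS hA, gen_cl A, gen_countable A, mem_gen A⟩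

theorem DU_pf : S_DU := fun _ hS hc => exists_DU hS hc

section URP

variable {α : Type} [TopologicalSpace α] [Dat α] [Law α]

/-- the list `F` of balls can be avoided -/
def Free (w : α) (F : List (ℤ × ℕ)) : Prop := ∀ l : ℕ, ∃ p : ℕ, l ≤ p ∧
  ∀ m : ℤ, m.natAbs ≤ l → ∀ e ∈ F, ¬ near e.2 (act e.1 w) (act ((p : ℤ) + m) w)

omit [TopologicalSpace α] [Law α] in
theorem Free.anti {w : α} {F F' : List (ℤ × ℕ)} (h : Free w F') (hF : F ⊆ F') : Free w F := by
  intro l
  obtain ⟨p, hp, h1⟩ := h l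
  exact ⟨p, hp, fun m hm e he => h1 m hm e (hF he)⟩

omit [TopologicalSpace α] [Law α] in
theorem Free.nil (w : α) : Free w [] := fun l => ⟨l, le_rfl, fun _ _ e he => by simp at he⟩

end URP

theorem URP_pf : S_URP := by
  classical
  intro S U hS hU α _ _ _ _ _ _ w hw
  -- definability of `near`
  have hw1 : sc S (fun q : ℤ => act q w) := by
    have h1 : sc S (fun p : Unit × ℤ => act p.2 w) := LawC.sc_act S Unit (fun _ => w) hS hw
    exact LawC.sc_comp S (Unit × ℤ) ℤ (fun p : Unit × ℤ => act p.2 w) (fun q => ((), q)) hS h1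
      (ArF.of_primrec hS ((Primrec.const ()).pair Primrec.id))
  have aN : Ar S fun p : ℕ × ℤ × ℤ => near p.1 (act p.2.1 w) (act p.2.2 w) := by
    refine LawC.sc_near S (ℤ × ℤ) (fun p => act p.1 w) (fun p => act p.2 w) hS ?_ ?_
    · exact LawC.sc_comp S ℤ (ℤ × ℤ) (fun q => act q w) (fun p => p.1) hS hw1 (ArF.fst hS)
    · exact LawC.sc_comp S ℤ (ℤ × ℤ) (fun q => act q w) (fun p => p.2) hS hw1 (ArF.snd hS)
  -- the condition for one shift
  have aC : Ar S fun q : (List (ℤ × ℕ) × ℕ) × ℕ => q.1.2 ≤ q.2 ∧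
      ∀ m : ℤ, m.natAbs ≤ q.1.2 → ∀ e ∈ q.1.1, ¬ near e.2 (act e.1 w)
        (act ((q.2 : ℤ) + m) w) := by
    refine Ar.and hS (Ar.le hS ((ArF.snd hS).comp hS (ArF.fst hS)) (ArF.snd hS)) ?_
    refine Ar.ballInt hS (R := fun (q : (List (ℤ × ℕ) × ℕ) × ℕ) m => ∀ e ∈ q.1.1,
      ¬ near e.2 (act e.1 w) (act ((q.2 : ℤ) + m) w)) ?_ ((ArF.snd hS).comp hS (ArF.fst hS))
    refine Ar.ballList hS (R := fun (q : ((List (ℤ × ℕ) × ℕ) × ℕ) × ℤ) (e : ℤ × ℕ) =>
      ¬ near e.2 (act e.1 w) (act ((q.1.2 : ℤ) + q.2) w)) ?_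
      ((ArF.fst hS).comp hS ((ArF.fst hS).comp hS (ArF.fst hS)))
    refine Ar.not hS ?_
    refine aN.sub hS (f := fun q : (((List (ℤ × ℕ) × ℕ) × ℕ) × ℤ) × (ℤ × ℕ) =>
      (q.2.2, q.2.1, (q.1.1.2 : ℤ) + q.1.2)) ?_
    refine ArF.pair hS (ArF.of_primrec hS (Primrec.snd.comp Primrec.snd)) (ArF.pair hS
      (ArF.of_primrec hS (Primrec.fst.comp Primrec.snd)) ?_)
    exact ArF.intAdd hS (ArF.of_primrec hS (primrec_natCast.comp
      (Primrec.snd.comp (Primrec.fst.comp Primrec.fst))))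
      (ArF.of_primrec hS (Primrec.snd.comp Primrec.fst))
  have aF : Ar S fun F : List (ℤ × ℕ) => Free w F := by
    refine Ar.all hS (R := fun (F : List (ℤ × ℕ)) (l : ℕ) => ∃ p : ℕ, l ≤ p ∧
      ∀ m : ℤ, m.natAbs ≤ l → ∀ e ∈ F, ¬ near e.2 (act e.1 w) (act ((p : ℤ) + m) w)) ?_
    exact Ar.ex hS (R := fun (q : List (ℤ × ℕ) × ℕ) (p : ℕ) => q.2 ≤ p ∧
      ∀ m : ℤ, m.natAbs ≤ q.2 → ∀ e ∈ q.1, ¬ near e.2 (act e.1 w) (act ((p : ℤ) + m) w)) aC
  -- the greedy list
  set en : ℕ → ℤ × ℕ := fun n => (Encodable.decode (α := ℤ × ℕ) n).getD (0, 0) with hen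
  have pen : Primrec en := Primrec.option_getD.comp Primrec.decode (Primrec.const (0, 0))
  have sen : ∀ e : ℤ × ℕ, ∃ n, en n = e := fun e => ⟨Encodable.encode e, by
    show (Encodable.decode (α := ℤ × ℕ) (Encodable.encode e)).getD (0, 0) = e
    rw [Encodable.encodek]
    rfl⟩
  obtain ⟨FF, hF0, hFs⟩ := exists_rec (α := Unit) (fun _ => ([] : List (ℤ × ℕ)))
    fun _ n F => if Free w (en n :: F) then en n :: F else F
  have aFF : ArF S fun p : Unit × ℕ => FF p.1 p.2 := by
    refine ArF.rec hS (b := fun _ => ([] : List (ℤ × ℕ))) (ArF.const hS _)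
      (G := fun _ n F => if Free w (en n :: F) then en n :: F else F) ?_ hF0 hFs
    have h1 : Primrec fun p : Unit × ℕ × List (ℤ × ℕ) => en p.2.1 :: p.2.2 :=
      Primrec.list_cons.comp (pen.comp (Primrec.fst.comp Primrec.snd))
        (Primrec.snd.comp Primrec.snd)
    exact ArF.ite hS (P := fun p : Unit × ℕ × List (ℤ × ℕ) => Free w (en p.2.1 :: p.2.2))
      (aF.comp hS h1) (ArF.of_primrec hS h1) (ArF.of_primrec hS (Primrec.snd.comp Primrec.snd))
  set F : ℕ → List (ℤ × ℕ) := FF () with hFdef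
  have aFn : ArF S F := aFF.comp hS (f := fun n : ℕ => ((), n)) (ArF.of_primrec hS
    ((Primrec.const ()).pair Primrec.id))
  have hsucc : ∀ n, F (n + 1) = if Free w (en n :: F n) then en n :: F n else F n := hFs ()
  have hfree : ∀ n, Free w (F n) := by
    intro n
    induction n with
    | zero => rw [hFdef, hF0]; exact Free.nil w
    | succ n ih =>
      rw [hsucc]
      split_ifs with h
      · exact h
      · exact ih
  have hmono1 : ∀ n, F n ⊆ F (n + 1) := by
    intro n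
    rw [hsucc]
    split_ifs with h
    · exact List.subset_cons_self _ _
    · exact List.Subset.refl _
  have hmono : ∀ m n, m ≤ n → F m ⊆ F n := by
    intro m n h
    induction n, h using Nat.le_induction with
    | base => exact List.Subset.refl _
    | succ n _ ih => exact List.Subset.trans ih (hmono1 n)
  -- the shifts
  obtain ⟨b, ab, hb⟩ := Ar.choose hS (R := fun (l p : ℕ) => l ≤ p ∧ ∀ m : ℤ, m.natAbs ≤ l →
      ∀ e ∈ F l, ¬ near e.2 (act e.1 w) (act ((p : ℤ) + m) w))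
    (aC.sub hS (f := fun q : ℕ × ℕ => ((F q.1, q.1), q.2))
      (((aFn.comp hS (ArF.fst hS)).pair hS (ArF.fst hS)).pair hS (ArF.snd hS)))
    (fun l => hfree l l)
  -- the limit
  obtain ⟨w', -, hw'⟩ := isCompact_univ.ultrafilter_le_nhds
    (U.map fun n => act (b n : ℤ) w) (by simp)
  have hlim : Tendsto (fun n => act (b n : ℤ) w) (U : Filter ℕ) (𝓝 w') := hw'
  refine ⟨b, w', fun n => (hb n).1, hlim, ?_, ?_⟩
  swap
  · refine LawC.sc_lim S U Unit (fun p => act (b p.2 : ℤ) w) (fun _ => w') hS hU ?_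
      (fun _ => hlim)
    exact LawC.sc_comp S ℤ (Unit × ℕ) (fun q => act q w) (fun p => (b p.2 : ℤ)) hS hw1
      ((ab.comp hS (ArF.snd hS)).natCast hS)
  -- minimality
  intro w'' hw''
  by_contra hnot
  have hopen : ∀ (L : ℕ) (x : α), {y | near L x y} ∈ 𝓝 x := by
    intro L x
    have h1 : IsOpen {y | near L x y} :=
      (Law.near_open L).preimage (f := fun y => (x, y)) (by fun_prop)
    exact h1.mem_nhds (Law.near_refl L x)
  have hcl : IsClosed (oc w'') := isClosed_closure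
  obtain ⟨L, hL⟩ := Law.near_basis w' _ (hcl.isOpen_compl.mem_nhds hnot)
  have hfar : ∀ m : ℤ, ¬ near L w' (act m w'') := by
    intro m h
    exact hL _ h (subset_closure ⟨m, rfl⟩)
  -- a shift of `w` near `w'`
  set r := 2 * (2 * L + 1) + 1 with hr
  obtain ⟨l₀, hl₀⟩ := (hlim.eventually (hopen r w')).exists
  obtain ⟨i, hi⟩ := sen ((b l₀ : ℤ), r)
  have hE : Free w (en i :: F i) := by
    intro l
    -- a shift of `w'` near `w''` on a long window
    have hnb : {y | ∀ m ∈ Finset.Icc (-(l : ℤ)) l, near r (act m w'') (act m y)} ∈ 𝓝 w'' := by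
      rw [← Set.mem_ofPred_eq (p := fun s => s ∈ 𝓝 w'')]
      show _ ∈ 𝓝 w''
      have h1 : (⋂ m ∈ Finset.Icc (-(l : ℤ)) l, {y | near r (act m w'') (act m y)}) ∈ 𝓝 w'' := by
        refine (Filter.biInter_finset_mem _).2 fun m _ => ?_
        exact (Law.cont m).continuousAt.preimage_mem_nhds (hopen r (act m w''))
      refine Filter.mem_of_superset h1 fun y hy => ?_
      intro m hm
      exact Set.mem_iInter₂.1 hy m hm
    have hop : IsOpen {y | ∀ m ∈ Finset.Icc (-(l : ℤ)) l, near r (act m w'') (act m y)} := by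
      have h1 : {y | ∀ m ∈ Finset.Icc (-(l : ℤ)) l, near r (act m w'') (act m y)} =
          ⋂ m ∈ Finset.Icc (-(l : ℤ)) l, {y | near r (act m w'') (act m y)} := by
        ext y
        simp
      rw [h1]
      refine isOpen_biInter_finset fun m _ => ?_
      exact (Law.near_open r).preimage (f := fun y => (act m w'', act m y))
        (Continuous.prodMk continuous_const (Law.cont m))
    obtain ⟨_, hy, ⟨k, rfl⟩⟩ := mem_closure_iff_nhds.1 hw'' _ hnb
    have hev : ∀ᶠ n in (U : Filter ℕ), act k (act (b n : ℤ) w) ∈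
        {y | ∀ m ∈ Finset.Icc (-(l : ℤ)) l, near r (act m w'') (act m y)} :=
      (((Law.cont k).tendsto w').comp hlim).eventually (hop.mem_nhds hy)
    have hge : ∀ᶠ n : ℕ in (U : Filter ℕ), i + l + k.natAbs ≤ n :=
      hU.top (eventually_ge_atTop _)
    obtain ⟨n, hn, hnge⟩ := (hev.and hge).exists
    have hbn := (hb n).1
    have hpk : ((b n : ℤ) + k).toNat = (b n : ℤ) + k := Int.toNat_of_nonneg (by omega)
    refine ⟨((b n : ℤ) + k).toNat, by omega, fun m hm e he => ?_⟩
    rw [hpk]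
    rcases List.mem_cons.1 he with rfl | he
    · rw [hi]
      intro hnear
      have h1 : near r (act m w'') (act ((b n : ℤ) + k + m) w) := by
        have := hn m (Finset.mem_Icc.2 ⟨by omega, by omega⟩)
        rw [← Law.act_add, ← Law.act_add] at this
        have e1 : m + k + (b n : ℤ) = (b n : ℤ) + k + m := by ring
        rwa [e1] at this
      have h2 : near (2 * L + 1) w' (act ((b n : ℤ) + k + m) w) :=
        Law.near_tri (2 * L + 1) _ _ _ hl₀ hnear
      have h3 : near (2 * L + 1) (act ((b n : ℤ) + k + m) w) (act m w'') :=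
        Law.near_mono (2 * L + 1) r _ _ (by omega) (Law.near_symm _ _ _ h1)
      exact hfar m (Law.near_tri L _ _ _ h2 h3)
    · have := (hb n).2 (k + m) (by omega) e (hmono i n (by omega) he)
      rwa [← add_assoc] at this
  -- the ball is forbidden
  have hmem : ((b l₀ : ℤ), r) ∈ F (i + 1) := by
    rw [hsucc, if_pos hE, hi]
    exact List.mem_cons_self
  have hev : ∀ᶠ n in (U : Filter ℕ), ¬ near r (act (b l₀ : ℤ) w) (act (b n : ℤ) w) := by
    filter_upwards [hU.top (eventually_ge_atTop (i + 1))] with n hn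
    have := (hb n).2 0 (by simp) _ (hmono (i + 1) n hn hmem)
    simpa using this
  have hev2 : ∀ᶠ n in (U : Filter ℕ), near r (act (b l₀ : ℤ) w) (act (b n : ℤ) w) := by
    have h1 : IsOpen {y | near r (act (b l₀ : ℤ) w) y} :=
      (Law.near_open r).preimage (f := fun y => (act (b l₀ : ℤ) w, y)) (by fun_prop)
    exact hlim.eventually (h1.mem_nhds (Law.near_symm _ _ _ hl₀))
  obtain ⟨n, hn1, hn2⟩ := (hev.and hev2).exists
  exact hn1 hn2

end Pool.Agent.Work.MP_69fea5_lc.HK
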