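import Pool.Agent.Work.MP_69fea5_lc.HK.Dyn

/-!
Block [69fea5 HK]: the topological laws for letters, cubes and products.
-/

set_option autoImplicit false
set_option linter.unusedSectionVars false
set_option linter.deprecated false

open Filter Topology MeasureTheory

namespace Pool.Agent.Work.MP_69fea5_lc.HK

/-- finite intersections of coordinate conditions -/
theorem isOpen_near_aux {A B : Type} [TopologicalSpace A] (R : ℤ → B → A → A → Prop)
    (F : Finset B) (L : ℤ) (β : Type) [TopologicalSpace β] (f g : ℤ → B → β → A)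
    (h : ∀ t b, IsOpen {p : β | R t b (f t b p) (g t b p)}) :
    IsOpen {p : β | ∀ t : ℤ, |t| ≤ L → ∀ b ∈ F, R t b (f t b p) (g t b p)} := by
  have e : {p : β | ∀ t : ℤ, |t| ≤ L → ∀ b ∈ F, R t b (f t b p) (g t b p)} =
      ⋂ t ∈ Finset.Icc (-L) L, ⋂ b ∈ F, {p : β | R t b (f t b p) (g t b p)} := by
    ext p
    simp only [Set.mem_setOf_eq, Set.mem_iInter, Finset.mem_Icc, abs_le]
  rw [e]
  exact isOpen_biInter_finset fun t _ => isOpen_biInter_finset fun b _ => h t b

instance lawX (k : ℕ) : Law (X k) where
  act_zero x := by funext t; show x (t + 0) = x t; rw [add_zero]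
  act_add m n x := by
    funext t
    show x (t + (m + n)) = x (t + m + n)
    rw [add_assoc]
  cont n := continuous_actX n
  near_open L := by
    have h := isOpen_near_aux (A := Fin k) (B := Unit) (fun _ _ a b => a = b) {()} (L : ℤ)
      (X k × X k) (fun t _ p => p.1 t) (fun t _ p => p.2 t) (fun t _ => by
        have hc : Continuous fun p : X k × X k => (p.1 t, p.2 t) :=
          ((continuous_apply t).comp continuous_fst).prodMk
            ((continuous_apply t).comp continuous_snd)
        exact (isOpen_discrete {q : Fin k × Fin k | q.1 = q.2}).preimage hc)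
    convert h using 1
    ext p
    simp [near]
  near_refl L x t _ := rfl
  near_symm L x y h t ht := (h t ht).symm
  near_tri L x y z h h' t ht := by
    have ht' : |t| ≤ ((2 * L + 1 : ℕ) : ℤ) := by push_cast; omega
    exact (h t ht').trans (h' t ht')
  near_mono L L' x y hL h t ht := h t (ht.trans (by exact_mod_cast hL))
  near_lim L p hp := by
    intro t ht
    have hc : Continuous fun p : X k × X k => (p.1 t, p.2 t) :=
      ((continuous_apply t).comp continuous_fst).prodMk
        ((continuous_apply t).comp continuous_snd)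
    have hcl : IsClosed {q : X k × X k | q.1 t = q.2 t} :=
      (isClosed_discrete {q : Fin k × Fin k | q.1 = q.2}).preimage hc
    have : p ∈ {q : X k × X k | q.1 t = q.2 t} := by
      refine closure_minimal ?_ hcl hp
      intro q hq
      exact hq t (ht.trans (by push_cast; omega))
    exact this
  near_basis x U hU := by
    rw [nhds_pi, Filter.mem_pi] at hU
    obtain ⟨J, hJ, s, hs, hsub⟩ := hU
    obtain ⟨L, hL⟩ : ∃ L : ℕ, ∀ t ∈ J, |t| ≤ (L : ℤ) := by
      refine ⟨hJ.toFinset.sup fun t => t.natAbs, fun t ht => ?_⟩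
      have := Finset.le_sup (f := fun t : ℤ => t.natAbs) (hJ.mem_toFinset.2 ht)
      rw [Int.abs_eq_natAbs]
      exact_mod_cast this
    refine ⟨L, fun y hy => hsub fun t ht => ?_⟩
    rw [← hy t (hL t ht)]
    exact mem_of_mem_nhds (hs t)

instance lawPR (α β : Type) [TopologicalSpace α] [TopologicalSpace β] [Dat α] [Dat β]
    [Law α] [Law β] : Law (α × β) where
  act_zero x := Prod.ext (Law.act_zero x.1) (Law.act_zero x.2)
  act_add m n x := Prod.ext (Law.act_add m n x.1) (Law.act_add m n x.2)
  cont n := ((Law.cont n).comp continuous_fst).prodMk ((Law.cont n).comp continuous_snd)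
  near_open L := by
    have h1 : IsOpen {p : (α × β) × (α × β) | near L p.1.1 p.2.1} :=
      (Law.near_open (α := α) L).preimage
        ((continuous_fst.comp continuous_fst).prodMk (continuous_fst.comp continuous_snd))
    have h2 : IsOpen {p : (α × β) × (α × β) | near L p.1.2 p.2.2} :=
      (Law.near_open (α := β) L).preimage
        ((continuous_snd.comp continuous_fst).prodMk (continuous_snd.comp continuous_snd))
    exact h1.inter h2
  near_refl L x := ⟨Law.near_refl L x.1, Law.near_refl L x.2⟩
  near_symm L x y h := ⟨Law.near_symm L _ _ h.1, Law.near_symm L _ _ h.2⟩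
  near_tri L x y z h h' := ⟨Law.near_tri L _ _ _ h.1 h'.1, Law.near_tri L _ _ _ h.2 h'.2⟩
  near_mono L L' x y hL h := ⟨Law.near_mono L L' _ _ hL h.1, Law.near_mono L L' _ _ hL h.2⟩
  near_lim L p hp := by
    refine ⟨Law.near_lim L (p.1.1, p.2.1) ?_, Law.near_lim L (p.1.2, p.2.2) ?_⟩
    · exact map_mem_closure (f := fun p : (α × β) × (α × β) => (p.1.1, p.2.1))
        ((continuous_fst.comp continuous_fst).prodMk (continuous_fst.comp continuous_snd)) hp
        fun q hq => hq.1
    · exact map_mem_closure (f := fun p : (α × β) × (α × β) => (p.1.2, p.2.2))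
        ((continuous_snd.comp continuous_fst).prodMk (continuous_snd.comp continuous_snd)) hp
        fun q hq => hq.2
  near_basis x U hU := by
    obtain ⟨A, hA, B, hB, hsub⟩ := mem_nhds_prod_iff.1 hU
    obtain ⟨L, hL⟩ := Law.near_basis x.1 A hA
    obtain ⟨L', hL'⟩ := Law.near_basis x.2 B hB
    refine ⟨max L L', fun y hy => hsub ⟨?_, ?_⟩⟩
    · exact hL _ (Law.near_mono _ _ _ _ (le_max_left _ _) hy.1)
    · exact hL' _ (Law.near_mono _ _ _ _ (le_max_right _ _) hy.2)

open Classical in
/-- elements with code at most `L` -/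
noncomputable def cle (I : Type) [Primcodable I] (L : ℕ) : Finset I :=
  (Finset.range (L + 1)).biUnion fun n => (Encodable.decode (α := I) n).toFinset

theorem mem_cle {I : Type} [Primcodable I] {L : ℕ} {i : I} : i ∈ cle I L ↔
    ∃ n ≤ L, Encodable.decode (α := I) n = some i := by
  simp [cle, Option.mem_toFinset, Nat.lt_succ_iff]

theorem mem_cle_of {I : Type} [Primcodable I] {L : ℕ} {i : I} (h : Encodable.encode i ≤ L) :
    i ∈ cle I L := mem_cle.2 ⟨_, h, Encodable.encodek i⟩

open Classical in
/-- elements with code at most `L`, exactly -/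
noncomputable def cle' (I : Type) [Primcodable I] (L : ℕ) : Finset I :=
  (cle I L).filter fun i => Encodable.encode i ≤ L

theorem mem_cle' {I : Type} [Primcodable I] {L : ℕ} {i : I} :
    i ∈ cle' I L ↔ Encodable.encode i ≤ L := by
  classical
  unfold cle'
  rw [Finset.mem_filter]
  exact ⟨fun h => h.2, fun h => ⟨mem_cle_of h, h⟩⟩

/-- auxiliary laws for spaces with real coordinates -/
theorem real_near_tri {L : ℕ} {a b c : ℝ} (h : |a - b| < 1 / ((2 * L + 1 : ℕ) + 1 : ℝ))
    (h' : |b - c| < 1 / ((2 * L + 1 : ℕ) + 1 : ℝ)) : |a - c| < 1 / (L + 1) := by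
  have h1 : (1 : ℝ) / ((2 * L + 1 : ℕ) + 1 : ℝ) = 1 / (L + 1) / 2 := by
    push_cast
    rw [div_div]
    congr 1
    ring
  rw [h1] at h h'
  calc |a - c| = |(a - b) + (b - c)| := by ring_nf
    _ ≤ |a - b| + |b - c| := abs_add_le _ _
    _ < 1 / (L + 1) := by linarith

theorem real_near_mono {L L' : ℕ} {a : ℝ} (hL : L ≤ L') (h : a < 1 / (L' + 1 : ℝ)) :
    a < 1 / (L + 1 : ℝ) := by
  refine h.trans_le (one_div_le_one_div_of_le (by positivity) ?_)
  have : (L : ℝ) ≤ L' := by exact_mod_cast hL
  linarith

theorem real_near_lim {L : ℕ} {a : ℝ} (h : a ≤ 1 / ((L + 1 : ℕ) + 1 : ℝ)) :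
    a < 1 / (L + 1 : ℝ) := by
  refine h.trans_lt (one_div_lt_one_div_of_lt (by positivity) ?_)
  push_cast
  linarith

instance lawV (I : Type) [Primcodable I] : Law (V I) where
  act_zero x := by funext t; show x (t + 0) = x t; rw [add_zero]
  act_add m n x := by
    funext t
    show x (t + (m + n)) = x (t + m + n)
    rw [add_assoc]
  cont n := continuous_pi fun t => continuous_apply (t + n)
  near_open L := by
    have h := isOpen_near_aux (A := unitInterval) (B := I)
      (fun _ _ a b => |(a : ℝ) - b| < 1 / ((L : ℝ) + 1)) (cle' I L) (L : ℤ)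
      (V I × V I) (fun t i p => p.1 t i) (fun t i p => p.2 t i) (fun t i => by
        have h1 : Continuous fun p : V I × V I => |((p.1 t i : unitInterval) : ℝ) - p.2 t i| := by
          fun_prop
        exact isOpen_lt h1 continuous_const)
    convert h using 1
    ext p
    simp only [near, Set.mem_setOf_eq, mem_cle']
  near_refl L x t _ i _ := by
    simp only [sub_self, abs_zero]
    positivity
  near_symm L x y h t ht i hi := by
    rw [abs_sub_comm]
    exact h t ht i hi
  near_tri L x y z h h' t ht i hi := by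
    have ht' : |t| ≤ ((2 * L + 1 : ℕ) : ℤ) := by push_cast; omega
    exact real_near_tri (h t ht' i (by omega)) (h' t ht' i (by omega))
  near_mono L L' x y hL h t ht i hi :=
    real_near_mono hL (h t (ht.trans (by exact_mod_cast hL)) i (hi.trans hL))
  near_lim L p hp := by
    intro t ht i hi
    apply real_near_lim
    have hc : Continuous fun p : V I × V I => |((p.1 t i : unitInterval) : ℝ) - p.2 t i| := by
      fun_prop
    have hcl : IsClosed {q : V I × V I |
        |((q.1 t i : unitInterval) : ℝ) - q.2 t i| ≤ 1 / ((L + 1 : ℕ) + 1 : ℝ)} :=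
      isClosed_le hc continuous_const
    refine closure_minimal ?_ hcl hp
    intro q hq
    exact (hq t (ht.trans (by push_cast; omega)) i (hi.trans (by omega))).le
  near_basis x U hU := by
    rw [nhds_pi, Filter.mem_pi] at hU
    obtain ⟨J, hJ, s, hs, hsub⟩ := hU
    have h1 : ∀ t : ℤ, ∃ L : ℕ, ∀ y : I → unitInterval, (∀ i : I, Encodable.encode i ≤ L →
        |((x t i : unitInterval) : ℝ) - y i| < 1 / ((L : ℝ) + 1)) → y ∈ s t := by
      intro t
      have h2 := hs t
      rw [nhds_pi, Filter.mem_pi] at h2
      obtain ⟨J', hJ', s', hs', hsub'⟩ := h2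
      have h3 : ∀ i : I, ∃ L : ℕ, ∀ r : unitInterval,
          |((x t i : unitInterval) : ℝ) - r| < 1 / ((L : ℝ) + 1) → r ∈ s' i := by
        intro i
        obtain ⟨ε, hε, hball⟩ := Metric.mem_nhds_iff.1 (hs' i)
        obtain ⟨L, hL⟩ := exists_nat_one_div_lt hε
        refine ⟨L, fun r hr => hball ?_⟩
        rw [Metric.mem_ball, dist_comm]
        exact hr.trans hL
      choose f hf using h3
      refine ⟨hJ'.toFinset.sup fun i => max (f i) (Encodable.encode i), fun y hy =>
        hsub' fun i hi => ?_⟩
      have h4 := Finset.le_sup (f := fun i => max (f i) (Encodable.encode i))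
        (hJ'.mem_toFinset.2 hi)
      have h5 : f i ≤ hJ'.toFinset.sup fun i => max (f i) (Encodable.encode i) :=
        (le_max_left _ _).trans h4
      have h6 : Encodable.encode i ≤ hJ'.toFinset.sup fun i => max (f i) (Encodable.encode i) :=
        (le_max_right _ _).trans h4
      exact hf i _ (real_near_mono h5 (hy i h6))
    choose f hf using h1
    refine ⟨hJ.toFinset.sup fun t => max (f t) t.natAbs, fun y hy => hsub fun t ht => ?_⟩
    have h4 := Finset.le_sup (f := fun t : ℤ => max (f t) t.natAbs) (hJ.mem_toFinset.2 ht)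
    have h5 : f t ≤ hJ.toFinset.sup fun t => max (f t) t.natAbs := (le_max_left _ _).trans h4
    have h6 : t.natAbs ≤ hJ.toFinset.sup fun t => max (f t) t.natAbs :=
      (le_max_right _ _).trans h4
    refine hf t _ fun i hi => ?_
    have h7 : |t| ≤ ((hJ.toFinset.sup fun t => max (f t) t.natAbs : ℕ) : ℤ) := by
      rw [Int.abs_eq_natAbs]
      exact_mod_cast h6
    exact real_near_mono h5 (hy t h7 i (hi.trans h5))

end Pool.Agent.Work.MP_69fea5_lc.HK
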