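import Pool.Agent.Work.MP_69fea5_lc.HK.Defs

/-!
Block [69fea5 HK]: coded dynamical spaces, pre-stages and stages.
-/

set_option autoImplicit false

open Filter Topology MeasureTheory

namespace Pool.Agent.Work.MP_69fea5_lc.HK

/-! ### coded dynamical spaces -/

/-- data of a coded dynamical space: the shift, approximate equality, coded families -/
class Dat (α : Type) where
  act : ℤ → α → α
  near : ℕ → α → α → Prop
  sc : Set (Set ℕ) → ∀ {β : Type} [Primcodable β], (β → α) → Prop

export Dat (act near sc)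

/-- laws of a coded dynamical space -/
class Law (α : Type) [TopologicalSpace α] [Dat α] : Prop where
  act_zero : ∀ x : α, act 0 x = x
  act_add : ∀ (m n : ℤ) (x : α), act (m + n) x = act m (act n x)
  cont : ∀ n : ℤ, Continuous (act n : α → α)
  near_open : ∀ L : ℕ, IsOpen {p : α × α | near L p.1 p.2}
  near_refl : ∀ (L : ℕ) (x : α), near L x x
  near_symm : ∀ (L : ℕ) (x y : α), near L x y → near L y x
  near_tri : ∀ (L : ℕ) (x y z : α), near (2 * L + 1) x y → near (2 * L + 1) y z → near L x z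
  near_mono : ∀ (L L' : ℕ) (x y : α), L ≤ L' → near L' x y → near L x y
  near_lim : ∀ (L : ℕ) (p : α × α), p ∈ closure {p : α × α | near (L + 1) p.1 p.2} → near L p.1 p.2
  near_basis : ∀ (x : α), ∀ U ∈ 𝓝 x, ∃ L : ℕ, ∀ y, near L x y → y ∈ U

/-- laws of coded families -/
class LawC (α : Type) [TopologicalSpace α] [Dat α] : Prop where
  sc_comp : ∀ (S : Set (Set ℕ)) (β γ : Type) [Primcodable β] [Primcodable γ] (w : β → α)
    (f : γ → β), Cl S → sc S w → ArF S f → sc S (fun c => w (f c))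
  sc_act : ∀ (S : Set (Set ℕ)) (β : Type) [Primcodable β] (w : β → α), Cl S → sc S w →
    sc S (fun p : β × ℤ => act p.2 (w p.1))
  sc_lim : ∀ (S : Set (Set ℕ)) (U : Ultrafilter ℕ) (β : Type) [Primcodable β] (w : β × ℕ → α)
    (x : β → α), Cl S → DU S U → sc S w →
    (∀ b, Tendsto (fun n => w (b, n)) (U : Filter ℕ) (𝓝 (x b))) → sc S x
  sc_near : ∀ (S : Set (Set ℕ)) (β : Type) [Primcodable β] (w w' : β → α), Cl S → sc S w →
    sc S w' → Ar S (fun p : ℕ × β => near p.1 (w p.2) (w' p.2))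

/-- the point `w` is in `S` -/
def Pt (S : Set (Set ℕ)) {α : Type} [Dat α] (w : α) : Prop := sc S (fun _ : Unit => w)

instance datProd {α β : Type} [Dat α] [Dat β] : Dat (α × β) where
  act n p := (act n p.1, act n p.2)
  near L p q := near L p.1 q.1 ∧ near L p.2 q.2
  sc S _ _ w := sc S (fun c => (w c).1) ∧ sc S (fun c => (w c).2)

/-- sequences of letters -/
abbrev X (k : ℕ) : Type := ℤ → Fin k

instance datX {k : ℕ} : Dat (X k) where
  act n z t := z (t + n)
  near L z z' := ∀ t : ℤ, |t| ≤ (L : ℤ) → z t = z' t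
  sc S β _ w := ArF S (fun p : β × ℤ => w p.1 p.2)

/-- sequences of points of the cube -/
abbrev V (I : Type) : Type := ℤ → I → unitInterval

instance datV {I : Type} [Primcodable I] : Dat (V I) where
  act n v t := v (t + n)
  near L v v' := ∀ t : ℤ, |t| ≤ (L : ℤ) → ∀ i : I, Encodable.encode i ≤ L →
    |(v t i : ℝ) - v' t i| < 1 / (L + 1)
  sc S β _ w := ArR S (fun p : β × ℤ × I => (w p.1 p.2.1 p.2.2 : ℝ))

/-- pointed words: lists of constraints -/
abbrev C (k : ℕ) : Type := List (ℤ × Fin k)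

/-- the cylinder of a word -/
def cyl {k : ℕ} (P : C k) : Set (X k) := {z | ∀ p ∈ P, z p.1 = p.2}

/-- probability measures -/
abbrev PM (k : ℕ) : Type := ProbabilityMeasure (X k)

theorem continuous_actX {k : ℕ} (n : ℤ) : Continuous (act n : X k → X k) :=
  continuous_pi fun t => continuous_apply (t + n)

/-- measure of a set as a real number -/
noncomputable def mr {k : ℕ} (m : PM k) (A : Set (X k)) : ℝ := (m : Measure (X k)).real A

noncomputable instance datPM {k : ℕ} : Dat (PM k) where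
  act n m := m.map (continuous_actX n).measurable.aemeasurable
  near L m m' := ∀ P : C k, Encodable.encode P ≤ L → |mr m (cyl P) - mr m' (cyl P)| < 1 / (L + 1)
  sc S β _ w := ArR S (fun p : β × C k => mr (w p.1) (cyl p.2))

section generic

variable {α : Type} [TopologicalSpace α] [Dat α]

/-- orbit closure -/
def oc (w : α) : Set α := closure (Set.range fun n : ℤ => act n w)

/-- the orbit closure of `w` is minimal -/
def Mn (w : α) : Prop := ∀ w' ∈ oc w, w ∈ oc w'

end generic

/-- the system of the parameters of a stage -/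
abbrev Y (I : Type) (k : ℕ) : Type := V I × PM k

/-- an open set which is recognised on coded sequences -/
def SO (S : Set (Set ℕ)) {I : Type} [Primcodable I] (O : Set (V I)) : Prop :=
  IsOpen O ∧ ∀ (β : Type) [Primcodable β] (w : β → V I), sc S w → Ar S (fun b => w b ∈ O)

/-- pre-stages -/
structure Pre (S : Set (Set ℕ)) {k : ℕ} (c : X k) (I : Type) [Primcodable I] (z : X k)
    (v v₀ : V I) (O : Set (V I)) (D : Finset (Fin k)) : Prop where
  scz : Pt S z
  scv : Pt S v
  scv₀ : Pt S v₀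
  so : SO S O
  mn : Mn (z, v)
  om : MapClusterPt (z, v) atTop (fun x : ℕ => (act (x : ℤ) c, act (x : ℤ) v₀))
  cl : v₀ ∈ closure {u | ∃ n : ℤ, u = act n v ∧ u ∈ O}
  col : ∀ n : ℤ, act n v ∈ O → z n ∈ D

/-- stages -/
structure Stg (S : Set (Set ℕ)) {k : ℕ} (c : X k) (I : Type) [Primcodable I] (z : X k)
    (v : V I) (m : PM k) (O : Set (V I)) (D : Finset (Fin k)) : Prop where
  scz : Pt S z
  scv : Pt S v
  scm : Pt S m
  so : SO S O
  mn : Mn (z, (v, m))
  om : MapClusterPt (z, (v, m)) atTop (fun x : ℕ => act (x : ℤ) (c, (v, m)))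
  cl : (v, m) ∈ closure {u : Y I k | ∃ n : ℤ, u = act n (v, m) ∧ u.1 ∈ O}
  col : ∀ n : ℤ, act n v ∈ O → z n ∈ D
  rim : mr m {a | (a, (v, m)) ∈ oc (z, (v, m))} = 1

/-- the word `P` is blocked for the colour `r` -/
def Bl {k : ℕ} (c : X k) (m : PM k) (P : C k) (r : Fin k) : Prop :=
  ∃ N : ℕ, ∀ x : ℕ, N ≤ x → act (x : ℤ) c ∈ cyl P → mr m (cyl (((x : ℤ), r) :: P)) = 0

/-- Case II -/
def CaseII {k : ℕ} (c : X k) (m : PM k) : Prop :=
  ∀ (Q : C k) (r : Fin k), ((0 : ℤ), r) ∈ Q → 0 < mr m (cyl Q) →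
    ∃ P : C k, (∃ l, P = l ++ Q) ∧ 0 < mr m (cyl P) ∧ Bl c m P r

end Pool.Agent.Work.MP_69fea5_lc.HK
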