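import Pool.Agent.Work.MP_69fea5_lc.HK.Calc
import Pool.Agent.Work.MP_69fea5_lc.H2.Basic

/-!
Good families of sets of natural numbers are closed under arithmetical operations.
-/

set_option autoImplicit false

namespace Pool.Agent.Work.MP_69fea5_lc.HK

open Pool.Agent.Work.MP_69fea5_lc.H2

section U1

variable {S : Set (Set ℕ)} {α : Type} [Cx ℕ α]

theorem DF.pair (hS : Good S) {f g : α → ℕ} (hf : DF S f) (hg : DF S g) :
    DF S fun a => Nat.pair (f a) (g a) := by
  refine D.congr (R := fun p : ℕ × α => (f p.2 < g p.2 ∧ p.1 = g p.2 * g p.2 + f p.2) ∨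
    (¬ f p.2 < g p.2 ∧ p.1 = f p.2 * f p.2 + f p.2 + g p.2)) ?_ ?_
  · refine D.or ?_ ?_
    · exact (D.lt hS hf.wk hg.wk).and
        (D.eq (DF.v0 hS) (DF.add hS (DF.mul hS hg.wk hg.wk) hf.wk))
    · exact (D.lt hS hf.wk hg.wk).not.and
        (D.eq (DF.v0 hS) (DF.add hS (DF.add hS (DF.mul hS hf.wk hf.wk) hf.wk) hg.wk))
  · intro p
    unfold Nat.pair
    beta_reduce
    split_ifs with h
    · simp [h]
    · simp [h]

theorem DF.left (hS : Good S) {f : α → ℕ} (hf : DF S f) :
    DF S fun a => (Nat.unpair (f a)).1 := by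
  refine D.congr (R := fun p : ℕ × α => ∃ y, f p.2 = Nat.pair p.1 y) ?_ ?_
  · refine D.ex (R := fun y (p : ℕ × α) => f p.2 = Nat.pair p.1 y) ?_
    exact D.eq hf.wk.wk (DF.pair hS (DF.v1 hS) (DF.v0 hS))
  · intro p
    constructor
    · intro h
      exact ⟨(Nat.unpair (f p.2)).2, by rw [h, Nat.pair_unpair]⟩
    · rintro ⟨y, h⟩
      beta_reduce
      rw [h, Nat.unpair_pair]

theorem DF.right (hS : Good S) {f : α → ℕ} (hf : DF S f) :
    DF S fun a => (Nat.unpair (f a)).2 := by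
  refine D.congr (R := fun p : ℕ × α => ∃ y, f p.2 = Nat.pair y p.1) ?_ ?_
  · refine D.ex (R := fun y (p : ℕ × α) => f p.2 = Nat.pair y p.1) ?_
    exact D.eq hf.wk.wk (DF.pair hS (DF.v0 hS) (DF.v1 hS))
  · intro p
    constructor
    · intro h
      exact ⟨(Nat.unpair (f p.2)).1, by rw [h, Nat.pair_unpair]⟩
    · rintro ⟨y, h⟩
      beta_reduce
      rw [h, Nat.unpair_pair]

theorem DF.mod (hS : Good S) {f g : α → ℕ} (hf : DF S f) (hg : DF S g) :
    DF S fun a => f a % (g a + 1) := by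
  refine D.congr (R := fun p : ℕ × α => p.1 < g p.2 + 1 ∧ ∃ q, f p.2 = (g p.2 + 1) * q + p.1)
    ?_ ?_
  · refine (D.lt hS (DF.v0 hS) (DF.add hS hg.wk (DF.one hS))).and ?_
    refine D.ex (R := fun q (p : ℕ × α) => f p.2 = (g p.2 + 1) * q + p.1) ?_
    exact D.eq hf.wk.wk (DF.add hS (DF.mul hS (DF.add hS hg.wk.wk (DF.one hS)) (DF.v0 hS))
      (DF.v1 hS))
  · intro p
    constructor
    · intro h
      beta_reduce at h
      rw [h]
      exact ⟨Nat.mod_lt _ (Nat.succ_pos _), f p.2 / (g p.2 + 1), (Nat.div_add_mod _ _).symm⟩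
    · rintro ⟨h1, q, h2⟩
      beta_reduce
      rw [h2, Nat.mul_add_mod, Nat.mod_eq_of_lt h1]

theorem DF.beta (hS : Good S) {f g : α → ℕ} (hf : DF S f) (hg : DF S g) :
    DF S fun a => Nat.beta (f a) (g a) := by
  unfold Nat.beta
  exact DF.mod hS (f := fun a => (Nat.unpair (f a)).1)
    (g := fun a => (g a + 1) * (Nat.unpair (f a)).2) (DF.left hS hf)
    (DF.mul hS (DF.add hS hg (DF.one hS)) (DF.right hS hf))

/-- composition of definable functions -/
theorem DF.comp {f : ℕ → ℕ} (hf : DF S fun p : ℕ × PUnit.{1} => f p.1) {g : α → ℕ}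
    (hg : DF S g) (hS : Good S) : DF S fun a => f (g a) :=
  D.comp2 (R := fun y x => y = f x) hf (DF.v0 hS) hg.wk

theorem DF.primrec (hS : Good S) {f : ℕ → ℕ} (hf : Nat.Primrec f) :
    DF S fun p : ℕ × PUnit.{1} => f p.1 := by
  induction hf with
  | zero => exact DF.zero hS
  | succ => exact DF.add hS (DF.v0 hS) (DF.one hS)
  | left => exact DF.left hS (DF.v0 hS)
  | right => exact DF.right hS (DF.v0 hS)
  | pair _ _ ihf ihg => exact DF.pair hS ihf ihg
  | comp _ _ ihf ihg => exact DF.comp ihf ihg hS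
  | @prec f g _ _ ihf ihg =>
    set F : ℕ → ℕ → ℕ := fun z n => n.rec (f z) fun y IH => g (Nat.pair z (Nat.pair y IH))
      with hF
    refine D.congr (R := fun p : ℕ × ℕ × PUnit.{1} => ∃ b,
      Nat.beta b 0 = f (Nat.unpair p.2.1).1 ∧
      (∀ i < (Nat.unpair p.2.1).2, Nat.beta b (i + 1) =
        g (Nat.pair (Nat.unpair p.2.1).1 (Nat.pair i (Nat.beta b i)))) ∧
      p.1 = Nat.beta b (Nat.unpair p.2.1).2) ?_ ?_
    · refine D.ex (R := fun b (p : ℕ × ℕ × PUnit.{1}) =>
        Nat.beta b 0 = f (Nat.unpair p.2.1).1 ∧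
        (∀ i < (Nat.unpair p.2.1).2, Nat.beta b (i + 1) =
          g (Nat.pair (Nat.unpair p.2.1).1 (Nat.pair i (Nat.beta b i)))) ∧
        p.1 = Nat.beta b (Nat.unpair p.2.1).2) ?_
      refine D.and ?_ (D.and ?_ ?_)
      · exact D.eq (DF.beta hS (DF.v0 hS) (DF.zero hS))
          (DF.comp ihf (DF.left hS (DF.v2 hS)) hS)
      · refine D.ball hS (R := fun i (p : ℕ × ℕ × ℕ × PUnit.{1}) => Nat.beta p.1 (i + 1) =
          g (Nat.pair (Nat.unpair p.2.2.1).1 (Nat.pair i (Nat.beta p.1 i)))) ?_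
          (DF.right hS (DF.v2 hS))
        exact D.eq (DF.beta hS (DF.v1 hS) (DF.add hS (DF.v0 hS) (DF.one hS)))
          (DF.comp ihg (DF.pair hS (DF.left hS (DF.v3 hS))
            (DF.pair hS (DF.v0 hS) (DF.beta hS (DF.v1 hS) (DF.v0 hS)))) hS)
      · exact D.eq (DF.v1 hS) (DF.beta hS (DF.v0 hS) (DF.right hS (DF.v2 hS)))
    · rintro ⟨v, w, u⟩
      simp only [Nat.unpaired]
      constructor
      · intro h
        set l := (List.range ((Nat.unpair w).2 + 1)).map (F (Nat.unpair w).1) with hl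
        have hlen : l.length = (Nat.unpair w).2 + 1 := by simp [hl]
        have hb : ∀ i, i ≤ (Nat.unpair w).2 →
            Nat.beta (Nat.unbeta l) i = F (Nat.unpair w).1 i := by
          intro i hi
          have h1 := Nat.beta_unbeta_coe l ⟨i, by omega⟩
          simp only [Fin.getElem_fin] at h1
          rw [h1]
          simp [hl]
        refine ⟨Nat.unbeta l, ?_, ?_, ?_⟩
        · exact hb 0 (Nat.zero_le _)
        · intro i hi
          rw [hb (i + 1) hi, hb i hi.le, hF]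
        · rw [hb _ le_rfl]
          exact h
      · rintro ⟨b, h0, hs, hv⟩
        have hb : ∀ i, i ≤ (Nat.unpair w).2 → Nat.beta b i = F (Nat.unpair w).1 i := by
          intro i
          induction i with
          | zero => intro _; exact h0
          | succ i ih =>
            intro hi
            rw [hs i (by omega), ih (by omega), hF]
        rw [hv, hb _ le_rfl]

/-- U1 -/
theorem Cl.of_good (hS : Good S) : Cl S where
  zero := D.set0 hS (R := fun x => x = 0) (D.eq (DF.v0 hS) (DF.zero hS))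
  compl A hA := D.set0 hS (R := fun x => x ∉ A) (D.mem hA (DF.v0 hS)).not
  inter A hA B hB := D.set0 hS (R := fun x => x ∈ A ∧ x ∈ B)
    ((D.mem hA (DF.v0 hS)).and (D.mem hB (DF.v0 hS)))
  proj A hA := D.set0 hS (R := fun n => ∃ m, Nat.pair n m ∈ A)
    (D.ex (R := fun m (p : ℕ × PUnit.{1}) => Nat.pair p.1 m ∈ A)
      (D.mem hA (DF.pair hS (DF.v1 hS) (DF.v0 hS))))
  preim A hA f hf := D.set0 hS (R := fun n => f n ∈ A) (D.mem hA (DF.primrec hS hf))

end U1

end Pool.Agent.Work.MP_69fea5_lc.HK
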